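import Pool.Agent.Helper91.MVC.Main
import Pool.Agent.Helper62.MVC2.Surg

/-!
Project MV, block C1: half-edge form of the results (interface of helper62).
-/

namespace Pool.Agent.Helper91.MVC

open Finset Pool.Agent.Helper60.MV Pool.Agent.Helper62.MVC2

theorem jTK_eq {ρ : Type} (K : ρ → ℕ) (x : HK K) (m : ℕ) : jTK K x m = jT K x m := rfl

theorem j₁K_eq {ρ : Type} (K : ρ → ℕ) (x : HK K) (m : ℕ) : j₁K K x m = jR K x m := rfl

theorem surgery {ρ : Type} [Fintype ρ] (K : ρ → ℕ) (hK : ∀ i, Odd (K i))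
    (R : Conf (rot K)) (hc : R.Conn) (hl : ∃ x μ, R.IsLeaf x μ) :
    ∃ (x : HK K) (m : ℕ) (μ : HK K → ℤ) (T : Conf (rot (leg m)))
      (R₁ : Conf (rot (red K x.1 m))), 1 ≤ m ∧ 2 * m + 2 < K x.1 ∧ R.IsLeaf x μ ∧
      (∀ h, |μ h| ≤ 1) ∧ (∀ h, μ h ≠ 0 ↔ ∃ h', h'.1 = true ∧ jT K x m h' = h) ∧
      Surg R x m T R₁ ∧ R₁.Conn ∧
      ∀ h, R₁.LeafFace (R₁.face h) → R.LeafFace (R.face (jR K x m h)) ∧
        R.face (jR K x m h) ≠ R.face x := by
  obtain ⟨x, m, hm, hm2, hmax0⟩ := exists_maxLeaf K hK R hl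
  obtain ⟨μ, hl, hA, hy, hv, hmax⟩ := maxLeaf_data K hK R hmax0
  obtain ⟨xT, yT, hET⟩ := embT_rot K x m hm2
  obtain ⟨z₁, hE1⟩ := emb1_rot K x m hm2
  have eT : EmbT (rot K) x (R.τ x) (AK K x m) (rot (leg m)) (jTK K x m) xT yT := by
    rw [hy]; exact hET
  have e1 : Emb1 (rot K) x (R.τ x) (AK K x m) (rot (red K x.1 m)) (j₁K K x m) z₁ := by
    rw [hy]; exact hE1
  obtain ⟨T, hT⟩ := cutT R hl hA eT
  obtain ⟨R₁, h₁⟩ := cut1 R hl hA e1
  have hC : Cut R x μ (AK K x m) (rot (leg m)) (jTK K x m) xT yT (rot (red K x.1 m))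
    (j₁K K x m) z₁ := ⟨hl, hA, hv, eT, e1⟩
  obtain ⟨iF, iE, hM⟩ := cut_maps hC T R₁ hT h₁
  have hx : xT = legHalf m := by
    apply eT.inj
    rw [eT.hx]
    show x = jT K x m (legHalf m)
    simp [jT, legHalf]
  have hne : ∀ h : HK (leg m), h.1 = true → h ≠ xT := by
    intro h h1 h2
    rw [h2, hx] at h1
    simp [legHalf] at h1
  have hxA : ¬ AK K x m x := by rw [hA]; simp [hl.zero]
  have hfx : R.face x = R.face (j₁K K x m ((rot (red K x.1 m)) z₁)) := by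
    rw [e1.last]; exact (face_phi R x).symm
  have hTA : ∀ h : HK (leg m), h.1 = true → AK K x m (jTK K x m h) := by
    intro h h1
    rcases (eT.range (jTK K x m h)).1 ⟨h, rfl⟩ with h2 | h2
    · exact absurd (eT.inj (h2.trans eT.hx.symm)) (hne h h1)
    · exact h2
  refine ⟨x, m, μ, T, R₁, hm, hm2, hl, ?_, ?_, ?_, conn1 R hl hA e1 R₁ h₁ hc, ?_⟩
  · intro h
    by_cases h0 : μ h = 0
    · rw [h0]; simp
    · rcases hv h h0 with h1 | h1 <;> rw [h1] <;> simp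
  · intro h
    rw [← hA]
    constructor
    · intro h1
      obtain ⟨p, hp⟩ := (eT.range h).2 (Or.inr h1)
      refine ⟨p, ?_, hp⟩
      by_contra h2
      have h3 : jTK K x m p = x := by simp [jTK, h2]
      rw [hp] at h3
      rw [h3] at h1
      exact hxA h1
    · rintro ⟨p, h1, rfl⟩
      exact hTA p h1
  · refine ⟨fun h => (hT.tau h).symm, fun h => (h₁.tau h).symm, ?_, ?_, fun a b => (h₁.face a b).symm,
      ⟨_, hfx⟩, ?_, ?_, fun a b => (h₁.beta a b).symm⟩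
    · intro a b ha hb
      rw [hT.face, gT_of_ne R x _ xT a (hne a ha), gT_of_ne R x _ xT b (hne b hb)]
      exact Iff.rfl
    · rw [← hx, hT.face, gT_x, gT_of_ne R x _ xT _ (T.hτ.fpf xT), hT.tau, eT.hx]
    · intro a b ha h
      have h2 := hl.face _ _ h
      have h3 : AK K x m (jTK K x m a) := hTA a ha
      rw [hA] at h3
      have h4 : ¬ (j₁K K x m b = x ∨ AK K x m (j₁K K x m b)) := (e1.range _).1 ⟨b, rfl⟩
      have h5 : μ (j₁K K x m b) = 0 := by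
        by_contra h6
        exact h4 (Or.inr ((hA _).2 h6))
      apply h3
      exact h2.trans h5
    · intro a b ha hb
      rw [hT.beta, gT_of_ne R x _ xT a (hne a ha), gT_of_ne R x _ xT b (hne b hb)]
      exact Iff.rfl
  · intro h hf
    obtain ⟨h2, h3⟩ := cut_leaf₁ hC hM h₁ hmax (R₁.face h) hf
    rw [hM.f₁] at h2
    refine ⟨h2, fun h4 => h3 ?_⟩
    rw [h₁.face]
    exact h4.trans hfx

theorem deletion' {H : Type} {σ : Equiv.Perm H} (hs : AllOdd σ)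
    (h2 : ∃ a b, ¬ (σ.SameCycle a b)) (R : Conf σ) (hc : R.Conn)
    (hl : ¬ ∃ x μ, R.IsLeaf x μ) (haa : ¬ R.AA) (x : H) (μ : H → ℝ)
    (face : ∀ h h', R.face h = R.face h' → μ h = μ h')
    (beta : ∀ h h', R.β (R.face h) = R.face h' → μ h' = - μ h)
    (tau : ∀ h, h ≠ x → h ≠ R.τ x → μ (R.τ h) = - μ h) : ∀ h, μ h = 0 := by
  by_contra h
  push Not at h
  rcases dichotomy R hs hc h2 x μ h face beta tau with h1 | h1
  · exact hl h1
  · exact haa h1

end Pool.Agent.Helper91.MVC
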