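import Pool.Agent.Helper91.MVC.Defs

/-!
Project MV, block C1: basic facts.
-/

namespace Pool.Agent.Helper91.MVC

open Finset Pool.Agent.Helper60.MV

variable {H H' : Type} {σ : Equiv.Perm H} {σ' : Equiv.Perm H'}

theorem cyc_eq_iff {g : Equiv.Perm H} {a b : H} : cyc g a = cyc g b ↔ g.SameCycle a b :=
  Quotient.eq (r := Equiv.Perm.SameCycle.setoid g)

theorem cyc_rep {g : Equiv.Perm H} (c : Cyc g) : cyc g c.rep = c := Quotient.out_eq c

theorem cyc_surj {g : Equiv.Perm H} (c : Cyc g) : ∃ h, cyc g h = c := ⟨c.rep, cyc_rep c⟩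

theorem cyc_apply {g : Equiv.Perm H} (a : H) : cyc g (g a) = cyc g a :=
  cyc_eq_iff.2 (Equiv.Perm.sameCycle_apply_left.2 (Equiv.Perm.SameCycle.refl _ _))

/-- a `g`-invariant function is constant on cycles -/
theorem inv_sameCycle {g : Equiv.Perm H} {α : Type} {F : H → α} (hF : ∀ h, F (g h) = F h) {a b : H}
    (hab : g.SameCycle a b) : F a = F b := by
  have h1 : ∀ (n : ℕ) (h : H), F ((g ^ n) h) = F h := by
    intro n
    induction n with
    | zero => intro h; rfl
    | succ n ih => intro h; rw [pow_succ', Equiv.Perm.mul_apply, hF, ih]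
  obtain ⟨n, hn⟩ := hab
  obtain ⟨m, rfl | rfl⟩ := n.eq_nat_or_neg
  · rw [← hn, zpow_natCast, h1]
  · rw [zpow_neg, zpow_natCast, Equiv.Perm.inv_eq_iff_eq] at hn
    rw [hn, h1]

theorem face_eq_iff (R : Conf σ) {a b : H} : R.face a = R.face b ↔ (σ * R.τ).SameCycle a b :=
  cyc_eq_iff

theorem face_surj (R : Conf σ) (f : R.Face) : ∃ h, R.face h = f := cyc_surj f

theorem edge_surj (R : Conf σ) (e : R.Edge) : ∃ h, R.edge h = e := cyc_surj e

theorem face_tau_eq (R : Conf σ) (h : H) : R.face (R.τ h) = R.face (σ h) := by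
  have h1 : R.face ((σ * R.τ) (R.τ h)) = R.face (R.τ h) := cyc_apply _
  rw [Equiv.Perm.mul_apply, R.hτ.invol] at h1
  exact h1.symm

theorem face_phi (R : Conf σ) (h : H) : R.face (σ (R.τ h)) = R.face h := cyc_apply _

theorem edge_eq_iff (R : Conf σ) {a b : H} : R.edge a = R.edge b ↔ a = b ∨ R.τ a = b := by
  constructor
  · intro h
    have h1 : R.τ.SameCycle a b := cyc_eq_iff.1 h
    have h2 : ∀ n : ℕ, (R.τ ^ n) a = a ∨ (R.τ ^ n) a = R.τ a := by
      intro n
      induction n with
      | zero => exact Or.inl rfl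
      | succ n ih =>
        rw [pow_succ', Equiv.Perm.mul_apply]
        rcases ih with ih | ih
        · rw [ih]; exact Or.inr rfl
        · rw [ih, R.hτ.invol]; exact Or.inl rfl
    have h2' : ∀ n : ℕ, (R.τ ^ n) b = b ∨ (R.τ ^ n) b = R.τ b := by
      intro n
      induction n with
      | zero => exact Or.inl rfl
      | succ n ih =>
        rw [pow_succ', Equiv.Perm.mul_apply]
        rcases ih with ih | ih
        · rw [ih]; exact Or.inr rfl
        · rw [ih, R.hτ.invol]; exact Or.inl rfl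
    obtain ⟨n, hn⟩ := h1
    obtain ⟨m, rfl | rfl⟩ := n.eq_nat_or_neg
    · rw [zpow_natCast] at hn
      rcases h2 m with h3 | h3
      · exact Or.inl (h3.symm.trans hn)
      · exact Or.inr (h3.symm.trans hn)
    · rw [zpow_neg, zpow_natCast, Equiv.Perm.inv_eq_iff_eq] at hn
      rcases h2' m with h3 | h3
      · exact Or.inl (hn.trans h3)
      · right
        rw [hn, h3, R.hτ.invol]
  · rintro (rfl | rfl)
    · rfl
    · exact (cyc_apply (g := R.τ) a).symm

theorem edge_tau (R : Conf σ) (h : H) : R.edge (R.τ h) = R.edge h := cyc_apply _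

/-- an integer leaf is a leaf with values in every ring -/
theorem leafOn_of_isLeaf {α : Type} [CommRing α] {R : Conf σ} {x : H} {μ : H → ℤ}
    (h : R.IsLeaf x μ) : LeafOn R x (fun a => (μ a : α)) where
  face := fun a b hab => by rw [h.face a b hab]
  beta := fun a b hab => by rw [h.beta a b hab]; push_cast; rfl
  tau := fun a h1 h2 => by rw [h.tau a h1 h2]; push_cast; rfl
  zero := by rw [h.zero]; exact Int.cast_zero
  one := by rw [h.one]; exact Int.cast_one

theorem isLeaf_of_leafOn {R : Conf σ} {x : H} {μ : H → ℤ} (h : LeafOn R x μ) : R.IsLeaf x μ :=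
  ⟨h.face, h.beta, h.tau, h.zero, h.one⟩

theorem leafOn_int {R : Conf σ} {x : H} {μ : H → ℤ} (h : R.IsLeaf x μ) : LeafOn R x μ :=
  ⟨h.face, h.beta, h.tau, h.zero, h.one⟩

end Pool.Agent.Helper91.MVC
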