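import Pool.Agent.Helper91.MVC.Basic

/-!
MV-C1-6. Existence of the induced configuration and the induced maps.

`pull_exists`: `R.τ` preserves the range of the injection `j`, so it induces a permutation `τ'` of `H'` with `j (τ' p) = R.τ (j p)` (choose the
preimage, it is an involution without fixed points because `j` is injective and `R.τ` is one). Let `φ' = σ' * τ'`. By `hφ` the map
`G : Cyc φ' → R.Face`, `cyc φ' a ↦ g a`, is well defined and injective, its range is closed under the fixed point free involution `R.β` (`hβ`), so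
`β' = G⁻¹ R.β G` is a fixed point free involution of `Cyc φ'` with `β' (cyc a) = cyc b ↔ R.β (g a) = g b`.
`conf_ext`: two configurations on `(H, σ)` with the same `τ` and the same relation `β (face a) = face b` are equal (`cases`, `subst`).
`pull_faceMap`: `f ↦ g f.rep` (`face` of `Pull`; `R.β (g a) = g b` with `R'.face b = R'.β (R'.face a)`). `pull_edgeMap`: `e ↦ R.edge (j e.rep)`, use `edge_eq_iff` and
`inj`, `tau`.
-/

namespace Pool.Agent.Helper91.MVC

open Finset Pool.Agent.Helper60.MV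

variable {H H' : Type} {σ : Equiv.Perm H} {σ' : Equiv.Perm H'}

theorem pull_exists (R : Conf σ) (σ' : Equiv.Perm H') (j : H' → H) (hj : Function.Injective j)
    (hτ : ∀ p, ∃ q, j q = R.τ (j p)) (g : H' → R.Face)
    (hφ : ∀ τ' : Equiv.Perm H', (∀ p, j (τ' p) = R.τ (j p)) →
      ∀ a b, (σ' * τ').SameCycle a b ↔ g a = g b)
    (hβ : ∀ a, ∃ b, R.β (g a) = g b) : ∃ R' : Conf σ', Pull R' R j g := by
  choose t ht using hτ
  have ht2 : ∀ p, t (t p) = p := fun p => hj (by rw [ht, ht, R.hτ.invol])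
  let τ' : Equiv.Perm H' := ⟨t, t, ht2, ht2⟩
  have hτ' : ∀ p, j (τ' p) = R.τ (j p) := ht
  have hpair : IsPairing τ' := ⟨ht2, fun p h => R.hτ.fpf (j p) (by rw [← hτ', h])⟩
  have hφ' := hφ τ' hτ'
  -- the map on faces
  let G : Cyc (σ' * τ') → R.Face := fun c => g c.rep
  have hG : ∀ a, G (cyc (σ' * τ') a) = g a := fun a =>
    (hφ' _ _).1 (cyc_eq_iff.1 (cyc_rep (cyc (σ' * τ') a)))
  have hGi : Function.Injective G := by
    intro c c' h
    obtain ⟨a, rfl⟩ := cyc_surj c
    obtain ⟨b, rfl⟩ := cyc_surj c'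
    rw [hG, hG] at h
    exact cyc_eq_iff.2 ((hφ' _ _).2 h)
  have hGr : ∀ c, ∃ c', G c' = R.β (G c) := by
    intro c
    obtain ⟨a, rfl⟩ := cyc_surj c
    obtain ⟨b, hb⟩ := hβ a
    exact ⟨cyc _ b, by rw [hG, hG, hb]⟩
  choose B hB using hGr
  have hB2 : ∀ c, B (B c) = c := fun c => hGi (by rw [hB, hB, R.hβ.invol])
  let β' : Equiv.Perm (Cyc (σ' * τ')) := ⟨B, B, hB2, hB2⟩
  have hβ' : ∀ c, G (β' c) = R.β (G c) := hB
  have hpair' : IsPairing β' := ⟨hB2, fun c h => R.hβ.fpf (G c) (by rw [← hβ', h])⟩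
  refine ⟨⟨τ', hpair, β', hpair'⟩, ⟨hj, hτ', ?_, ?_⟩⟩
  · intro a b
    exact cyc_eq_iff.trans (hφ' a b)
  · intro a b
    constructor
    · intro h
      have h1 : G (β' (cyc _ a)) = G (cyc _ b) := congrArg G h
      rw [hβ', hG, hG] at h1
      exact h1
    · intro h
      apply hGi
      show G (β' (cyc _ a)) = G (cyc _ b)
      rw [hβ', hG, hG]
      exact h

theorem conf_ext {R R' : Conf σ} (hτ : ∀ h, R.τ h = R'.τ h)
    (hβ : ∀ a b, R.β (R.face a) = R.face b ↔ R'.β (R'.face a) = R'.face b) : R = R' := by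
  obtain ⟨τ, h1, β, h2⟩ := R
  obtain ⟨τ', h1', β', h2'⟩ := R'
  have e : τ = τ' := Equiv.ext hτ
  subst e
  have e2 : β = β' := by
    refine Equiv.ext fun c => ?_
    obtain ⟨a, rfl⟩ := cyc_surj c
    obtain ⟨b, hb⟩ := cyc_surj (β (cyc (σ * τ) a))
    rw [← hb]
    exact ((hβ a b).1 hb.symm).symm
  subst e2
  rfl

theorem pull_faceMap {R' : Conf σ'} {R : Conf σ} {j : H' → H} {g : H' → R.Face}
    (h : Pull R' R j g) : ∃ i : R'.Face → R.Face, Function.Injective i ∧
      (∀ a, i (R'.face a) = g a) ∧ ∀ f, R.β (i f) = i (R'.β f) := by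
  have h1 : ∀ a, g (R'.face a).rep = g a := fun a =>
    (h.face _ _).1 (cyc_rep (R'.face a))
  refine ⟨fun f => g f.rep, ?_, h1, ?_⟩
  · intro f f' hf
    obtain ⟨a, rfl⟩ := face_surj R' f
    obtain ⟨b, rfl⟩ := face_surj R' f'
    have hf' : g (R'.face a).rep = g (R'.face b).rep := hf
    rw [h1, h1] at hf'
    exact (h.face a b).2 hf'
  · intro f
    obtain ⟨a, rfl⟩ := face_surj R' f
    obtain ⟨b, hb⟩ := face_surj R' (R'.β (R'.face a))
    show R.β (g (R'.face a).rep) = g (R'.β (R'.face a)).rep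
    rw [← hb, h1, h1]
    exact (h.beta a b).1 hb.symm

theorem pull_edgeMap {R' : Conf σ'} {R : Conf σ} {j : H' → H} {g : H' → R.Face}
    (h : Pull R' R j g) : ∃ i : R'.Edge → R.Edge, Function.Injective i ∧
      ∀ a, i (R'.edge a) = R.edge (j a) := by
  have h0 : ∀ a b, R'.edge a = R'.edge b ↔ R.edge (j a) = R.edge (j b) := by
    intro a b
    rw [edge_eq_iff, edge_eq_iff]
    constructor
    · rintro (rfl | rfl)
      · exact Or.inl rfl
      · exact Or.inr (h.tau a).symm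
    · rintro (h1 | h1)
      · exact Or.inl (h.inj h1)
      · exact Or.inr (h.inj ((h.tau a).trans h1))
  have h1 : ∀ a, R.edge (j (R'.edge a).rep) = R.edge (j a) := fun a =>
    (h0 _ _).1 (cyc_rep (R'.edge a))
  refine ⟨fun e => R.edge (j e.rep), ?_, h1⟩
  intro e e' he
  obtain ⟨a, rfl⟩ := edge_surj R' e
  obtain ⟨b, rfl⟩ := edge_surj R' e'
  have he' : R.edge (j (R'.edge a).rep) = R.edge (j (R'.edge b).rep) := he
  rw [h1, h1] at he'
  exact (h0 a b).2 he'

end Pool.Agent.Helper91.MVC
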