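import Pool.Agent.Helper91.MVC.Defs2
import Pool.Agent.Helper91.MVC.PullEx

/-!
MV-C1-8. The rest (complement of the leaf and its leg) is a configuration, and it is connected if `R` is.

Write `y = R.τ x`, `A = {μ ≠ 0}`, `G` = complement of `A ∪ {x}` = range of `j₁`. `x ∉ A`, `y ∈ A`; `R.τ` preserves `A ∪ {x}` (`x ↔ y`; `h ∈ A`, `h ≠ y` gives
`R.τ h ∈ A`), hence `G`. `μ (σ h) = μ (R.τ h)`.
`cut1`: `pull_exists` with `g p = R.face (j₁ p)`. `hβ`: take `h'` with `R.β (g a) = R.face h'`; `μ h' = - μ (j₁ a) = 0`; if `h' = x` replace it by `σ y`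
(`R.face (σ y) = R.face x` by `face_phi`; `σ y = j₁ (σ₁ z₁)`); so `h' ∈ G`.
`hφ`: `φ' = σ₁ * τ'`. (→) `g (φ' p) = g p`: if `τ' p ≠ z₁` then `j₁ (φ' p) = σ (R.τ (j₁ p))`, `face_phi`. If `τ' p = z₁`: `j₁ (φ' p) = σ y`, `R.face (σ y) = R.face x`, and
`x = σ (j₁ z₁) = σ (R.τ (j₁ p))` is in the face of `j₁ p`.
(←) `F : H → Option (Cyc φ')`: `F (j₁ p) = some (cyc φ' p)`, `F x = some (cyc φ' (σ₁ z₁))`, `F h = none` for `h ∈ A`. `F (φ h) = F h`, `φ = σ * R.τ`: for `h ∈ A`:
`μ (φ h) = μ h ≠ 0` (same face). `h = x`: `φ x = σ y = j₁ (σ₁ z₁)`. `h = j₁ p`: `φ h = σ (j₁ (τ' p))`, which is `j₁ (φ' p)` if `τ' p ≠ z₁`, and `x` if `τ' p = z₁`, where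
`F x = cyc φ' (σ₁ z₁) = cyc φ' (φ' p)`. Conclude with `inv_sameCycle` and `face_eq_iff`.
`conn1`: let `c : H → Quot` be the class in `R₁` (quotient of `H₁` by `EqvGen` of the relation of `R₁`): `c (j₁ p) = [p]`, `c h = [σ₁ z₁]` for `h ∈ A ∪ {x}`. If `a, b` are related
in `R` (`b = σ a`, `b = R.τ a` or `R.face b = R.β (R.face a)`) then `c a = c b`. `b = σ a`: `a = j₁ p`, `p ≠ z₁`: `b = j₁ (σ₁ p)`; `p = z₁`: `b = x`; `a ∈ A ∪ {x}`: `b ∈ A ∪ {x}` or
(`a = y`) `b = σ y = j₁ (σ₁ z₁)`. `b = R.τ a`: clear. Face relation: `a ∈ A` iff `b ∈ A` (`μ b = - μ a`); if both are in `A` clear; otherwise replace `x` by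
`σ y = j₁ (σ₁ z₁)` (same face) and use `Pull.beta`. Since `R` is connected, all of `H₁` is one class.
-/

namespace Pool.Agent.Helper91.MVC

open Finset Pool.Agent.Helper60.MV

variable {H H₁ : Type} {σ : Equiv.Perm H}

theorem cut1_tau (R : Conf σ) {x : H} {μ : H → ℤ} (hl : R.IsLeaf x μ) {A : H → Prop}
    (hA : ∀ h, A h ↔ μ h ≠ 0) {σ₁ : Equiv.Perm H₁} {j₁ : H₁ → H} {z₁ : H₁}
    (hE : Emb1 σ x (R.τ x) A σ₁ j₁ z₁) (p : H₁) : ∃ q, j₁ q = R.τ (j₁ p) := by
  rw [hE.range]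
  have h1 : ¬ (j₁ p = x ∨ A (j₁ p)) := (hE.range (j₁ p)).1 ⟨p, rfl⟩
  have h2 : j₁ p ≠ x := fun h => h1 (Or.inl h)
  have h3 : μ (j₁ p) = 0 := by
    by_contra h
    exact h1 (Or.inr ((hA _).2 h))
  have h4 : j₁ p ≠ R.τ x := by
    intro h
    rw [h, hl.one] at h3
    exact one_ne_zero h3
  rintro (h | h)
  · apply h4
    rw [← h, R.hτ.invol]
  · apply (hA _).1 h
    rw [hl.tau _ h2 h4, h3, neg_zero]

theorem cut1_zero (R : Conf σ) {x : H} {μ : H → ℤ} {A : H → Prop}
    (hA : ∀ h, A h ↔ μ h ≠ 0) {σ₁ : Equiv.Perm H₁} {j₁ : H₁ → H} {z₁ : H₁}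
    (hE : Emb1 σ x (R.τ x) A σ₁ j₁ z₁) (p : H₁) : μ (j₁ p) = 0 := by
  have h1 : ¬ (j₁ p = x ∨ A (j₁ p)) := (hE.range (j₁ p)).1 ⟨p, rfl⟩
  by_contra h
  exact h1 (Or.inr ((hA _).2 h))

theorem cut1 (R : Conf σ) {x : H} {μ : H → ℤ} (hl : R.IsLeaf x μ) {A : H → Prop}
    (hA : ∀ h, A h ↔ μ h ≠ 0) {σ₁ : Equiv.Perm H₁} {j₁ : H₁ → H} {z₁ : H₁}
    (hE : Emb1 σ x (R.τ x) A σ₁ j₁ z₁) : ∃ R₁ : Conf σ₁, Pull R₁ R j₁ (fun p => R.face (j₁ p)) := by
  classical
  have hfy : R.face (j₁ (σ₁ z₁)) = R.face x := by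
    rw [hE.last]
    exact face_phi R x
  refine pull_exists R σ₁ j₁ hE.inj (cut1_tau R hl hA hE) _ ?_ ?_
  · intro τ' hτ' a b
    constructor
    · intro hab
      refine inv_sameCycle (F := fun p => R.face (j₁ p)) ?_ hab
      intro p
      change R.face (j₁ (σ₁ (τ' p))) = R.face (j₁ p)
      by_cases hp : τ' p = z₁
      · rw [hp, hfy, ← hE.hz, ← hp, hτ', face_phi]
      · rw [hE.other _ hp, hτ', face_phi]
    · intro hab
      have hab' := (face_eq_iff R).1 hab
      let F : H → Option (Cyc (σ₁ * τ')) := fun h =>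
        if hx : ∃ p, j₁ p = h then some (cyc (σ₁ * τ') hx.choose)
        else if h = x then some (cyc (σ₁ * τ') (σ₁ z₁)) else none
      have hF1 : ∀ p, F (j₁ p) = some (cyc (σ₁ * τ') p) := by
        intro p
        have hx : ∃ q, j₁ q = j₁ p := ⟨p, rfl⟩
        have h1 : hx.choose = p := hE.inj hx.choose_spec
        change (if hx : ∃ q, j₁ q = j₁ p then some (cyc (σ₁ * τ') hx.choose)
          else if j₁ p = x then some (cyc (σ₁ * τ') (σ₁ z₁)) else none) = _
        rw [dif_pos hx, h1]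
      have hxn : ¬ ∃ p, j₁ p = x := by
        rw [hE.range]
        intro h
        exact h (Or.inl rfl)
      have hF2 : F x = some (cyc (σ₁ * τ') (σ₁ z₁)) := by
        change (if hx : ∃ q, j₁ q = x then some (cyc (σ₁ * τ') hx.choose)
          else if x = x then some (cyc (σ₁ * τ') (σ₁ z₁)) else none) = _
        rw [dif_neg hxn, if_pos rfl]
      have hF3 : ∀ h, A h → F h = none := by
        intro h hh
        have h1 : ¬ ∃ p, j₁ p = h := by
          rw [hE.range]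
          intro h2
          exact h2 (Or.inr hh)
        have h2 : h ≠ x := by
          rintro rfl
          exact (hA _).1 hh hl.zero
        change (if hx : ∃ q, j₁ q = h then some (cyc (σ₁ * τ') hx.choose)
          else if h = x then some (cyc (σ₁ * τ') (σ₁ z₁)) else none) = _
        rw [dif_neg h1, if_neg h2]
      have hFinv : ∀ h, F ((σ * R.τ) h) = F h := by
        intro h
        by_cases hr : ∃ p, j₁ p = h
        · obtain ⟨p, rfl⟩ := hr
          rw [hF1, Equiv.Perm.mul_apply, ← hτ']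
          have h1 : cyc (σ₁ * τ') (σ₁ (τ' p)) = cyc (σ₁ * τ') p := cyc_apply (g := σ₁ * τ') p
          by_cases hp : τ' p = z₁
          · rw [hp, hE.hz, hF2, ← hp, h1]
          · rw [← hE.other _ hp, hF1, h1]
        · have h1 : h = x ∨ A h := by
            by_contra h2
            exact hr ((hE.range h).2 h2)
          rcases h1 with h1 | h1
          · rw [h1, hF2, Equiv.Perm.mul_apply, ← hE.last, hF1]
          · have h2 : A ((σ * R.τ) h) := by
              rw [hA]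
              have h3 : μ ((σ * R.τ) h) = μ h := hl.face _ h (face_phi R h)
              rw [h3]
              exact (hA _).1 h1
            rw [hF3 _ h2, hF3 _ h1]
      have h5 := inv_sameCycle hFinv hab'
      rw [hF1, hF1] at h5
      exact cyc_eq_iff.1 (Option.some.inj h5)
  · intro a
    obtain ⟨h', hh'⟩ := face_surj R (R.β (R.face (j₁ a)))
    have h1 : μ h' = 0 := by
      rw [hl.beta _ _ hh'.symm, cut1_zero R hA hE, neg_zero]
    by_cases hx : h' = x
    · refine ⟨σ₁ z₁, ?_⟩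
      change R.β (R.face (j₁ a)) = R.face (j₁ (σ₁ z₁))
      rw [hfy, ← hh', hx]
    · have h2 : ∃ p, j₁ p = h' := by
        rw [hE.range]
        rintro (h | h)
        · exact hx h
        · exact (hA _).1 h h1
      obtain ⟨b, hb⟩ := h2
      refine ⟨b, ?_⟩
      change R.β (R.face (j₁ a)) = R.face (j₁ b)
      rw [hb, hh']

theorem conn1 (R : Conf σ) {x : H} {μ : H → ℤ} (hl : R.IsLeaf x μ) {A : H → Prop}
    (hA : ∀ h, A h ↔ μ h ≠ 0) {σ₁ : Equiv.Perm H₁} {j₁ : H₁ → H} {z₁ : H₁}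
    (hE : Emb1 σ x (R.τ x) A σ₁ j₁ z₁) (R₁ : Conf σ₁)
    (h₁ : Pull R₁ R j₁ (fun p => R.face (j₁ p))) (hR : R.Conn) : R₁.Conn := by
  classical
  let r₁ : H₁ → H₁ → Prop := fun a b => b = σ₁ a ∨ b = R₁.τ a ∨ R₁.face b = R₁.β (R₁.face a)
  have hfy : R.face (j₁ (σ₁ z₁)) = R.face x := by
    rw [hE.last]
    exact face_phi R x
  let c : H → Quot r₁ := fun h =>
    if hx : ∃ p, j₁ p = h then Quot.mk r₁ hx.choose else Quot.mk r₁ (σ₁ z₁)
  have hc1 : ∀ p, c (j₁ p) = Quot.mk r₁ p := by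
    intro p
    have hx : ∃ q, j₁ q = j₁ p := ⟨p, rfl⟩
    have h1 : hx.choose = p := hE.inj hx.choose_spec
    change (if hx : ∃ q, j₁ q = j₁ p then Quot.mk r₁ hx.choose else Quot.mk r₁ (σ₁ z₁)) = _
    rw [dif_pos hx, h1]
  have hc2 : ∀ h, (¬ ∃ p, j₁ p = h) → c h = Quot.mk r₁ (σ₁ z₁) := by
    intro h hh
    change (if hx : ∃ q, j₁ q = h then Quot.mk r₁ hx.choose else Quot.mk r₁ (σ₁ z₁)) = _
    rw [dif_neg hh]
  have hout : ∀ h, (¬ ∃ p, j₁ p = h) → h = x ∨ A h := by
    intro h hh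
    by_contra h2
    exact hh ((hE.range h).2 h2)
  have hzero : ∀ h, μ h = 0 → ∃ p, R.face (j₁ p) = R.face h ∧ c h = Quot.mk r₁ p := by
    intro h hh
    by_cases hr : ∃ p, j₁ p = h
    · obtain ⟨p, rfl⟩ := hr
      exact ⟨p, rfl, hc1 p⟩
    · rcases hout h hr with h3 | h3
      · rw [h3] at hr ⊢
        exact ⟨σ₁ z₁, hfy, hc2 _ hr⟩
      · exact absurd hh ((hA _).1 h3)
  have hstep : ∀ a b, (b = σ a ∨ b = R.τ a ∨ R.face b = R.β (R.face a)) → c a = c b := by
    rintro a b (hab | hab | hab)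
    · by_cases hr : ∃ p, j₁ p = a
      · obtain ⟨p, rfl⟩ := hr
        by_cases hp : p = z₁
        · have h2 : b = x := by rw [hab, hp, hE.hz]
          have h3 : ¬ ∃ q, j₁ q = b := by
            rw [h2, hE.range]
            intro h
            exact h (Or.inl rfl)
          rw [hc1, hc2 b h3, hp]
          exact Quot.sound (Or.inl rfl)
        · have h2 : b = j₁ (σ₁ p) := by rw [hab, hE.other _ hp]
          rw [h2, hc1, hc1]
          exact Quot.sound (Or.inl rfl)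
      · rw [hc2 a hr]
        by_cases hb : ∃ q, j₁ q = b
        · obtain ⟨q, rfl⟩ := hb
          have h3 : μ (j₁ q) = 0 := cut1_zero R hA hE q
          have h4 : μ (R.τ a) = 0 := by
            rw [hl.face _ _ (face_tau_eq R a), ← hab, h3]
          have h5 : a = R.τ x := by
            by_contra h6
            rcases hout a hr with h7 | h7
            · rw [h7, hl.one] at h4
              exact one_ne_zero h4
            · have h8 : a ≠ x := by
                rintro rfl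
                exact (hA _).1 h7 hl.zero
              rw [hl.tau a h8 h6, neg_eq_zero] at h4
              exact (hA _).1 h7 h4
          have h6 : j₁ q = j₁ (σ₁ z₁) := by rw [hab, h5, hE.last]
          rw [h6, hc1]
        · rw [hc2 b hb]
    · by_cases hr : ∃ p, j₁ p = a
      · obtain ⟨p, rfl⟩ := hr
        have h2 : b = j₁ (R₁.τ p) := by rw [hab, h₁.tau]
        rw [h2, hc1, hc1]
        exact Quot.sound (Or.inr (Or.inl rfl))
      · have h2 : ¬ ∃ q, j₁ q = b := by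
          rintro ⟨q, hq⟩
          apply hr
          refine ⟨R₁.τ q, ?_⟩
          rw [h₁.tau, hq, hab, R.hτ.invol]
        rw [hc2 a hr, hc2 b h2]
    · have h2 : μ b = - μ a := hl.beta a b hab.symm
      by_cases h3 : μ a = 0
      · have h4 : μ b = 0 := by rw [h2, h3, neg_zero]
        obtain ⟨p, hp1, hp2⟩ := hzero a h3
        obtain ⟨q, hq1, hq2⟩ := hzero b h4
        rw [hp2, hq2]
        refine Quot.sound (Or.inr (Or.inr ?_))
        symm
        rw [h₁.beta]
        change R.β (R.face (j₁ p)) = R.face (j₁ q)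
        rw [hp1, hq1, hab]
      · have h4 : μ b ≠ 0 := by
          rw [h2]
          exact neg_ne_zero.2 h3
        have h5 : ¬ ∃ q, j₁ q = a := by
          rintro ⟨q, hq⟩
          exact h3 (by rw [← hq]; exact cut1_zero R hA hE q)
        have h6 : ¬ ∃ q, j₁ q = b := by
          rintro ⟨q, hq⟩
          exact h4 (by rw [← hq]; exact cut1_zero R hA hE q)
        rw [hc2 a h5, hc2 b h6]
  intro p q
  have h1 : ∀ a b, Relation.EqvGen
      (fun a b => b = σ a ∨ b = R.τ a ∨ R.face b = R.β (R.face a)) a b → c a = c b := by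
    intro a b hab
    induction hab with
    | rel a b h => exact hstep a b h
    | refl a => rfl
    | symm a b _ ih => exact ih.symm
    | trans a b d _ _ ih1 ih2 => exact ih1.trans ih2
  have h2 := h1 _ _ (hR (j₁ p) (j₁ q))
  rw [hc1, hc1] at h2
  exact Quot.eqvGen_exact h2

end Pool.Agent.Helper91.MVC
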