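import Pool.Agent.Helper91.MVC.Defs2
import Pool.Agent.Helper91.MVC.PullEx

/-!
MV-C1-7. The leaf with its leg is a configuration.

Apply `pull_exists` with `j = jT`, `g = gT R x jT xT`. Write `y = R.τ x`, `φ = σ * R.τ`.
Facts on `A = {μ ≠ 0}`: `x ∉ A`, `y ∈ A`; `R.τ h ∈ A ↔ h ∈ A` for `h ≠ x, y` (`tau`); `μ (σ h) = μ (R.τ h)` (`face`, `face_tau_eq`).
`hτ`: the range of `jT` is `{x} ∪ A`; `R.τ x = y`, `R.τ y = x`, and `R.τ h ∈ A` for `h ∈ A`, `h ≠ y`.
`hβ`: `g a` is a face of a half-edge `h ∈ A` (`jT a` or `y`); take `h'` with `R.β (g a) = R.face h'`: `μ h' = - μ h ≠ 0`, so `h' ∈ A`, `h' = jT b`,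
`b ≠ xT` (`jT xT = x ∉ A`), `g b = R.face h'`.
`hφ`: let `φ' = σT * τ'`, `jT (τ' p) = R.τ (jT p)`; so `τ' xT = yT`, `τ' yT = xT`.
(→) `g (φ' p) = g p` for all `p` (then `inv_sameCycle`): `p = xT`: `φ' xT = σT yT`, which is not `xT` (`σT` fixes `xT` and `yT ≠ xT`), `jT (σT yT) = σ x`, and
`g = R.face (σ x) = R.face (R.τ x)` (`face_tau_eq`). `p = yT`: `φ' yT = σT xT = xT`, `g xT = R.face (R.τ x) = R.face (jT yT)`. Other `p`: `τ' p ≠ xT, yT`,
`jT (φ' p) = σ (R.τ (jT p))`, `φ' p ≠ xT`, `g (φ' p) = R.face (σ (R.τ (jT p))) = R.face (jT p)` (`face_phi`).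
(←) Let `F : H → Option (Cyc φ')`, `F (jT p) = some (cyc φ' p)` for `p ≠ xT`, `F h = none` for `h ∉ A` (including `x`). `F (φ h) = F h` for all `h`: `h ∉ A`: then `φ h ∉ A`
(`μ (φ h) = μ h` because `φ h` is in the face of `h`), both `none`. `h = y`: `φ y = σ x = jT (σT yT)`, `φ' (φ' yT) = φ' xT = σT yT`, so the classes agree
(`cyc_apply` twice). `h = jT p`, `p ≠ xT, yT`: `φ h = σ (R.τ (jT p)) = jT (φ' p)`, `φ' p ≠ xT`.
So if `R.face (jT a) = R.face (jT b)`, `a, b ≠ xT`, then `cyc φ' a = cyc φ' b`. For `a = xT` use `g xT = R.face (jT yT)` and `cyc φ' xT = cyc φ' yT` (`φ' yT = xT`).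
-/

namespace Pool.Agent.Helper91.MVC

open Finset Pool.Agent.Helper60.MV

variable {H HT : Type} {σ : Equiv.Perm H}

theorem cutT (R : Conf σ) {x : H} {μ : H → ℤ} (hl : R.IsLeaf x μ) {A : H → Prop}
    (hA : ∀ h, A h ↔ μ h ≠ 0) {σT : Equiv.Perm HT} {jT : HT → H} {xT yT : HT}
    (hE : EmbT σ x (R.τ x) A σT jT xT yT) : ∃ T : Conf σT, Pull T R jT (gT R x jT xT) := by
  have hxA : ¬ A x := by rw [hA]; simp [hl.zero]
  have hyA : A (R.τ x) := by rw [hA, hl.one]; exact one_ne_zero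
  have hτA : ∀ h, h ≠ x → h ≠ R.τ x → (A (R.τ h) ↔ A h) := by
    intro h h1 h2
    rw [hA, hA, hl.tau h h1 h2]
    simp
  have hyx : yT ≠ xT := by
    intro h
    apply R.hτ.fpf x
    rw [← hE.hy, h, hE.hx]
  have hpx : ∀ p, p ≠ xT → A (jT p) := by
    intro p hp
    rcases (hE.range (jT p)).1 ⟨p, rfl⟩ with h | h
    · exact absurd (hE.inj (h.trans hE.hx.symm)) hp
    · exact h
  have hAp : ∀ h, A h → ∃ p, p ≠ xT ∧ jT p = h := by
    intro h hh
    obtain ⟨p, hp⟩ := (hE.range h).2 (Or.inr hh)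
    refine ⟨p, ?_, hp⟩
    intro h1
    apply hxA
    rw [h1, hE.hx] at hp
    rw [hp]
    exact hh
  have hFφ : ∀ h, (A (σ (R.τ h)) ↔ A h) := by
    intro h
    rw [hA, hA, hl.face _ _ (face_phi R h)]
  refine pull_exists R σT jT hE.inj ?_ (gT R x jT xT) ?_ ?_
  · intro p
    by_cases h1 : p = xT
    · refine ⟨yT, ?_⟩
      rw [h1, hE.hx, hE.hy]
    · by_cases h2 : p = yT
      · refine ⟨xT, ?_⟩
        rw [h2, hE.hy, hE.hx, R.hτ.invol]
      · have h3 : jT p ≠ x := fun h => h1 (hE.inj (h.trans hE.hx.symm))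
        have h4 : jT p ≠ R.τ x := fun h => h2 (hE.inj (h.trans hE.hy.symm))
        obtain ⟨q, hq, hq'⟩ := hAp _ ((hτA _ h3 h4).2 (hpx p h1))
        exact ⟨q, hq'⟩
  · intro τ' hτ'
    have hx' : τ' xT = yT := hE.inj (by rw [hτ', hE.hx, hE.hy])
    have hy' : τ' yT = xT := hE.inj (by rw [hτ', hE.hx, hE.hy, R.hτ.invol])
    have hinv : ∀ p, τ' (τ' p) = p := fun p => hE.inj (by rw [hτ', hτ', R.hτ.invol])
    have hσx : ∀ p, σT p = xT → p = xT := fun p hp => σT.injective (hp.trans hE.fix.symm)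
    have hoth : ∀ p, p ≠ xT → p ≠ yT →
        (jT ((σT * τ') p) = σ (R.τ (jT p)) ∧ (σT * τ') p ≠ xT) := by
      intro p h1 h2
      have h3 : τ' p ≠ xT := by
        intro h
        apply h2
        rw [← hinv p, h, hx']
      have h4 : τ' p ≠ yT := by
        intro h
        apply h1
        rw [← hinv p, h, hy']
      refine ⟨?_, ?_⟩
      · rw [Equiv.Perm.mul_apply, hE.other _ h3 h4, hτ']
      · rw [Equiv.Perm.mul_apply]
        exact fun h => h3 (hσx _ h)
    have hφx : (σT * τ') xT = σT yT := by rw [Equiv.Perm.mul_apply, hx']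
    have hφy : (σT * τ') yT = xT := by rw [Equiv.Perm.mul_apply, hy', hE.fix]
    have hσyx : σT yT ≠ xT := fun h => hyx (hσx _ h)
    have hcy : cyc (σT * τ') xT = cyc (σT * τ') yT := by
      have h := cyc_apply (g := σT * τ') yT
      rwa [hφy] at h
    intro a b
    constructor
    · intro hab
      refine inv_sameCycle (F := gT R x jT xT) ?_ hab
      intro p
      by_cases h1 : p = xT
      · rw [h1, hφx, gT_x, gT_of_ne _ _ _ _ _ hσyx, hE.last, face_tau_eq]
      · by_cases h2 : p = yT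
        · rw [h2, hφy, gT_x, gT_of_ne _ _ _ _ _ hyx, hE.hy]
        · obtain ⟨h3, h4⟩ := hoth p h1 h2
          rw [gT_of_ne _ _ _ _ _ h4, gT_of_ne _ _ _ _ _ h1, h3, face_phi]
    · classical
      let F : H → Option (Cyc (σT * τ')) := fun h =>
        if hh : A h then some (cyc (σT * τ') (Classical.choose (hAp h hh))) else none
      have hF1 : ∀ p, p ≠ xT → F (jT p) = some (cyc (σT * τ') p) := by
        intro p hp
        have h1 := Classical.choose_spec (hAp (jT p) (hpx p hp))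
        have h2 : F (jT p) =
            some (cyc (σT * τ') (Classical.choose (hAp (jT p) (hpx p hp)))) :=
          dif_pos (hpx p hp)
        rw [h2, hE.inj h1.2]
      have hF2 : ∀ h, ¬ A h → F h = none := fun h hh => dif_neg hh
      have hF : ∀ h, F ((σ * R.τ) h) = F h := by
        intro h
        rw [Equiv.Perm.mul_apply]
        by_cases hh : A h
        · obtain ⟨p, hp, rfl⟩ := hAp h hh
          by_cases h2 : p = yT
          · have h5 : σ (R.τ (jT p)) = jT (σT yT) := by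
              rw [h2, hE.hy, R.hτ.invol, hE.last]
            rw [h5, hF1 _ hσyx, hF1 _ hp, h2, ← hφx, cyc_apply, hcy]
          · obtain ⟨h3, h4⟩ := hoth p hp h2
            rw [← h3, hF1 _ h4, hF1 _ hp, cyc_apply]
        · rw [hF2 h hh, hF2 _ (fun h' => hh ((hFφ h).1 h'))]
      have key : ∀ a b, a ≠ xT → b ≠ xT → R.face (jT a) = R.face (jT b) →
          cyc (σT * τ') a = cyc (σT * τ') b := by
        intro a b ha hb hab
        have h1 := inv_sameCycle hF ((face_eq_iff R).1 hab)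
        rw [hF1 a ha, hF1 b hb] at h1
        exact Option.some.inj h1
      have hred : ∀ a, ∃ a', a' ≠ xT ∧ gT R x jT xT a = R.face (jT a') ∧
          cyc (σT * τ') a = cyc (σT * τ') a' := by
        intro a
        by_cases h : a = xT
        · refine ⟨yT, hyx, ?_, ?_⟩
          · rw [h, gT_x, hE.hy]
          · rw [h]
            exact hcy
        · exact ⟨a, h, gT_of_ne _ _ _ _ _ h, rfl⟩
      intro hab
      obtain ⟨a', ha1, ha2, ha3⟩ := hred a
      obtain ⟨b', hb1, hb2, hb3⟩ := hred b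
      rw [← cyc_eq_iff, ha3, hb3]
      exact key a' b' ha1 hb1 (by rw [← ha2, ← hb2, hab])
  · intro a
    have h1 : ∃ h, A h ∧ gT R x jT xT a = R.face h := by
      by_cases h : a = xT
      · exact ⟨R.τ x, hyA, by rw [h, gT_x]⟩
      · exact ⟨jT a, hpx a h, gT_of_ne _ _ _ _ _ h⟩
    obtain ⟨h, hh, hg⟩ := h1
    obtain ⟨h', hh'⟩ := face_surj R (R.β (R.face h))
    have h2 : A h' := by
      rw [hA, hl.beta h h' hh'.symm, neg_ne_zero]
      exact (hA h).1 hh
    obtain ⟨b, hb, hb'⟩ := hAp h' h2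
    refine ⟨b, ?_⟩
    rw [hg, gT_of_ne _ _ _ _ _ hb, hb', hh']

end Pool.Agent.Helper91.MVC
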