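import Pool.Agent.Helper91.MVC.Basic

/-!
MV-C1-5. Products over the cylinders.

`β` is a fixed point free involution of `F`; its cycles are the sets `{f, β f}`. For a symmetric `s` put `S (c) = s c.rep (β c.rep)`; then
`S (cyc β f) = s f (β f)` for every `f` (`c.rep = f` or `c.rep = β f`, `β (β f) = f`, symmetry) (`prod_aux`).
`prod_cyl`: `e` induces a bijection `Cyc β' ≃ Cyc β`, `cyc β' f ↦ cyc β (e f)` (e.g. `Fintype.prod_bijective` with the map
`c ↦ cyc β (e c.rep)`; injective and surjective because `e` carries the cycles `{f, β' f}` to the cycles `{e f, β (e f)}`), and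
`s (cyc β (e f)).rep (β ..) = s (e f) (β (e f)) = s (e f) (e (β' f))`.
`prod_cyl_sum`: the map `Cyc β₁ ⊕ Cyc β₂ → Cyc β`, `inl c ↦ cyc β (e (inl c.rep))`, `inr c ↦ cyc β (e (inr c.rep))` is a bijection;
`Fintype.prod_sum_type`.
-/

namespace Pool.Agent.Helper91.MVC

open Finset Pool.Agent.Helper60.MV

theorem pair_cyc_iff {F : Type} {β : Equiv.Perm F} (hβ : IsPairing β) {a b : F} :
    cyc β a = cyc β b ↔ a = b ∨ β a = b := by
  constructor
  · intro h
    have h1 : β.SameCycle a b := cyc_eq_iff.1 h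
    have h2 : ∀ (x : F) (n : ℕ), (β ^ n) x = x ∨ (β ^ n) x = β x := by
      intro x n
      induction n with
      | zero => exact Or.inl rfl
      | succ n ih =>
        rw [pow_succ', Equiv.Perm.mul_apply]
        rcases ih with ih | ih
        · rw [ih]; exact Or.inr rfl
        · rw [ih, hβ.invol]; exact Or.inl rfl
    obtain ⟨n, hn⟩ := h1
    obtain ⟨m, rfl | rfl⟩ := n.eq_nat_or_neg
    · rw [zpow_natCast] at hn
      rcases h2 a m with h3 | h3
      · exact Or.inl (h3.symm.trans hn)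
      · exact Or.inr (h3.symm.trans hn)
    · rw [zpow_neg, zpow_natCast, Equiv.Perm.inv_eq_iff_eq] at hn
      rcases h2 b m with h3 | h3
      · exact Or.inl (hn.trans h3)
      · right
        rw [hn, h3, hβ.invol]
  · rintro (rfl | rfl)
    · rfl
    · exact (cyc_apply (g := β) a).symm

theorem pair_rep {F : Type} {β : Equiv.Perm F} (hβ : IsPairing β) (f : F) :
    (cyc β f).rep = f ∨ β (cyc β f).rep = f :=
  (pair_cyc_iff hβ).1 (cyc_rep (cyc β f))

theorem prod_aux {F : Type} {β : Equiv.Perm F} (hβ : IsPairing β) (s : F → F → ℝ)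
    (hs : ∀ f f', s f f' = s f' f) (f : F) : s (cyc β f).rep (β (cyc β f).rep) = s f (β f) := by
  rcases pair_rep hβ f with h | h
  · rw [h]
  · have h1 : β f = (cyc β f).rep := by
      conv_lhs => rw [← h]
      exact hβ.invol _
    rw [h1, h, hs]

theorem prod_cyl {F F' : Type} [Fintype F] [Fintype F'] {β : Equiv.Perm F} {β' : Equiv.Perm F'}
    (hβ : IsPairing β) (hβ' : IsPairing β') (e : F' ≃ F) (he : ∀ f, e (β' f) = β (e f))
    (s : F → F → ℝ) (hs : ∀ f f', s f f' = s f' f) :
    ∏ c : Cyc β, s c.rep (β c.rep) = ∏ c : Cyc β', s (e c.rep) (e (β' c.rep)) := by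
  symm
  refine Fintype.prod_bijective (fun c : Cyc β' => cyc β (e c.rep)) ⟨?_, ?_⟩ _ _ ?_
  · intro c c' h
    have h1 := (pair_cyc_iff hβ).1 h
    have h2 : cyc β' c.rep = cyc β' c'.rep := by
      rw [pair_cyc_iff hβ']
      rcases h1 with h1 | h1
      · exact Or.inl (e.injective h1)
      · rw [← he] at h1
        exact Or.inr (e.injective h1)
    rwa [cyc_rep, cyc_rep] at h2
  · intro c
    refine ⟨cyc β' (e.symm c.rep), ?_⟩
    show cyc β (e (cyc β' (e.symm c.rep)).rep) = c
    rcases pair_rep hβ' (e.symm c.rep) with h | h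
    · rw [h, e.apply_symm_apply, cyc_rep]
    · rw [← cyc_apply (g := β), ← he, h, e.apply_symm_apply, cyc_rep]
  · intro c
    show s (e c.rep) (e (β' c.rep)) = s (cyc β (e c.rep)).rep (β (cyc β (e c.rep)).rep)
    rw [prod_aux hβ s hs, he]

theorem prod_cyl_sum {F F₁ F₂ : Type} [Fintype F] [Fintype F₁] [Fintype F₂]
    {β : Equiv.Perm F} {β₁ : Equiv.Perm F₁} {β₂ : Equiv.Perm F₂}
    (hβ : IsPairing β) (hβ₁ : IsPairing β₁) (hβ₂ : IsPairing β₂) (e : F₁ ⊕ F₂ ≃ F)
    (he : ∀ f, β (e f) = e (Sum.map β₁ β₂ f))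
    (s : F → F → ℝ) (hs : ∀ f f', s f f' = s f' f) :
    ∏ c : Cyc β, s c.rep (β c.rep) =
      (∏ c : Cyc β₁, s (e (Sum.inl c.rep)) (e (Sum.inl (β₁ c.rep)))) *
        ∏ c : Cyc β₂, s (e (Sum.inr c.rep)) (e (Sum.inr (β₂ c.rep))) := by
  have hl : ∀ a : F₁, β (e (Sum.inl a)) = e (Sum.inl (β₁ a)) := fun a => he (Sum.inl a)
  have hr : ∀ a : F₂, β (e (Sum.inr a)) = e (Sum.inr (β₂ a)) := fun a => he (Sum.inr a)
  have key : ∏ c : Cyc β₁ ⊕ Cyc β₂,
      Sum.elim (fun c : Cyc β₁ => s (e (Sum.inl c.rep)) (e (Sum.inl (β₁ c.rep))))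
        (fun c : Cyc β₂ => s (e (Sum.inr c.rep)) (e (Sum.inr (β₂ c.rep)))) c =
      ∏ c : Cyc β, s c.rep (β c.rep) := by
    refine Fintype.prod_bijective
      (Sum.elim (fun c : Cyc β₁ => cyc β (e (Sum.inl c.rep)))
        (fun c : Cyc β₂ => cyc β (e (Sum.inr c.rep)))) ⟨?_, ?_⟩ _ _ ?_
    · rintro (c | c) (c' | c') h
      · have h1 := (pair_cyc_iff hβ).1 h
        have h2 : cyc β₁ c.rep = cyc β₁ c'.rep := by
          rw [pair_cyc_iff hβ₁]
          rcases h1 with h1 | h1
          · exact Or.inl (Sum.inl_injective (e.injective h1))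
          · rw [hl] at h1
            exact Or.inr (Sum.inl_injective (e.injective h1))
        rw [cyc_rep, cyc_rep] at h2
        rw [h2]
      · exfalso
        rcases (pair_cyc_iff hβ).1 h with h1 | h1
        · exact Sum.inl_ne_inr (e.injective h1)
        · rw [hl] at h1
          exact Sum.inl_ne_inr (e.injective h1)
      · exfalso
        rcases (pair_cyc_iff hβ).1 h with h1 | h1
        · exact Sum.inr_ne_inl (e.injective h1)
        · rw [hr] at h1
          exact Sum.inr_ne_inl (e.injective h1)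
      · have h1 := (pair_cyc_iff hβ).1 h
        have h2 : cyc β₂ c.rep = cyc β₂ c'.rep := by
          rw [pair_cyc_iff hβ₂]
          rcases h1 with h1 | h1
          · exact Or.inl (Sum.inr_injective (e.injective h1))
          · rw [hr] at h1
            exact Or.inr (Sum.inr_injective (e.injective h1))
        rw [cyc_rep, cyc_rep] at h2
        rw [h2]
    · intro c
      obtain ⟨a, ha⟩ := e.surjective c.rep
      rcases a with a | a
      · refine ⟨Sum.inl (cyc β₁ a), ?_⟩
        show cyc β (e (Sum.inl (cyc β₁ a).rep)) = c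
        rcases pair_rep hβ₁ a with h | h
        · rw [h, ha, cyc_rep]
        · rw [← cyc_apply (g := β), hl, h, ha, cyc_rep]
      · refine ⟨Sum.inr (cyc β₂ a), ?_⟩
        show cyc β (e (Sum.inr (cyc β₂ a).rep)) = c
        rcases pair_rep hβ₂ a with h | h
        · rw [h, ha, cyc_rep]
        · rw [← cyc_apply (g := β), hr, h, ha, cyc_rep]
    · rintro (c | c)
      · show s (e (Sum.inl c.rep)) (e (Sum.inl (β₁ c.rep))) =
          s (cyc β (e (Sum.inl c.rep))).rep (β (cyc β (e (Sum.inl c.rep))).rep)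
        rw [prod_aux hβ s hs, hl]
      · show s (e (Sum.inr c.rep)) (e (Sum.inr (β₂ c.rep))) =
          s (cyc β (e (Sum.inr c.rep))).rep (β (cyc β (e (Sum.inr c.rep))).rep)
        rw [prod_aux hβ s hs, hr]
  rw [← key, Fintype.prod_sum_type]
  rfl

end Pool.Agent.Helper91.MVC
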