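import Pool.Agent.Helper60.MV.DefsC

/-!
Project MV, block C1 (combinatorics of leaves): definitions.
-/

namespace Pool.Agent.Helper91.MVC

open Finset Pool.Agent.Helper60.MV

variable {H H' : Type} {σ : Equiv.Perm H} {σ' : Equiv.Perm H'}

/-- `R'` is the part of `R` seen through `j` (half-edges) and `g` (faces) -/
structure Pull (R' : Conf σ') (R : Conf σ) (j : H' → H) (g : H' → R.Face) : Prop where
  inj : Function.Injective j
  tau : ∀ h, j (R'.τ h) = R.τ (j h)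
  face : ∀ a b, R'.face a = R'.face b ↔ g a = g b
  beta : ∀ a b, R'.β (R'.face a) = R'.face b ↔ R.β (g a) = g b

/-- a leaf with values in a ring -/
structure LeafOn {α : Type} [CommRing α] (R : Conf σ) (x : H) (μ : H → α) : Prop where
  face : ∀ h h', R.face h = R.face h' → μ h = μ h'
  beta : ∀ h h', R.β (R.face h) = R.face h' → μ h' = - μ h
  tau : ∀ h, h ≠ x → h ≠ R.τ x → μ (R.τ h) = - μ h
  zero : μ x = 0
  one : μ (R.τ x) = 1

/-- the largest leaf of `R` has its leg at `x` and size `2 m + 1` -/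
def MaxLeaf (R : Conf σ) (x : H) (m : ℕ) : Prop :=
  ∃ μ : H → ℤ, R.IsLeaf x μ ∧ Nat.card {h // μ h ≠ 0} = 2 * m + 1 ∧
    ∀ (x' : H) (μ' : H → ℤ), R.IsLeaf x' μ' → Nat.card {h // μ' h ≠ 0} ≤ 2 * m + 1

/-- the configuration `R` is cut along the edge of a leaf into the leaf `T` (the edge becomes a leg
of the leaf) and the rest `R₁` -/
structure Split {HT H₁ : Type} {σT : Equiv.Perm HT} {σ₁ : Equiv.Perm H₁}
    [Fintype H] [Fintype HT] [Fintype H₁]
    (R : Conf σ) (T : Conf σT) (R₁ : Conf σ₁) where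
  /-- the faces -/
  ιF : T.Face ⊕ R₁.Face ≃ R.Face
  /-- the edges -/
  ιE : T.Edge ⊕ R₁.Edge ≃ R.Edge
  /-- the edge joining the leaf to the rest -/
  e₀ : T.Edge
  /-- the face inside the leaf at this edge -/
  fy : T.Face
  /-- the face outside the leaf at this edge -/
  fx : R₁.Face
  /-- the signs of the faces of the leaf -/
  ν : T.Face → ℤ
  beta : ∀ f, R.β (ιF f) = ιF (Sum.map T.β R₁.β f)
  perT : ∀ (x : R.Edge → ℝ) (f : T.Face),
    R.per x (ιF (Sum.inl f)) + (if f = fy then x (ιE (Sum.inl e₀)) else 0) =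
      T.per (fun e => x (ιE (Sum.inl e))) f
  per₁ : ∀ (x : R.Edge → ℝ) (f : R₁.Face),
    R.per x (ιF (Sum.inr f)) =
      R₁.per (fun e => x (ιE (Sum.inr e))) f + (if f = fx then x (ιE (Sum.inl e₀)) else 0)
  leafT : ∀ f : T.Face, R.LeafFace (ιF (Sum.inl f))
  leaf₁ : ∀ f : R₁.Face, R₁.LeafFace f → R.LeafFace (ιF (Sum.inr f)) ∧ f ≠ fx
  nu : ∀ f, ν f = 1 ∨ ν f = -1
  nubeta : ∀ f, ν (T.β f) = - ν f
  nuper : ∀ x : R.Edge → ℝ,
    ∑ f : T.Face, (ν f : ℝ) * R.per x (ιF (Sum.inl f)) = x (ιE (Sum.inl e₀))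

/-- `R` is the disjoint union of `R'` and `R''` -/
structure DSplit {HT H₁ : Type} {σT : Equiv.Perm HT} {σ₁ : Equiv.Perm H₁}
    [Fintype H] [Fintype HT] [Fintype H₁]
    (R : Conf σ) (R' : Conf σT) (R'' : Conf σ₁) where
  ιF : R'.Face ⊕ R''.Face ≃ R.Face
  ιE : R'.Edge ⊕ R''.Edge ≃ R.Edge
  beta : ∀ f, R.β (ιF f) = ιF (Sum.map R'.β R''.β f)
  per' : ∀ (x : R.Edge → ℝ) (f : R'.Face),
    R.per x (ιF (Sum.inl f)) = R'.per (fun e => x (ιE (Sum.inl e))) f
  per'' : ∀ (x : R.Edge → ℝ) (f : R''.Face),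
    R.per x (ιF (Sum.inr f)) = R''.per (fun e => x (ιE (Sum.inr e))) f

/-- no relation of `R` between the vertices in `I` and the others -/
def ClosedIn {ρ : Type} {K : ρ → ℕ} (R : Conf (rot K)) (I : Finset ρ) : Prop :=
  ∀ a b : HK K, (b = rot K a ∨ b = R.τ a ∨ R.face b = R.β (R.face a)) → (a.1 ∈ I ↔ b.1 ∈ I)

/-- restriction of a type -/
def resK {ρ : Type} (K : ρ → ℕ) (I : Finset ρ) : {i // i ∈ I} → ℕ := fun i => K i

end Pool.Agent.Helper91.MVC
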