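import Pool.Agent.Helper91.MVC.Basic

/-!
Project MV, block C1: cutting a configuration along the edge of a leaf, abstract form.
`x` is the leg of the leaf, `y = τ x` the last half-edge of the leaf, `A` the set of half-edges of
the leaf (the support of `μ`).
-/

namespace Pool.Agent.Helper91.MVC

open Finset Pool.Agent.Helper60.MV

variable {H : Type} {σ : Equiv.Perm H}

/-- `(HT, σT)` is the leaf `A` closed up at `y`, together with the leg `x` -/
structure EmbT {HT : Type} (σ : Equiv.Perm H) (x y : H) (A : H → Prop) (σT : Equiv.Perm HT)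
    (jT : HT → H) (xT yT : HT) : Prop where
  inj : Function.Injective jT
  range : ∀ h, (∃ p, jT p = h) ↔ (h = x ∨ A h)
  hx : jT xT = x
  hy : jT yT = y
  fix : σT xT = xT
  last : jT (σT yT) = σ x
  other : ∀ p, p ≠ xT → p ≠ yT → jT (σT p) = σ (jT p)

/-- `(H₁, σ₁)` is the complement of the leaf and its leg -/
structure Emb1 {H₁ : Type} (σ : Equiv.Perm H) (x y : H) (A : H → Prop) (σ₁ : Equiv.Perm H₁)
    (j₁ : H₁ → H) (z₁ : H₁) : Prop where
  inj : Function.Injective j₁
  range : ∀ h, (∃ p, j₁ p = h) ↔ ¬ (h = x ∨ A h)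
  hz : σ (j₁ z₁) = x
  last : j₁ (σ₁ z₁) = σ y
  other : ∀ p, p ≠ z₁ → j₁ (σ₁ p) = σ (j₁ p)

/-- the face of `R` containing a half-edge of the leaf; the leg belongs to the face of `τ x` -/
noncomputable def gT {HT : Type} (R : Conf σ) (x : H) (jT : HT → H) (xT : HT) : HT → R.Face := by
  classical
  exact fun p => if p = xT then R.face (R.τ x) else R.face (jT p)

theorem gT_x {HT : Type} (R : Conf σ) (x : H) (jT : HT → H) (xT : HT) :
    gT R x jT xT xT = R.face (R.τ x) := by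
  simp [gT]

theorem gT_of_ne {HT : Type} (R : Conf σ) (x : H) (jT : HT → H) (xT p : HT) (h : p ≠ xT) :
    gT R x jT xT p = R.face (jT p) := by
  simp [gT, h]

/-- data of a leaf and the two embeddings -/
structure Cut {HT H₁ : Type} (R : Conf σ) (x : H) (μ : H → ℤ) (A : H → Prop)
    (σT : Equiv.Perm HT) (jT : HT → H) (xT yT : HT) (σ₁ : Equiv.Perm H₁) (j₁ : H₁ → H)
    (z₁ : H₁) : Prop where
  leaf : R.IsLeaf x μ
  hA : ∀ h, A h ↔ μ h ≠ 0
  val : ∀ h, μ h ≠ 0 → μ h = 1 ∨ μ h = -1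
  eT : EmbT σ x (R.τ x) A σT jT xT yT
  e₁ : Emb1 σ x (R.τ x) A σ₁ j₁ z₁

/-- the embedding of the leaf for `rot K` -/
def jTK {ρ : Type} (K : ρ → ℕ) (x : HK K) (m : ℕ) : HK (leg m) → HK K :=
  fun p => if p.1 = true then (rot K ^ ((p.2 : ℕ) + 1)) x else x

/-- the embedding of the rest for `rot K` -/
noncomputable def j₁K {ρ : Type} (K : ρ → ℕ) (x : HK K) (m : ℕ) : HK (red K x.1 m) → HK K := by
  classical
  exact fun p => if h : p.1 = x.1 then (rot K ^ (2 * m + 2 + (p.2 : ℕ))) x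
    else ⟨p.1, ⟨p.2, by
      have h1 := p.2.isLt
      have h2 : red K x.1 m p.1 = K p.1 := by simp [red, h]
      omega⟩⟩

/-- the half-edges of the leaf for `rot K` -/
def AK {ρ : Type} (K : ρ → ℕ) (x : HK K) (m : ℕ) : HK K → Prop :=
  fun h => ∃ k, k < 2 * m + 1 ∧ h = (rot K ^ (k + 1)) x

end Pool.Agent.Helper91.MVC
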