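import Pool.Agent.Helper91.MVC.Dich

/-!
MV-C1-3. Deletion of an edge, matrix form.

Let `x` be a half-edge of `e` (`edge_surj`). Define `μ h = lam (c)` if `R.face h = R.cface c false` and `- lam c` if `R.face h = R.cface c true`, i.e.
`μ h = if R.face h = c.rep then lam c else - lam c` with `c = cyc R.β (R.face h)` (`cface c false = c.rep`, `cface c true = R.β c.rep`; the cycle
of a face `f` under the pairing `β` is `{f, β f}`, `β f ≠ f`). `μ` depends only on the face; `μ h' = - μ h` if `R.face h' = R.β (R.face h)`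
(same cylinder, the other face). For an edge `e' = {h, τ h} ≠ e`: `∑_c lam c (P c false e' - P c true e') = μ h + μ (τ h)`: by definition
`P c b e' = card {k | R.face k = R.cface c b ∧ R.edge k = e'}`, exchange the sums: `∑_k [R.edge k = e'] μ k`, and `R.edge k = e'` iff `k = h` or `k = τ h`
(`edge_eq_iff`). So `μ (τ h) = - μ h` for `h ≠ x, τ x`. If `lam ≠ 0` then `μ ≠ 0` (faces are surjective) and `dichotomy` gives a leaf or `AA`.
-/

namespace Pool.Agent.Helper91.MVC

open Finset Pool.Agent.Helper60.MV

variable {H : Type} {σ : Equiv.Perm H}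

theorem pair_cases {F : Type} {g : Equiv.Perm F} (hg : IsPairing g) {a b : F}
    (h : cyc g a = cyc g b) : a = b ∨ g a = b := by
  have h1 : g.SameCycle a b := cyc_eq_iff.1 h
  have h2 : ∀ (c : F) (n : ℕ), (g ^ n) c = c ∨ (g ^ n) c = g c := by
    intro c n
    induction n with
    | zero => exact Or.inl rfl
    | succ n ih =>
      rw [pow_succ', Equiv.Perm.mul_apply]
      rcases ih with ih | ih
      · rw [ih]; exact Or.inr rfl
      · rw [ih, hg.invol]; exact Or.inl rfl
  obtain ⟨n, hn⟩ := h1
  obtain ⟨m, rfl | rfl⟩ := n.eq_nat_or_neg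
  · rw [zpow_natCast] at hn
    rcases h2 a m with h3 | h3
    · exact Or.inl (h3.symm.trans hn)
    · exact Or.inr (h3.symm.trans hn)
  · rw [zpow_neg, zpow_natCast, Equiv.Perm.inv_eq_iff_eq] at hn
    rcases h2 b m with h3 | h3
    · exact Or.inl (hn.trans h3)
    · right
      rw [hn, h3, hg.invol]

/-- the function on faces attached to a function on cylinders -/
noncomputable def sgnF (R : Conf σ) (lam : R.Cyl → ℝ) (f : R.Face) : ℝ := by
  classical
  exact if f = (cyc R.β f).rep then lam (cyc R.β f) else - lam (cyc R.β f)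

theorem sgnF_rep (R : Conf σ) (lam : R.Cyl → ℝ) (c : R.Cyl) : sgnF R lam c.rep = lam c := by
  unfold sgnF
  rw [cyc_rep, if_pos rfl]

theorem sgnF_beta_rep (R : Conf σ) (lam : R.Cyl → ℝ) (c : R.Cyl) :
    sgnF R lam (R.β c.rep) = - lam c := by
  unfold sgnF
  rw [cyc_apply, cyc_rep, if_neg (R.hβ.fpf _)]

theorem face_cases (R : Conf σ) (f : R.Face) :
    f = (cyc R.β f).rep ∨ f = R.β (cyc R.β f).rep := by
  rcases pair_cases R.hβ (a := (cyc R.β f).rep) (b := f) (cyc_rep _) with h | h
  · exact Or.inl h.symm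
  · exact Or.inr h.symm

theorem sgnF_beta (R : Conf σ) (lam : R.Cyl → ℝ) (f : R.Face) :
    sgnF R lam (R.β f) = - sgnF R lam f := by
  rcases face_cases R f with h | h
  · rw [h, sgnF_rep, sgnF_beta_rep]
  · rw [h, R.hβ.invol, sgnF_rep, sgnF_beta_rep, neg_neg]

theorem sgnF_sum [Fintype H] (R : Conf σ) (lam : R.Cyl → ℝ) (f : R.Face) :
    ∑ c : R.Cyl, lam c * ((if f = R.cface c false then (1 : ℝ) else 0) -
      (if f = R.cface c true then (1 : ℝ) else 0)) = sgnF R lam f := by
  classical
  rw [Finset.sum_eq_single (cyc R.β f)]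
  · rcases face_cases R f with h | h
    · have h1 : f ≠ R.cface (cyc R.β f) true := by
        intro h2
        have h3 : f = R.β (cyc R.β f).rep := h2
        exact R.hβ.fpf (cyc R.β f).rep (h3.symm.trans h)
      have h0 : f = R.cface (cyc R.β f) false := h
      rw [if_pos h0, if_neg h1]
      have h4 : sgnF R lam f = lam (cyc R.β f) := by
        unfold sgnF
        rw [if_pos h]
      rw [h4]; ring
    · have h1 : f ≠ R.cface (cyc R.β f) false := by
        intro h2
        have h3 : f = (cyc R.β f).rep := h2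
        exact R.hβ.fpf (cyc R.β f).rep (h.symm.trans h3)
      have h0 : f = R.cface (cyc R.β f) true := h
      rw [if_pos h0, if_neg h1]
      have h5 : ¬ f = (cyc R.β f).rep := h1
      have h4 : sgnF R lam f = - lam (cyc R.β f) := by
        unfold sgnF
        rw [if_neg h5]
      rw [h4]; ring
  · intro c _ hc
    have h1 : f ≠ R.cface c false := by
      intro h2
      apply hc
      have h3 : f = c.rep := h2
      rw [h3, cyc_rep]
    have h2 : f ≠ R.cface c true := by
      intro h2
      apply hc
      have h3 : f = R.β c.rep := h2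
      rw [h3, cyc_apply, cyc_rep]
    rw [if_neg h1, if_neg h2]; ring
  · intro h; exact absurd (Finset.mem_univ _) h

theorem P_cast [Fintype H] (R : Conf σ) (c : R.Cyl) (b : Bool) (e : R.Edge) :
    (R.P c b e : ℝ) = ∑ h : H, if R.edge h = e then
      (if R.face h = R.cface c b then (1 : ℝ) else 0) else 0 := by
  classical
  unfold Conf.P
  rw [Finset.card_filter]
  push_cast
  refine Finset.sum_congr rfl fun h _ => ?_
  by_cases h1 : R.edge h = e
  · by_cases h2 : R.face h = R.cface c b
    · rw [if_pos ⟨h2, h1⟩, if_pos h1, if_pos h2]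
    · rw [if_neg (fun h3 => h2 h3.1), if_pos h1, if_neg h2]
  · rw [if_neg (fun h3 => h1 h3.2), if_neg h1]

theorem del_sum [Fintype H] (R : Conf σ) (lam : R.Cyl → ℝ) (e : R.Edge) :
    ∑ c, lam c * ((R.P c false e : ℝ) - (R.P c true e : ℝ)) =
      ∑ h : H, if R.edge h = e then sgnF R lam (R.face h) else 0 := by
  classical
  have h1 : ∀ c : R.Cyl, lam c * ((R.P c false e : ℝ) - (R.P c true e : ℝ)) =
      ∑ h : H, if R.edge h = e then
        lam c * ((if R.face h = R.cface c false then (1 : ℝ) else 0) -
          (if R.face h = R.cface c true then (1 : ℝ) else 0)) else 0 := by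
    intro c
    rw [P_cast, P_cast, ← Finset.sum_sub_distrib, Finset.mul_sum]
    refine Finset.sum_congr rfl fun h _ => ?_
    by_cases h1 : R.edge h = e
    · rw [if_pos h1, if_pos h1, if_pos h1]
    · rw [if_neg h1, if_neg h1, if_neg h1, sub_zero, mul_zero]
  rw [Finset.sum_congr rfl fun c _ => h1 c, Finset.sum_comm]
  refine Finset.sum_congr rfl fun h _ => ?_
  by_cases h1 : R.edge h = e
  · simp only [if_pos h1]
    exact sgnF_sum R lam (R.face h)
  · simp only [if_neg h1]
    exact Finset.sum_const_zero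

theorem edge_sum [Fintype H] (R : Conf σ) (F : H → ℝ) (h : H) :
    (∑ a : H, if R.edge a = R.edge h then F a else 0) = F h + F (R.τ h) := by
  classical
  have hne : h ≠ R.τ h := fun h1 => R.hτ.fpf h h1.symm
  have h1 : ∀ a : H, (if R.edge a = R.edge h then F a else 0) =
      (if a = h then F a else 0) + (if a = R.τ h then F a else 0) := by
    intro a
    by_cases ha : a = h
    · subst ha
      rw [if_pos rfl, if_pos rfl, if_neg hne, add_zero]
    · by_cases hb : a = R.τ h
      · subst hb
        rw [if_pos (edge_tau R h), if_neg ha, if_pos rfl, zero_add]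
      · rw [if_neg ha, if_neg hb, if_neg, add_zero]
        intro h2
        rcases (edge_eq_iff R).1 h2 with h3 | h3
        · exact ha h3
        · apply hb
          rw [← h3, R.hτ.invol]
  rw [Finset.sum_congr rfl fun a _ => h1 a, Finset.sum_add_distrib, Finset.sum_ite_eq' univ h F,
    Finset.sum_ite_eq' univ (R.τ h) F, if_pos (Finset.mem_univ _), if_pos (Finset.mem_univ _)]

theorem deletion [Fintype H] (R : Conf σ) (hσ : AllOdd σ) (hR : R.Conn)
    (h2 : ∃ h h' : H, ¬ σ.SameCycle h h') (hleaf : ∀ x μ, ¬ R.IsLeaf x μ) (hAA : ¬ R.AA)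
    (e : R.Edge) (lam : R.Cyl → ℝ)
    (hlam : ∀ e', e' ≠ e → ∑ c, lam c * ((R.P c false e' : ℝ) - (R.P c true e' : ℝ)) = 0) :
    lam = 0 := by
  classical
  by_contra hne
  obtain ⟨c, hc⟩ : ∃ c, lam c ≠ 0 := by
    by_contra h1
    apply hne
    funext c
    by_contra h3
    exact h1 ⟨c, h3⟩
  obtain ⟨x, rfl⟩ := edge_surj R e
  obtain ⟨h0, hh0⟩ := face_surj R (Cyc.rep c)
  have key := dichotomy R hσ hR h2 x (fun h => sgnF R lam (R.face h))
    ⟨h0, by
      show sgnF R lam (R.face h0) ≠ 0
      rw [hh0, sgnF_rep]; exact hc⟩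
    (fun h h' hh => by
      show sgnF R lam (R.face h) = sgnF R lam (R.face h')
      rw [hh])
    (fun h h' hh => by
      show sgnF R lam (R.face h') = - sgnF R lam (R.face h)
      rw [← hh, sgnF_beta])
    (fun h hx hy => by
      show sgnF R lam (R.face (R.τ h)) = - sgnF R lam (R.face h)
      have h3 : R.edge h ≠ R.edge x := by
        intro h4
        rcases (edge_eq_iff R).1 h4 with h5 | h5
        · exact hx h5
        · apply hy
          rw [← h5, R.hτ.invol]
      have h4 := hlam _ h3
      rw [del_sum, edge_sum R (fun a => sgnF R lam (R.face a)) h] at h4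
      linarith)
  rcases key with ⟨x', μ', h3⟩ | h3
  · exact hleaf x' μ' h3
  · exact hAA h3

end Pool.Agent.Helper91.MVC
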