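import Pool.Agent.Helper91.MVC.Struct

/-!
MV-C1-2. Deletion of an edge: dichotomy.

`y = R.τ x`. As in `Struct`: `μ (σ h) = μ (R.τ h)` for all `h`; so `μ (σ h) = - μ h` for `h ≠ x, y`, `μ (σ x) = μ y`, `μ (σ y) = μ x`.
Case 0: `μ x + μ y = 0`. Then `μ (R.τ h) = - μ h` for all `h`, so `μ (σ h) = - μ h` for all `h`, and `alt_zero` gives `μ = 0`, false.
Case 1: exactly one of `μ x`, `μ y` is zero. Say `μ x = 0`, `μ y ≠ 0`: `μ / μ y` is a `LeafOn R x` with values in `ℝ`; by `leaf_struct` its
values are `0, 1, -1`, so it is the cast of an integer function `μ'` (`μ' h = if μ h = μ y then 1 else if μ h = - μ y then -1 else 0`) which is a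
leaf at `x`. If `μ y = 0`, `μ x ≠ 0`: the same with `x` and `y = R.τ x` exchanged (`R.τ y = x`).
Case 2: both nonzero, `μ x + μ y ≠ 0`. The support of `μ` is closed under `σ` (see the formulas), `R.τ` and under passing from `a` to `b` with
`R.face b = R.β (R.face a)`; all three relations preserve `μ ≠ 0` in both directions, so by connectedness `μ h ≠ 0` for all `h`. A `σ`-cycle
containing neither `x` nor `y` would alternate, so `μ = 0` on it by `alt_zero`, false. So every `σ`-cycle contains `x` or `y`; by `h2` the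
cycles of `x` and `y` are different (if `h`, `h'` are in different cycles, one is in the cycle of `x`, the other in that of `y`, and these differ).
In the cycle of `x`: `μ (σ x) = μ y`, then alternating back to `x = σ^n x`: `μ x = (-1)^(n-1) μ y = μ y` (`n` odd). So `μ x = μ y`, and along every
cycle, hence everywhere, `μ h = ± μ x`. So `μ / μ x` has values `±1` and is `IsAA` at `x`.
-/

namespace Pool.Agent.Helper91.MVC

open Finset Pool.Agent.Helper60.MV

variable {H : Type} {σ : Equiv.Perm H}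

private theorem st_eq (R : Conf σ) (μ : H → ℝ)
    (hface : ∀ h h', R.face h = R.face h' → μ h = μ h') (h : H) : μ (σ h) = μ (R.τ h) :=
  (hface _ _ (face_tau_eq R h)).symm

private theorem leaf_of (R : Conf σ) (hσ : AllOdd σ) (x : H) (μ : H → ℝ)
    (hface : ∀ h h', R.face h = R.face h' → μ h = μ h')
    (hbeta : ∀ h h', R.β (R.face h) = R.face h' → μ h' = - μ h)
    (htau : ∀ h, h ≠ x → h ≠ R.τ x → μ (R.τ h) = - μ h)
    (h0 : μ x = 0) (h1 : μ (R.τ x) ≠ 0) : ∃ x' μ', R.IsLeaf x' μ' := by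
  classical
  set c : ℝ := μ (R.τ x) with hc
  have hl : LeafOn R x (fun h => μ h / c) :=
    { face := fun a b hab => by rw [hface a b hab]
      beta := fun a b hab => by rw [hbeta a b hab, neg_div]
      tau := fun a ha hb => by rw [htau a ha hb, neg_div]
      zero := by rw [h0, zero_div]
      one := by rw [← hc]; exact div_self h1 }
  obtain ⟨m, -, -, -, hsup, hval⟩ := leaf_struct R hσ hl
  have hvals : ∀ h, μ h / c = 0 ∨ μ h / c = 1 ∨ μ h / c = -1 := by
    intro h
    by_cases hh : μ h / c = 0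
    · exact Or.inl hh
    · obtain ⟨k, hk, rfl⟩ := (hsup h).1 hh
      right
      have h3 := hval k hk
      rw [h3]
      exact neg_one_pow_eq_or ℝ k
  set μ' : H → ℤ := fun h => if μ h / c = 1 then 1 else if μ h / c = -1 then -1 else 0 with hμ'
  have hkey : ∀ h, ((μ' h : ℤ) : ℝ) = μ h / c := by
    intro h
    have e : μ' h = if μ h / c = 1 then 1 else if μ h / c = -1 then -1 else 0 := rfl
    rw [e]
    rcases hvals h with h3 | h3 | h3
    · rw [h3]; norm_num
    · rw [h3]; norm_num
    · rw [h3]; norm_num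
  refine ⟨x, μ', ?_, ?_, ?_, ?_, ?_⟩
  · intro a b hab
    have h3 : ((μ' a : ℤ) : ℝ) = ((μ' b : ℤ) : ℝ) := by rw [hkey, hkey, hface a b hab]
    exact_mod_cast h3
  · intro a b hab
    have h3 : ((μ' b : ℤ) : ℝ) = - ((μ' a : ℤ) : ℝ) := by rw [hkey, hkey, hbeta a b hab, neg_div]
    exact_mod_cast h3
  · intro a ha hb
    have h3 : ((μ' (R.τ a) : ℤ) : ℝ) = - ((μ' a : ℤ) : ℝ) := by
      rw [hkey, hkey, htau a ha hb, neg_div]
    exact_mod_cast h3
  · have h3 : ((μ' x : ℤ) : ℝ) = 0 := by rw [hkey, h0, zero_div]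
    exact_mod_cast h3
  · have h3 : ((μ' (R.τ x) : ℤ) : ℝ) = 1 := by rw [hkey, ← hc, div_self h1]
    exact_mod_cast h3

theorem dichotomy (R : Conf σ) (hσ : AllOdd σ) (hR : R.Conn)
    (h2 : ∃ h h' : H, ¬ σ.SameCycle h h') (x : H) (μ : H → ℝ) (hne : ∃ h, μ h ≠ 0)
    (hface : ∀ h h', R.face h = R.face h' → μ h = μ h')
    (hbeta : ∀ h h', R.β (R.face h) = R.face h' → μ h' = - μ h)
    (htau : ∀ h, h ≠ x → h ≠ R.τ x → μ (R.τ h) = - μ h) :
    (∃ x' μ', R.IsLeaf x' μ') ∨ R.AA := by
  classical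
  have hst := st_eq R μ hface
  by_cases hx : μ x = 0
  · by_cases hy : μ (R.τ x) = 0
    · -- case 0
      exfalso
      obtain ⟨h, hh⟩ := hne
      refine hh (alt_zero (hσ h) μ (fun k => ?_))
      generalize (σ ^ k) h = a
      rw [hst]
      by_cases ha : a = x
      · rw [ha, hx, hy, neg_zero]
      by_cases hb : a = R.τ x
      · rw [hb, R.hτ.invol, hx, hy, neg_zero]
      exact htau a ha hb
    · exact Or.inl (leaf_of R hσ x μ hface hbeta htau hx hy)
  by_cases hy : μ (R.τ x) = 0
  · refine Or.inl (leaf_of R hσ (R.τ x) μ hface hbeta ?_ hy ?_)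
    · intro h h3 h4
      rw [R.hτ.invol] at h4
      exact htau h h4 h3
    · rw [R.hτ.invol]; exact hx
  by_cases hxy : μ x + μ (R.τ x) = 0
  · exfalso
    obtain ⟨h, hh⟩ := hne
    refine hh (alt_zero (hσ h) μ (fun k => ?_))
    generalize (σ ^ k) h = a
    rw [hst]
    by_cases ha : a = x
    · rw [ha]; linarith
    by_cases hb : a = R.τ x
    · rw [hb, R.hτ.invol]; linarith
    exact htau a ha hb
  -- case 2
  right
  have htz : ∀ a, μ a ≠ 0 ↔ μ (R.τ a) ≠ 0 := by
    intro a
    by_cases ha : a = x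
    · rw [ha]; exact ⟨fun _ => hy, fun _ => hx⟩
    by_cases hb : a = R.τ x
    · rw [hb, R.hτ.invol]; exact ⟨fun _ => hx, fun _ => hy⟩
    rw [htau a ha hb, neg_ne_zero]
  have hall : ∀ a b : H, Relation.EqvGen
      (fun a b => b = σ a ∨ b = R.τ a ∨ R.face b = R.β (R.face a)) a b → (μ a ≠ 0 ↔ μ b ≠ 0) := by
    intro a b hab
    induction hab with
    | rel a b h =>
      rcases h with rfl | rfl | h
      · rw [hst]; exact htz a
      · exact htz a
      · rw [hbeta a b h.symm, neg_ne_zero]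
    | refl a => exact Iff.rfl
    | symm a b _ ih => exact ih.symm
    | trans a b c _ _ ih1 ih2 => exact ih1.trans ih2
  have hnz : ∀ h, μ h ≠ 0 := fun h => (hall x h (hR x h)).1 hx
  have hcyc : ∀ h, σ.SameCycle x h ∨ σ.SameCycle (R.τ x) h := by
    intro h
    by_contra hcon
    push Not at hcon
    refine hnz h (alt_zero (hσ h) μ (fun k => ?_))
    have hsc : σ.SameCycle ((σ ^ k) h) h :=
      Equiv.Perm.sameCycle_pow_left.2 (Equiv.Perm.SameCycle.refl _ _)
    rw [hst]
    refine htau _ ?_ ?_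
    · intro h3; rw [h3] at hsc; exact hcon.1 hsc
    · intro h3; rw [h3] at hsc; exact hcon.2 hsc
  have hdiff : ¬ σ.SameCycle x (R.τ x) := by
    intro h3
    obtain ⟨a, b, hab⟩ := h2
    have h4 : ∀ h, σ.SameCycle x h := by
      intro h
      rcases hcyc h with h5 | h5
      · exact h5
      · exact h3.trans h5
    exact hab ((h4 a).symm.trans (h4 b))
  -- along the cycle of x
  have hn : Odd (Function.minimalPeriod σ x) := hσ x
  have halt : ∀ k, k < Function.minimalPeriod σ x →
      μ ((σ ^ (k + 1)) x) = (-1) ^ k * μ (R.τ x) := by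
    intro k
    induction k with
    | zero => intro _; rw [zero_add, pow_one, hst, pow_zero, one_mul]
    | succ k ih =>
      intro hk
      rw [pow_succ' σ (k + 1), Equiv.Perm.mul_apply, hst, htau, ih (by omega), pow_succ]
      · ring
      · intro h3
        refine Function.not_isPeriodicPt_of_pos_of_lt_minimalPeriod (Nat.succ_ne_zero k) hk ?_
        unfold Function.IsPeriodicPt Function.IsFixedPt
        rw [Equiv.Perm.iterate_eq_pow]
        exact h3
      · intro h3
        exact hdiff (h3 ▸ Equiv.Perm.sameCycle_pow_right.2 (Equiv.Perm.SameCycle.refl _ _))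
  have hyx : μ (R.τ x) = μ x := by
    obtain ⟨m, hm⟩ := hn
    have h3 := halt (2 * m) (by omega)
    have h4 : (σ ^ (2 * m + 1)) x = x := by
      rw [← hm, ← Equiv.Perm.iterate_eq_pow]
      exact Function.iterate_minimalPeriod
    rw [h4, pow_mul, neg_one_sq, one_pow, one_mul] at h3
    exact h3.symm
  have habs : ∀ h, |μ (σ h)| = |μ h| := by
    intro h
    rw [hst]
    by_cases ha : h = x
    · rw [ha, hyx]
    by_cases hb : h = R.τ x
    · rw [hb, R.hτ.invol, hyx]
    rw [htau h ha hb, abs_neg]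
  have habs' : ∀ h, |μ h| = |μ x| := by
    intro h
    rcases hcyc h with h3 | h3
    · exact (inv_sameCycle (F := fun h => |μ h|) habs h3).symm
    · have h4 := (inv_sameCycle (F := fun h => |μ h|) habs h3).symm
      rw [h4, hyx]
  have hvals : ∀ h, μ h / μ x = 1 ∨ μ h / μ x = -1 := by
    intro h
    rcases abs_eq_abs.1 (habs' h) with h3 | h3
    · left; rw [h3]; exact div_self hx
    · right; rw [h3, neg_div, div_self hx]
  set μ' : H → ℤ := fun h => if μ h / μ x = 1 then 1 else -1 with hμ'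
  have hkey : ∀ h, ((μ' h : ℤ) : ℝ) = μ h / μ x := by
    intro h
    have e : μ' h = if μ h / μ x = 1 then 1 else -1 := rfl
    rw [e]
    rcases hvals h with h3 | h3
    · rw [h3]; norm_num
    · rw [h3]; norm_num
  refine ⟨x, μ', ?_, ?_, ?_, ?_, ?_, ?_, hdiff⟩
  · intro a b hab
    have h3 : ((μ' a : ℤ) : ℝ) = ((μ' b : ℤ) : ℝ) := by rw [hkey, hkey, hface a b hab]
    exact_mod_cast h3
  · intro a b hab
    have h3 : ((μ' b : ℤ) : ℝ) = - ((μ' a : ℤ) : ℝ) := by rw [hkey, hkey, hbeta a b hab, neg_div]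
    exact_mod_cast h3
  · intro a ha hb
    have h3 : ((μ' (R.τ a) : ℤ) : ℝ) = - ((μ' a : ℤ) : ℝ) := by
      rw [hkey, hkey, htau a ha hb, neg_div]
    exact_mod_cast h3
  · have h3 : ((μ' x : ℤ) : ℝ) = 1 := by rw [hkey, div_self hx]
    exact_mod_cast h3
  · have h3 : ((μ' (R.τ x) : ℤ) : ℝ) = 1 := by rw [hkey, hyx, div_self hx]
    exact_mod_cast h3
  · intro h
    rcases hvals h with h3 | h3
    · left
      have h4 : ((μ' h : ℤ) : ℝ) = 1 := by rw [hkey, h3]
      exact_mod_cast h4
    · right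
      have h4 : ((μ' h : ℤ) : ℝ) = -1 := by rw [hkey, h3]
      exact_mod_cast h4

end Pool.Agent.Helper91.MVC
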