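import Pool.Agent.Helper91.MVC.EmbK
import Pool.Agent.Helper91.MVC.PullEx

/-!
MV-C1-15. Disconnected configurations.

`exists_closedIn`: `R` is not connected: there are `h, h'` not in the same class of the equivalence relation `EqvGen` of `Conn`. The class of `h` is a union of `σ`-cycles
(`b = σ a` is one of the relations), i.e. of vertices (`rot_sameCycle`); `I` = the set of `a.1`, `a` in the class of `h`. Then `h.1 ∈ I`, `h'.1 ∉ I` and `ClosedIn R I`.
`dsplit`: for `I` with `ClosedIn R I` let `j' : HK (K | I) → HK K`, `⟨⟨i, _⟩, k⟩ ↦ ⟨i, k⟩`, the same `j''` for the complement. `j' (rot p) = rot (j' p)`. The range of `j'` (`{h | h.1 ∈ I}`) is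
preserved by `σ`, `R.τ` and the face pairing. `pull_exists` with `g p = R.face (j' p)`: `hφ`: `j'` intertwines `σ' * τ'` with `σ * R.τ`, so
`SameCycle` upstairs and downstairs agree for elements of the range (`inv_sameCycle` with `F : HK K → Option (Cyc φ')`, or powers). The pair
`F R = (R', R'')` (choice) is injective: `R.τ` and the relation `β (face a) = face b` are determined on `{h | h.1 ∈ I}` by `R'`, on the complement by `R''`, and no relation holds
between the two sets (`ClosedIn`; `R.face b = R.β (R.face a)`); `conf_ext`. `DSplit`: `pull_faceMap`, `pull_edgeMap`: the ranges are disjoint (a face contains half-edges of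
only one of the two sets, because `φ h = σ (R.τ h)`), `Equiv.ofBijective`; `per`: `∑_{h : HK K} = ∑_{HK (K | I)} + ∑_{HK (K | Iᶜ)}`.
-/

namespace Pool.Agent.Helper91.MVC

open Finset Pool.Agent.Helper60.MV

private def emb {ρ : Type} (K : ρ → ℕ) (J : Finset ρ) (p : HK (fun i : {i // i ∈ J} => K i)) :
    HK K := ⟨p.1.1, p.2⟩

private theorem emb_inj {ρ : Type} (K : ρ → ℕ) (J : Finset ρ) : Function.Injective (emb K J) := by
  rintro ⟨⟨i, hi⟩, k⟩ ⟨⟨i', hi'⟩, k'⟩ h
  simp only [emb, Sigma.mk.injEq] at h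
  obtain ⟨h1, h2⟩ := h
  subst h1
  simp only [heq_eq_eq] at h2
  subst h2
  rfl

private theorem emb_rot {ρ : Type} (K : ρ → ℕ) (J : Finset ρ)
    (p : HK (fun i : {i // i ∈ J} => K i)) :
    emb K J (rot (fun i : {i // i ∈ J} => K i) p) = rot K (emb K J p) := rfl

private theorem emb_mem {ρ : Type} (K : ρ → ℕ) (J : Finset ρ)
    (p : HK (fun i : {i // i ∈ J} => K i)) : (emb K J p).1 ∈ J := p.1.2

private theorem emb_range {ρ : Type} (K : ρ → ℕ) (J : Finset ρ) (h : HK K) (hh : h.1 ∈ J) :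
    ∃ p, emb K J p = h := ⟨⟨⟨h.1, hh⟩, h.2⟩, rfl⟩

private theorem zpow_intertwine {H H' : Type} {φ : Equiv.Perm H} {φ' : Equiv.Perm H'} {j : H' → H}
    (h : ∀ p, j (φ' p) = φ (j p)) (n : ℤ) (p : H') : j ((φ' ^ n) p) = (φ ^ n) (j p) := by
  have h1 : ∀ (m : ℕ) (p : H'), j ((φ' ^ m) p) = (φ ^ m) (j p) := by
    intro m
    induction m with
    | zero => intro p; rfl
    | succ m ih => intro p; rw [pow_succ', pow_succ', Equiv.Perm.mul_apply, Equiv.Perm.mul_apply, h, ih]
  obtain ⟨m, rfl | rfl⟩ := n.eq_nat_or_neg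
  · rw [zpow_natCast, zpow_natCast, h1]
  · rw [zpow_neg, zpow_neg, zpow_natCast, zpow_natCast, Equiv.Perm.eq_inv_iff_eq, ← h1]
    congr 1
    exact Equiv.apply_symm_apply (φ' ^ m) p

private theorem closed_face {ρ : Type} {K : ρ → ℕ} {R : Conf (rot K)} {J : Finset ρ}
    (hJ : ClosedIn R J) {a b : HK K} (h : R.face a = R.face b) : a.1 ∈ J ↔ b.1 ∈ J := by
  obtain ⟨c, hc⟩ := face_surj R (R.β (R.face a))
  exact (hJ a c (Or.inr (Or.inr hc))).trans (hJ b c (Or.inr (Or.inr (by rw [hc, h])))).symm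

private theorem exists_half {ρ : Type} (K : ρ → ℕ) (J : Finset ρ) (R : Conf (rot K))
    (hJ : ClosedIn R J) : ∃ R' : Conf (rot (fun i : {i // i ∈ J} => K i)),
      Pull R' R (emb K J) (fun p => R.face (emb K J p)) := by
  refine pull_exists R _ (emb K J) (emb_inj K J) (fun p => ?_) _ (fun τ' hτ' a b => ?_)
    (fun a => ?_)
  · exact emb_range K J _ ((hJ _ _ (Or.inr (Or.inl rfl))).1 (emb_mem K J p))
  · have h1 : ∀ p, emb K J ((rot (fun i : {i // i ∈ J} => K i) * τ') p) =
        (rot K * R.τ) (emb K J p) := by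
      intro p
      rw [Equiv.Perm.mul_apply, Equiv.Perm.mul_apply, emb_rot, hτ']
    rw [face_eq_iff]
    constructor
    · rintro ⟨n, hn⟩
      exact ⟨n, by rw [← zpow_intertwine h1, hn]⟩
    · rintro ⟨n, hn⟩
      refine ⟨n, emb_inj K J ?_⟩
      rw [zpow_intertwine h1, hn]
  · obtain ⟨h, hh⟩ := face_surj R (R.β (R.face (emb K J a)))
    obtain ⟨b, hb⟩ := emb_range K J h ((hJ (emb K J a) h (Or.inr (Or.inr hh))).1 (emb_mem K J a))
    exact ⟨b, by rw [hb, hh]⟩

private theorem half_maps {ρ : Type} [Fintype ρ] (K : ρ → ℕ) (J : Finset ρ) (R : Conf (rot K))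
    (hJ : ClosedIn R J) (R' : Conf (rot (fun i : {i // i ∈ J} => K i)))
    (hP : Pull R' R (emb K J) (fun p => R.face (emb K J p))) :
    ∃ (iF : R'.Face → R.Face) (iE : R'.Edge → R.Edge), Function.Injective iF ∧
      Function.Injective iE ∧ (∀ a, iF (R'.face a) = R.face (emb K J a)) ∧
      (∀ a, iE (R'.edge a) = R.edge (emb K J a)) ∧ (∀ f, R.β (iF f) = iF (R'.β f)) ∧
      ∀ (x : R.Edge → ℝ) (f : R'.Face), R.per x (iF f) = R'.per (fun e => x (iE e)) f := by
  obtain ⟨iF, hiF, h1, h2⟩ := pull_faceMap hP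
  obtain ⟨iE, hiE, h3⟩ := pull_edgeMap hP
  refine ⟨iF, iE, hiF, hiE, h1, h3, h2, fun x f => ?_⟩
  obtain ⟨a, rfl⟩ := face_surj R' f
  unfold Conf.per
  symm
  refine Fintype.sum_of_injective (emb K J) (emb_inj K J) _ _ (fun h hh => ?_) (fun p => ?_)
  · rw [if_neg]
    intro h4
    rw [h1] at h4
    exact hh (emb_range K J h ((closed_face hJ h4).2 (emb_mem K J a)))
  · show (if R'.face p = R'.face a then x (iE (R'.edge p)) else 0) = _
    rw [h3]
    by_cases h4 : R'.face p = R'.face a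
    · rw [if_pos h4, if_pos]
      rw [h1]
      exact (hP.face p a).1 h4
    · rw [if_neg h4, if_neg]
      rw [h1]
      exact fun h5 => h4 ((hP.face p a).2 h5)

theorem exists_closedIn {ρ : Type} [Fintype ρ] (K : ρ → ℕ) (hK : ∀ i, Odd (K i))
    (R : Conf (rot K)) (h : ¬ R.Conn) :
    ∃ I : Finset ρ, I.Nonempty ∧ (by classical exact (Iᶜ : Finset ρ).Nonempty) ∧ ClosedIn R I := by
  classical
  unfold Conf.Conn at h
  push Not at h
  obtain ⟨h0, h0', hn⟩ := h
  have hcyc : ∀ a b : HK K, a.1 = b.1 →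
      Relation.EqvGen (fun a b => b = rot K a ∨ b = R.τ a ∨ R.face b = R.β (R.face a)) h0 a →
      Relation.EqvGen (fun a b => b = rot K a ∨ b = R.τ a ∨ R.face b = R.β (R.face a)) h0 b := by
    intro a b hab ha
    have h1 := (rot_sameCycle K a b).2 hab
    have h2 := inv_sameCycle (g := rot K) (α := Prop) (F := fun x =>
      Relation.EqvGen (fun a b => b = rot K a ∨ b = R.τ a ∨ R.face b = R.β (R.face a)) h0 x)
      (fun x => propext ⟨fun h3 => Relation.EqvGen.trans _ _ _ h3
          (Relation.EqvGen.symm _ _ (Relation.EqvGen.rel x (rot K x) (Or.inl rfl))),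
        fun h3 => Relation.EqvGen.trans _ _ _ h3
          (Relation.EqvGen.rel x (rot K x) (Or.inl rfl))⟩) h1
    exact h2.mp ha
  have hI : ∀ a : HK K, a.1 ∈ (univ.filter (fun i => ∃ a : HK K, a.1 = i ∧
      Relation.EqvGen (fun a b => b = rot K a ∨ b = R.τ a ∨ R.face b = R.β (R.face a)) h0 a)) ↔
      Relation.EqvGen (fun a b => b = rot K a ∨ b = R.τ a ∨ R.face b = R.β (R.face a)) h0 a := by
    intro a
    rw [Finset.mem_filter]
    constructor
    · rintro ⟨-, a', ha', h1⟩
      exact hcyc a' a ha' h1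
    · intro h1
      exact ⟨mem_univ _, a, rfl, h1⟩
  refine ⟨univ.filter (fun i => ∃ a : HK K, a.1 = i ∧
      Relation.EqvGen (fun a b => b = rot K a ∨ b = R.τ a ∨ R.face b = R.β (R.face a)) h0 a),
    ⟨h0.1, (hI h0).2 (Relation.EqvGen.refl _)⟩, ⟨h0'.1, ?_⟩, ?_⟩
  · rw [Finset.mem_compl, hI]
    exact hn
  · intro a b hab
    rw [hI, hI]
    exact ⟨fun h1 => Relation.EqvGen.trans _ _ _ h1 (Relation.EqvGen.rel a b hab),
      fun h1 => Relation.EqvGen.trans _ _ _ h1
        (Relation.EqvGen.symm _ _ (Relation.EqvGen.rel a b hab))⟩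

theorem dsplit {ρ : Type} [Fintype ρ] [DecidableEq ρ] (K : ρ → ℕ) (I : Finset ρ) :
    ∃ F : {R : Conf (rot K) // ClosedIn R I} →
        Conf (rot (fun i : {i // i ∈ I} => K i)) × Conf (rot (fun i : {i // i ∈ Iᶜ} => K i)),
      Function.Injective F ∧ ∀ R, Nonempty (DSplit R.1 (F R).1 (F R).2) := by
  have hc : ∀ R : Conf (rot K), ClosedIn R I → ClosedIn R Iᶜ := by
    intro R hR a b hab
    rw [mem_compl, mem_compl, hR a b hab]
  choose F1 hF1 using fun R : {R : Conf (rot K) // ClosedIn R I} => exists_half K I R.1 R.2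
  choose F2 hF2 using fun R : {R : Conf (rot K) // ClosedIn R I} =>
    exists_half K Iᶜ R.1 (hc R.1 R.2)
  refine ⟨fun R => (F1 R, F2 R), ?_, ?_⟩
  · intro R S hRS
    have e1 : F1 R = F1 S := congrArg Prod.fst hRS
    have e2 : F2 R = F2 S := congrArg Prod.snd hRS
    have k1 := hF1 R
    have k2 := hF2 R
    have l1 := hF1 S
    have l2 := hF2 S
    rw [← e1] at l1
    rw [← e2] at l2
    apply Subtype.ext
    refine conf_ext (fun h => ?_) (fun a b => ?_)
    · by_cases hh : h.1 ∈ I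
      · obtain ⟨p, rfl⟩ := emb_range K I h hh
        rw [← k1.tau, ← l1.tau]
      · obtain ⟨p, rfl⟩ := emb_range K Iᶜ h (mem_compl.2 hh)
        rw [← k2.tau, ← l2.tau]
    · by_cases ha : a.1 ∈ I
      · by_cases hb : b.1 ∈ I
        · obtain ⟨p, rfl⟩ := emb_range K I a ha
          obtain ⟨q, rfl⟩ := emb_range K I b hb
          exact (k1.beta p q).symm.trans (l1.beta p q)
        · constructor
          · intro h1
            exact absurd ((R.2 a b (Or.inr (Or.inr h1.symm))).1 ha) hb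
          · intro h1
            exact absurd ((S.2 a b (Or.inr (Or.inr h1.symm))).1 ha) hb
      · by_cases hb : b.1 ∈ I
        · constructor
          · intro h1
            exact absurd ((R.2 a b (Or.inr (Or.inr h1.symm))).2 hb) ha
          · intro h1
            exact absurd ((S.2 a b (Or.inr (Or.inr h1.symm))).2 hb) ha
        · obtain ⟨p, rfl⟩ := emb_range K Iᶜ a (mem_compl.2 ha)
          obtain ⟨q, rfl⟩ := emb_range K Iᶜ b (mem_compl.2 hb)
          exact (k2.beta p q).symm.trans (l2.beta p q)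
  · intro R
    obtain ⟨iF, iE, a1, a2, a3, a4, a5, a6⟩ := half_maps K I R.1 R.2 (F1 R) (hF1 R)
    obtain ⟨jF, jE, b1, b2, b3, b4, b5, b6⟩ := half_maps K Iᶜ R.1 (hc R.1 R.2) (F2 R) (hF2 R)
    have hFd : ∀ f g, iF f ≠ jF g := by
      intro f g hfg
      obtain ⟨a, rfl⟩ := face_surj (F1 R) f
      obtain ⟨b, rfl⟩ := face_surj (F2 R) g
      rw [a3, b3] at hfg
      exact (mem_compl.1 (emb_mem K Iᶜ b)) ((closed_face R.2 hfg).1 (emb_mem K I a))
    have hEd : ∀ f g, iE f ≠ jE g := by
      intro f g hfg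
      obtain ⟨a, rfl⟩ := edge_surj (F1 R) f
      obtain ⟨b, rfl⟩ := edge_surj (F2 R) g
      rw [a4, b4, edge_eq_iff] at hfg
      rcases hfg with h1 | h1
      · exact (mem_compl.1 (emb_mem K Iᶜ b)) (h1 ▸ emb_mem K I a)
      · exact (mem_compl.1 (emb_mem K Iᶜ b))
          ((R.2 _ _ (Or.inr (Or.inl h1.symm))).1 (emb_mem K I a))
    have hFb : Function.Bijective (Sum.elim iF jF) := by
      constructor
      · rintro (f | f) (g | g) hfg
        · exact congrArg Sum.inl (a1 hfg)
        · exact absurd hfg (hFd f g)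
        · exact absurd hfg.symm (hFd g f)
        · exact congrArg Sum.inr (b1 hfg)
      · intro f
        obtain ⟨h, rfl⟩ := face_surj R.1 f
        by_cases hh : h.1 ∈ I
        · obtain ⟨p, rfl⟩ := emb_range K I h hh
          exact ⟨Sum.inl ((F1 R).face p), a3 p⟩
        · obtain ⟨p, rfl⟩ := emb_range K Iᶜ h (mem_compl.2 hh)
          exact ⟨Sum.inr ((F2 R).face p), b3 p⟩
    have hEb : Function.Bijective (Sum.elim iE jE) := by
      constructor
      · rintro (f | f) (g | g) hfg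
        · exact congrArg Sum.inl (a2 hfg)
        · exact absurd hfg (hEd f g)
        · exact absurd hfg.symm (hEd g f)
        · exact congrArg Sum.inr (b2 hfg)
      · intro f
        obtain ⟨h, rfl⟩ := edge_surj R.1 f
        by_cases hh : h.1 ∈ I
        · obtain ⟨p, rfl⟩ := emb_range K I h hh
          exact ⟨Sum.inl ((F1 R).edge p), a4 p⟩
        · obtain ⟨p, rfl⟩ := emb_range K Iᶜ h (mem_compl.2 hh)
          exact ⟨Sum.inr ((F2 R).edge p), b4 p⟩
    refine ⟨{
      ιF := Equiv.ofBijective _ hFb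
      ιE := Equiv.ofBijective _ hEb
      beta := ?_
      per' := fun x f => a6 x f
      per'' := fun x f => b6 x f }⟩
    rintro (f | f)
    · exact a5 f
    · exact b5 f

end Pool.Agent.Helper91.MVC
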