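import Pool.Agent.Helper91.MVC.Defs2

/-!
MV-C1-9. The embeddings for `rot K`.

`rot_pow`: `(rot K ^ n) ⟨i, k⟩ = ⟨i, (k + n) mod K i⟩` (induction, `finRotate`: `rot K ⟨i, k⟩ = ⟨i, k+1⟩` or `⟨i, 0⟩` if `k + 1 = K i`).
So with `x = ⟨i, k⟩` the elements `(rot K ^ n) x`, `n < K i`, are distinct and are all the `⟨i, _⟩`; `(rot K ^ (K i)) x = x`.
`embT_rot`: `jTK` sends `⟨false, 0⟩` to `x` and `⟨true, k⟩` to `σ^(k+1) x`, `k < 2 m + 1 < K i - 1`: injective; range `{x} ∪ AK`; `rot (leg m)` fixes `⟨false, 0⟩` (`Fin 1`),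
sends `⟨true, 2 m⟩` to `⟨true, 0⟩` and `⟨true, k⟩` to `⟨true, k + 1⟩` for `k < 2 m`.
`emb1_rot`: `j₁K` sends `⟨i', k⟩`, `i' ≠ i`, to itself, and `⟨i, k⟩`, `k < K i - (2 m + 2)`, to `σ^(2 m + 2 + k) x`; the range is the complement of `{σ^n x : n < 2 m + 2}`;
`z₁ = ⟨i, K i - (2 m + 3)⟩`: `j₁ z₁ = σ^(K i - 1) x`, `σ (j₁ z₁) = x`, `j₁ (rot z₁) = j₁ ⟨i, 0⟩ = σ^(2 m + 2) x = σ y`.
-/

namespace Pool.Agent.Helper91.MVC

open Finset Pool.Agent.Helper60.MV

private theorem frot (n : ℕ) (k : Fin n) : (finRotate n k : ℕ) = ((k : ℕ) + 1) % n := by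
  cases n with
  | zero => exact k.elim0
  | succ n =>
    rw [coe_finRotate]
    split_ifs with h
    · subst h
      simp
    · have h1 : (k : ℕ) ≠ n := fun h2 => h (Fin.ext h2)
      have h3 := k.isLt
      rw [Nat.mod_eq_of_lt (by omega)]

private theorem hk_ext {ρ : Type} {K : ρ → ℕ} {a b : HK K} (h1 : a.1 = b.1)
    (h2 : (a.2 : ℕ) = (b.2 : ℕ)) : a = b := by
  obtain ⟨i, k⟩ := a
  obtain ⟨j, l⟩ := b
  simp only at h1
  subst h1
  simp only at h2
  rw [Fin.ext h2]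

private theorem rot_fst {ρ : Type} (K : ρ → ℕ) (a : HK K) : (rot K a).1 = a.1 := rfl

private theorem rot_snd {ρ : Type} (K : ρ → ℕ) (a : HK K) :
    ((rot K a).2 : ℕ) = ((a.2 : ℕ) + 1) % K a.1 := frot (K a.1) a.2

private theorem rot_snd' {ρ : Type} (K : ρ → ℕ) (a : HK K) (L : ℕ) (hL : K a.1 = L) :
    ((rot K a).2 : ℕ) = ((a.2 : ℕ) + 1) % L := by
  subst hL
  exact rot_snd K a

private theorem rp_fst {ρ : Type} (K : ρ → ℕ) (n : ℕ) (a : HK K) : ((rot K ^ n) a).1 = a.1 := by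
  induction n with
  | zero => rfl
  | succ n ih => rw [pow_succ', Equiv.Perm.mul_apply, rot_fst, ih]

private theorem rp_snd {ρ : Type} (K : ρ → ℕ) (n : ℕ) (a : HK K) :
    (((rot K ^ n) a).2 : ℕ) = ((a.2 : ℕ) + n) % K a.1 := by
  induction n with
  | zero =>
    rw [pow_zero, Equiv.Perm.one_apply, Nat.add_zero, Nat.mod_eq_of_lt a.2.isLt]
  | succ n ih =>
    rw [pow_succ', Equiv.Perm.mul_apply, rot_snd, ih, rp_fst, Nat.mod_add_mod, Nat.add_assoc]

private theorem mod_inj {L k n n' : ℕ} (hn : n < L) (hn' : n' < L)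
    (h : (k + n) % L = (k + n') % L) : n = n' := by
  have h1 : n ≡ n' [MOD L] := Nat.ModEq.add_left_cancel' k h
  rw [Nat.ModEq, Nat.mod_eq_of_lt hn, Nat.mod_eq_of_lt hn'] at h1
  exact h1

private theorem rp_inj {ρ : Type} (K : ρ → ℕ) (a : HK K) {n n' : ℕ} (hn : n < K a.1)
    (hn' : n' < K a.1) (h : (rot K ^ n) a = (rot K ^ n') a) : n = n' := by
  have h1 : (((rot K ^ n) a).2 : ℕ) = (((rot K ^ n') a).2 : ℕ) := by rw [h]
  rw [rp_snd, rp_snd] at h1
  exact mod_inj hn hn' h1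

private theorem rp_period {ρ : Type} (K : ρ → ℕ) (a : HK K) : (rot K ^ (K a.1)) a = a := by
  refine hk_ext (rp_fst K _ a) ?_
  rw [rp_snd, Nat.add_mod_right, Nat.mod_eq_of_lt a.2.isLt]

private theorem rp_surj {ρ : Type} (K : ρ → ℕ) (a b : HK K) (h : a.1 = b.1) :
    ∃ n, n < K a.1 ∧ (rot K ^ n) a = b := by
  have hb : (b.2 : ℕ) < K a.1 := by rw [h]; exact b.2.isLt
  have ha := a.2.isLt
  refine ⟨((b.2 : ℕ) + (K a.1 - (a.2 : ℕ))) % K a.1, Nat.mod_lt _ (by omega), ?_⟩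
  refine hk_ext ((rp_fst K _ a).trans h) ?_
  rw [rp_snd, Nat.add_mod_mod,
    show (a.2 : ℕ) + ((b.2 : ℕ) + (K a.1 - (a.2 : ℕ))) = (b.2 : ℕ) + K a.1 by omega,
    Nat.add_mod_right, Nat.mod_eq_of_lt hb]

theorem rot_pow {ρ : Type} (K : ρ → ℕ) (n : ℕ) (i : ρ) (k : Fin (K i)) :
    (rot K ^ n) ⟨i, k⟩ = ⟨i, ⟨((k : ℕ) + n) % K i, Nat.mod_lt _ k.pos⟩⟩ := by
  exact hk_ext (rp_fst K n ⟨i, k⟩) (rp_snd K n ⟨i, k⟩)

theorem rot_period {ρ : Type} (K : ρ → ℕ) (h : HK K) :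
    Function.minimalPeriod (rot K) h = K h.1 := by
  have hp : ∀ n, Function.IsPeriodicPt (rot K) n h ↔ (rot K ^ n) h = h := by
    intro n
    rw [Function.IsPeriodicPt, Function.IsFixedPt, ← Equiv.Perm.coe_pow]
  refine Nat.dvd_antisymm ?_ ?_
  · exact ((hp _).2 (rp_period K h)).minimalPeriod_dvd
  · have h1 := (hp _).1 (Function.isPeriodicPt_minimalPeriod (rot K) h)
    have h2 : (((rot K ^ (Function.minimalPeriod (rot K) h)) h).2 : ℕ) = (h.2 : ℕ) := by rw [h1]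
    rw [rp_snd] at h2
    have h3 : (h.2 : ℕ) + Function.minimalPeriod (rot K) h ≡ (h.2 : ℕ) + 0 [MOD K h.1] := by
      rw [Nat.ModEq, h2, Nat.add_zero, Nat.mod_eq_of_lt h.2.isLt]
    have h4 := Nat.ModEq.add_left_cancel' _ h3
    exact (Nat.modEq_zero_iff_dvd).1 h4

theorem rot_odd {ρ : Type} (K : ρ → ℕ) (hK : ∀ i, Odd (K i)) : AllOdd (rot K) := by
  intro h
  rw [rot_period]
  exact hK _

theorem rot_sameCycle {ρ : Type} (K : ρ → ℕ) (a b : HK K) : (rot K).SameCycle a b ↔ a.1 = b.1 := by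
  constructor
  · rintro ⟨z, hz⟩
    have hinv : ∀ c : HK K, ((rot K)⁻¹ c).1 = c.1 := by
      intro c
      have h0 : rot K ((rot K)⁻¹ c) = c := by
        rw [← Equiv.Perm.mul_apply, mul_inv_cancel, Equiv.Perm.one_apply]
      have h1 := rot_fst K ((rot K)⁻¹ c)
      rw [h0] at h1
      exact h1.symm
    have hall : ∀ (n : ℕ) (c : HK K), (((rot K)⁻¹ ^ n) c).1 = c.1 := by
      intro n
      induction n with
      | zero => intro c; rfl
      | succ n ih => intro c; rw [pow_succ', Equiv.Perm.mul_apply, hinv, ih]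
    rw [← hz]
    obtain ⟨n, rfl | rfl⟩ := z.eq_nat_or_neg
    · rw [zpow_natCast, rp_fst]
    · rw [zpow_neg, zpow_natCast, ← inv_pow, hall]
  · intro h
    obtain ⟨n, -, hn⟩ := rp_surj K a b h
    exact ⟨(n : ℤ), by rw [zpow_natCast, hn]⟩

theorem embT_rot {ρ : Type} (K : ρ → ℕ) (x : HK K) (m : ℕ) (hm : 2 * m + 2 < K x.1) :
    ∃ xT yT, EmbT (rot K) x ((rot K ^ (2 * m + 1)) x) (AK K x m) (rot (leg m)) (jTK K x m) xT yT := by
  have jt : ∀ s : Fin (leg m true), jTK K x m ⟨true, s⟩ = (rot K ^ ((s : ℕ) + 1)) x := by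
    intro s
    simp [jTK]
  have jf : ∀ s : Fin (leg m false), jTK K x m ⟨false, s⟩ = x := by
    intro s
    simp [jTK]
  have lt : leg m true = 2 * m + 1 := rfl
  have lf : leg m false = 1 := rfl
  have bT : ∀ s : Fin (leg m true), (s : ℕ) < 2 * m + 1 := fun s => s.isLt
  have bF : ∀ s : Fin (leg m false), (s : ℕ) < 1 := fun s => s.isLt
  have ne0 : ∀ s : ℕ, s < 2 * m + 1 → (rot K ^ (s + 1)) x ≠ x := by
    intro s hs h
    have h1 : (rot K ^ (s + 1)) x = (rot K ^ 0) x := by rw [h]; rfl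
    have := rp_inj K x (by omega) (by omega) h1
    omega
  refine ⟨⟨false, ⟨0, by rw [lf]; exact Nat.one_pos⟩⟩, ⟨true, ⟨2 * m, by rw [lt]; omega⟩⟩,
    ?_, ?_, ?_, ?_, ?_, ?_, ?_⟩
  · rintro ⟨b, s⟩ ⟨b', s'⟩ h
    cases b <;> cases b'
    · refine hk_ext rfl ?_
      have h1 := bF s
      have h2 := bF s'
      simp only
      omega
    · exfalso
      rw [jt, jf] at h
      exact ne0 _ (bT s') h.symm
    · exfalso
      rw [jt, jf] at h
      exact ne0 _ (bT s) h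
    · rw [jt, jt] at h
      have h1 := bT s
      have h2 := bT s'
      have := rp_inj K x (by omega) (by omega) h
      exact hk_ext rfl (by simp only; omega)
  · intro h
    constructor
    · rintro ⟨⟨b, s⟩, rfl⟩
      cases b
      · left; exact jf s
      · right
        exact ⟨(s : ℕ), bT s, jt s⟩
    · rintro (rfl | ⟨k, hk, rfl⟩)
      · exact ⟨⟨false, ⟨0, by rw [lf]; exact Nat.one_pos⟩⟩, jf _⟩
      · exact ⟨⟨true, ⟨k, by rw [lt]; exact hk⟩⟩, jt _⟩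
  · exact jf _
  · exact jt _
  · refine hk_ext rfl ?_
    rw [rot_snd]
    simp only [lf, Nat.mod_one]
  · have h1 : rot (leg m) ⟨true, ⟨2 * m, by rw [lt]; omega⟩⟩ =
        ⟨true, ⟨0, by rw [lt]; omega⟩⟩ := by
      refine hk_ext rfl ?_
      rw [rot_snd]
      simp only [lt, Nat.mod_self]
    rw [h1, jt]
    rfl
  · rintro ⟨b, s⟩ h1 h2
    cases b
    · exfalso
      apply h1
      refine hk_ext rfl ?_
      have := bF s
      simp only
      omega
    · have hs := bT s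
      have hs2 : (s : ℕ) ≠ 2 * m := by
        intro h3
        apply h2
        exact hk_ext rfl h3
      have hs3 : (s : ℕ) + 1 < 2 * m + 1 := by omega
      have h3 : rot (leg m) ⟨true, s⟩ = ⟨true, ⟨(s : ℕ) + 1, lt_of_lt_of_eq hs3 lt.symm⟩⟩ := by
        refine hk_ext rfl ?_
        rw [rot_snd' (leg m) ⟨true, s⟩ (2 * m + 1) lt]
        exact Nat.mod_eq_of_lt hs3
      rw [h3, jt, jt, pow_succ' (rot K) ((s : ℕ) + 1), Equiv.Perm.mul_apply]

theorem emb1_rot {ρ : Type} (K : ρ → ℕ) (x : HK K) (m : ℕ) (hm : 2 * m + 2 < K x.1) :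
    ∃ z₁, Emb1 (rot K) x ((rot K ^ (2 * m + 1)) x) (AK K x m) (rot (red K x.1 m)) (j₁K K x m) z₁ := by
  have re : red K x.1 m x.1 = K x.1 - (2 * m + 2) := by simp [red]
  have rn : ∀ i, i ≠ x.1 → red K x.1 m i = K i := by
    intro i hi
    simp [red, hi]
  have je : ∀ p : HK (red K x.1 m), p.1 = x.1 →
      j₁K K x m p = (rot K ^ (2 * m + 2 + (p.2 : ℕ))) x := by
    intro p hp
    simp [j₁K, hp]
  have jn1 : ∀ p : HK (red K x.1 m), p.1 ≠ x.1 → (j₁K K x m p).1 = p.1 := by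
    intro p hp
    simp [j₁K, hp]
  have jn2 : ∀ p : HK (red K x.1 m), p.1 ≠ x.1 → ((j₁K K x m p).2 : ℕ) = (p.2 : ℕ) := by
    intro p hp
    have : j₁K K x m p = ⟨p.1, ⟨(p.2 : ℕ), by
        have h1 := p.2.isLt
        have h2 := rn p.1 hp
        omega⟩⟩ := by
      rw [j₁K, dif_neg hp]
    rw [this]
  have pe : ∀ p : HK (red K x.1 m), p.1 = x.1 → (p.2 : ℕ) < K x.1 - (2 * m + 2) := by
    intro p hp
    exact lt_of_lt_of_eq p.2.isLt (by rw [hp, re])
  have jfst : ∀ p : HK (red K x.1 m), (j₁K K x m p).1 = p.1 := by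
    intro p
    by_cases hp : p.1 = x.1
    · rw [je p hp, rp_fst, hp]
    · exact jn1 p hp
  refine ⟨⟨x.1, ⟨K x.1 - (2 * m + 3), by rw [re]; omega⟩⟩, ?_, ?_, ?_, ?_, ?_⟩
  · intro p q h
    have h1 : p.1 = q.1 := by rw [← jfst p, ← jfst q, h]
    refine hk_ext h1 ?_
    by_cases hp : p.1 = x.1
    · have hq : q.1 = x.1 := h1 ▸ hp
      rw [je p hp, je q hq] at h
      have := pe p hp
      have := pe q hq
      have := rp_inj K x (by omega) (by omega) h
      omega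
    · have hq : q.1 ≠ x.1 := h1 ▸ hp
      rw [← jn2 p hp, ← jn2 q hq, h]
  · intro h
    constructor
    · rintro ⟨p, rfl⟩ hx
      have hfst : (j₁K K x m p).1 = x.1 := by
        rcases hx with hx | ⟨k, -, hx⟩
        · rw [hx]
        · rw [hx, rp_fst]
      have hp : p.1 = x.1 := by rw [← jfst p, hfst]
      have hpe := pe p hp
      rw [je p hp] at hx
      rcases hx with hx | ⟨k, hk, hx⟩
      · have h1 : (rot K ^ (2 * m + 2 + (p.2 : ℕ))) x = (rot K ^ 0) x := by rw [hx]; rfl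
        have := rp_inj K x (by omega) (by omega) h1
        omega
      · have := rp_inj K x (by omega) (by omega) hx
        omega
    · intro hx
      by_cases hh : h.1 = x.1
      · obtain ⟨n, hn, rfl⟩ := rp_surj K x h hh.symm
        have hn2 : 2 * m + 2 ≤ n := by
          by_contra hcon
          apply hx
          rcases Nat.eq_zero_or_pos n with h0 | h0
          · left; subst h0; rfl
          · right
            refine ⟨n - 1, by omega, ?_⟩
            rw [Nat.sub_add_cancel h0]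
        refine ⟨⟨x.1, ⟨n - (2 * m + 2), by rw [re]; omega⟩⟩, ?_⟩
        rw [je _ rfl]
        simp only
        rw [Nat.add_sub_cancel' hn2]
      · refine ⟨⟨h.1, ⟨(h.2 : ℕ), by rw [rn h.1 hh]; exact h.2.isLt⟩⟩, ?_⟩
        exact hk_ext (jn1 _ hh) (jn2 _ hh)
  · rw [je _ rfl, ← Equiv.Perm.mul_apply, ← pow_succ']
    simp only
    rw [show 2 * m + 2 + (K x.1 - (2 * m + 3)) + 1 = K x.1 by omega, rp_period]
  · have h1 : rot (red K x.1 m) ⟨x.1, ⟨K x.1 - (2 * m + 3), by rw [re]; omega⟩⟩ =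
        ⟨x.1, ⟨0, by rw [re]; omega⟩⟩ := by
      refine hk_ext rfl ?_
      rw [rot_snd]
      simp only [re]
      rw [show K x.1 - (2 * m + 3) + 1 = K x.1 - (2 * m + 2) by omega, Nat.mod_self]
    rw [h1, je _ rfl, ← Equiv.Perm.mul_apply, ← pow_succ']
    rfl
  · intro p hp
    by_cases hpx : p.1 = x.1
    · have hpe := pe p hpx
      have hne : (p.2 : ℕ) ≠ K x.1 - (2 * m + 3) := by
        intro h3
        exact hp (hk_ext hpx h3)
      have h4 : (rot (red K x.1 m) p).1 = x.1 := hpx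
      have h5 : ((rot (red K x.1 m) p).2 : ℕ) = (p.2 : ℕ) + 1 := by
        rw [rot_snd' _ p (K x.1 - (2 * m + 2)) (by rw [hpx, re]), Nat.mod_eq_of_lt (by omega)]
      rw [je _ h4, je _ hpx, h5, ← Equiv.Perm.mul_apply, ← pow_succ']
      rfl
    · have h4 : (rot (red K x.1 m) p).1 ≠ x.1 := hpx
      refine hk_ext ?_ ?_
      · rw [jn1 _ h4, rot_fst, rot_fst, jn1 _ hpx]
      · rw [jn2 _ h4, rot_snd' _ p (K p.1) (rn _ hpx), rot_snd' _ (j₁K K x m p) (K p.1)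
          (by rw [jn1 _ hpx]), jn2 _ hpx]

end Pool.Agent.Helper91.MVC
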