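import Pool.Agent.Helper91.MVC.Basic

/-!
MV-C1-4. Good configurations have no leaf and are not `AA`.

`u : Edge → ℕ` positive with `R.per u f = R.per u (R.β f)`. Let `μ : H → ℤ` be constant on faces, odd under `β` and odd under `τ` off `{x, τ x}`.
(a) `∑_h μ h * u (R.edge h) = 0`: group by faces: `= ∑_f μ_f * R.per u f` with `μ_f = μ f.rep`, and `μ_{β f} = - μ_f`, `per u (β f) = per u f`; reindex by
`β`: the sum equals its opposite. (b) The same sum, reindexed by `τ`: `2 ∑_h μ h u (edge h) = ∑_h (μ h + μ (τ h)) u (edge h)` (`edge_tau`), only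
`h = x` and `h = τ x` contribute (`x ≠ τ x`): `= 2 (μ x + μ (τ x)) u (edge x)`. So `(μ x + μ (τ x)) u (edge x) = 0`; for a leaf
`μ x + μ (τ x) = 1`, for `AA` it is `2`; contradiction with `u > 0`.
-/

namespace Pool.Agent.Helper91.MVC

open Finset Pool.Agent.Helper60.MV

variable {H : Type} {σ : Equiv.Perm H}

theorem sum_edge_pair [Fintype H] (R : Conf σ) (x : H) (μ : H → ℤ)
    (htau : ∀ h, h ≠ x → h ≠ R.τ x → μ (R.τ h) = - μ h) (w : R.Edge → ℝ) :
    ∑ h, (μ h : ℝ) * w (R.edge h) = ((μ x : ℝ) + (μ (R.τ x) : ℝ)) * w (R.edge x) := by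
  classical
  have h1 : ∑ h, (μ (R.τ h) : ℝ) * w (R.edge h) = ∑ h, (μ h : ℝ) * w (R.edge h) := by
    rw [← Equiv.sum_comp R.τ (fun h => (μ h : ℝ) * w (R.edge h))]
    refine Finset.sum_congr rfl fun h _ => ?_
    rw [edge_tau]
  have h2 : ∑ h, ((μ h : ℝ) + (μ (R.τ h) : ℝ)) * w (R.edge h) =
      ∑ h ∈ ({x, R.τ x} : Finset H), ((μ h : ℝ) + (μ (R.τ h) : ℝ)) * w (R.edge h) := by
    symm
    apply Finset.sum_subset (Finset.subset_univ _)
    intro h _ hh
    simp only [Finset.mem_insert, Finset.mem_singleton, not_or] at hh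
    rw [htau h hh.1 hh.2]
    push_cast
    ring
  have hne : x ≠ R.τ x := fun h => R.hτ.fpf x h.symm
  rw [Finset.sum_pair hne, R.hτ.invol, edge_tau] at h2
  have h3 : ∑ h, ((μ h : ℝ) + (μ (R.τ h) : ℝ)) * w (R.edge h) =
      ∑ h, (μ h : ℝ) * w (R.edge h) + ∑ h, (μ (R.τ h) : ℝ) * w (R.edge h) := by
    rw [← Finset.sum_add_distrib]
    exact Finset.sum_congr rfl fun h _ => by ring
  rw [h1] at h3
  linarith

theorem sum_face_zero [Fintype H] (R : Conf σ) (μ : H → ℤ)
    (hface : ∀ h h', R.face h = R.face h' → μ h = μ h')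
    (hbeta : ∀ h h', R.β (R.face h) = R.face h' → μ h' = - μ h) (w : R.Edge → ℝ)
    (hw : ∀ f, R.per w f = R.per w (R.β f)) : ∑ h, (μ h : ℝ) * w (R.edge h) = 0 := by
  classical
  have hrep : ∀ f : R.Face, R.face f.rep = f := fun f => cyc_rep f
  have h1 : ∑ h, (μ h : ℝ) * w (R.edge h) = ∑ f : R.Face, (μ f.rep : ℝ) * R.per w f := by
    have h2 : ∀ f : R.Face, (μ f.rep : ℝ) * R.per w f =
        ∑ h : H, if R.face h = f then (μ h : ℝ) * w (R.edge h) else 0 := by
      intro f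
      unfold Conf.per
      rw [Finset.mul_sum]
      refine Finset.sum_congr rfl fun h _ => ?_
      by_cases hf : R.face h = f
      · rw [if_pos hf, if_pos hf, hface h f.rep (by rw [hf, hrep])]
      · rw [if_neg hf, if_neg hf, mul_zero]
    rw [Finset.sum_congr rfl fun f _ => h2 f, Finset.sum_comm]
    refine Finset.sum_congr rfl fun h _ => ?_
    rw [Finset.sum_ite_eq Finset.univ (R.face h) (fun _ => (μ h : ℝ) * w (R.edge h)),
      if_pos (Finset.mem_univ _)]
  have h4 : ∑ f : R.Face, (μ f.rep : ℝ) * R.per w f =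
      - ∑ f : R.Face, (μ f.rep : ℝ) * R.per w f := by
    conv_lhs => rw [← Equiv.sum_comp R.β (fun f : R.Face => (μ f.rep : ℝ) * R.per w f)]
    rw [← Finset.sum_neg_distrib]
    refine Finset.sum_congr rfl fun f _ => ?_
    rw [hbeta f.rep (R.β f).rep (by rw [hrep, hrep]), ← hw f]
    push_cast
    ring
  rw [h1]
  linarith

theorem good_contra [Fintype H] (R : Conf σ) (hg : R.Good) (x : H) (μ : H → ℤ)
    (hface : ∀ h h', R.face h = R.face h' → μ h = μ h')
    (hbeta : ∀ h h', R.β (R.face h) = R.face h' → μ h' = - μ h)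
    (htau : ∀ h, h ≠ x → h ≠ R.τ x → μ (R.τ h) = - μ h) : μ x + μ (R.τ x) = 0 := by
  obtain ⟨u, hu, hper⟩ := hg
  have hper' : ∀ f, R.per (fun e => (u e : ℝ)) f = ((R.per u f : ℕ) : ℝ) := by
    intro f
    unfold Conf.per
    push_cast
    rfl
  have h1 := sum_edge_pair R x μ htau (fun e => (u e : ℝ))
  rw [sum_face_zero R μ hface hbeta (fun e => (u e : ℝ))
    (fun f => by rw [hper', hper', hper f])] at h1
  have h2 : (0:ℝ) < (u (R.edge x) : ℝ) := by exact_mod_cast hu _
  rcases mul_eq_zero.1 h1.symm with h3 | h3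
  · exact_mod_cast h3
  · exact absurd h3 h2.ne'

theorem good_no_leaf [Fintype H] (R : Conf σ) (hg : R.Good) (x : H) (μ : H → ℤ) :
    ¬ R.IsLeaf x μ := by
  intro h
  have h1 := good_contra R hg x μ h.face h.beta h.tau
  rw [h.zero, h.one] at h1
  omega

theorem good_not_AA [Fintype H] (R : Conf σ) (hg : R.Good) : ¬ R.AA := by
  rintro ⟨x, μ, h⟩
  have h1 := good_contra R hg x μ h.face h.beta h.tau
  rw [h.one, h.one'] at h1
  omega

end Pool.Agent.Helper91.MVC
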