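import Pool.Agent.Helper91.MVC.Defs2
import Pool.Agent.Helper91.MVC.PullEx

/-!
MV-C1-13. A configuration is determined by the two pieces.

`R`, `R'` on `(H, σ)` with leaves `μ`, `μ'` of the same support `A` at the same leg `x` and the same `y = R.τ x = R'.τ x`, both cut along the same embeddings
into the same `T` and `R₁`. The ranges of `jT`, `j₁` cover `H` and `R.τ (jT p) = jT (T.τ p) = R'.τ (jT p)`, the same for `j₁`: so `R.τ = R'.τ`. For `conf_ext` we must show that
`R.β (R.face a) = R.face b ↔ R'.β (R'.face a) = R'.face b`. Replacing `x` by `σ y` (`face_phi`: `R.face (σ (R.τ x)) = R.face x`, the same in `R'`; `σ y ∉ A ∪ {x}`, it is `j₁ (σ₁ z₁)`)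
we may assume `a, b ≠ x`. If `a ∈ A`, `b ∉ A` or conversely both sides are false (`IsLeaf.beta`: `μ b = - μ a`). Both in `A`: `a = jT p`, `b = jT q`, `p, q ≠ xT`, both sides are
equivalent to `T.β (T.face p) = T.face q` (`Pull.beta`, `gT_of_ne`). Both outside: `a = j₁ p`, `b = j₁ q`, `Pull.beta` for `R₁`.
-/

namespace Pool.Agent.Helper91.MVC

open Finset Pool.Agent.Helper60.MV

variable {H HT H₁ : Type} {σ : Equiv.Perm H}

theorem cut_inj {R R' : Conf σ} {x : H} {μ μ' : H → ℤ} {A : H → Prop}
    {σT : Equiv.Perm HT} {jT : HT → H} {xT yT : HT} {σ₁ : Equiv.Perm H₁} {j₁ : H₁ → H} {z₁ : H₁}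
    (hC : Cut R x μ A σT jT xT yT σ₁ j₁ z₁) (hC' : Cut R' x μ' A σT jT xT yT σ₁ j₁ z₁)
    {T : Conf σT} {R₁ : Conf σ₁}
    (hT : Pull T R jT (gT R x jT xT)) (h₁ : Pull R₁ R j₁ (fun p => R.face (j₁ p)))
    (hT' : Pull T R' jT (gT R' x jT xT)) (h₁' : Pull R₁ R' j₁ (fun p => R'.face (j₁ p))) :
    R = R' := by
  have hτ : ∀ h, R.τ h = R'.τ h := by
    intro h
    by_cases hh : h = x ∨ A h
    · obtain ⟨p, rfl⟩ := (hC.eT.range h).2 hh
      rw [← hT.tau p, ← hT'.tau p]
    · obtain ⟨p, rfl⟩ := (hC.e₁.range h).2 hh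
      rw [← h₁.tau p, ← h₁'.tau p]
  apply conf_ext hτ
  -- both sides away from `x`
  have main : ∀ a b : H, a ≠ x → b ≠ x →
      (R.β (R.face a) = R.face b ↔ R'.β (R'.face a) = R'.face b) := by
    intro a b ha hb
    by_cases hAa : A a
    · by_cases hAb : A b
      · obtain ⟨p, rfl⟩ := (hC.eT.range a).2 (Or.inr hAa)
        obtain ⟨q, rfl⟩ := (hC.eT.range b).2 (Or.inr hAb)
        have hp : p ≠ xT := by
          rintro rfl
          exact ha hC.eT.hx
        have hq : q ≠ xT := by
          rintro rfl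
          exact hb hC.eT.hx
        have e1 := hT.beta p q
        have e2 := hT'.beta p q
        rw [gT_of_ne R x jT xT p hp, gT_of_ne R x jT xT q hq] at e1
        rw [gT_of_ne R' x jT xT p hp, gT_of_ne R' x jT xT q hq] at e2
        exact e1.symm.trans e2
      · constructor
        · intro h
          exfalso
          have h3 := hC.leaf.beta a b h
          apply hAb
          rw [hC.hA b, h3]
          exact neg_ne_zero.2 ((hC.hA a).1 hAa)
        · intro h
          exfalso
          have h3 := hC'.leaf.beta a b h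
          apply hAb
          rw [hC'.hA b, h3]
          exact neg_ne_zero.2 ((hC'.hA a).1 hAa)
    · by_cases hAb : A b
      · constructor
        · intro h
          exfalso
          have h3 := hC.leaf.beta a b h
          apply hAa
          rw [hC.hA a]
          intro h0
          rw [h0, neg_zero] at h3
          exact (hC.hA b).1 hAb h3
        · intro h
          exfalso
          have h3 := hC'.leaf.beta a b h
          apply hAa
          rw [hC'.hA a]
          intro h0
          rw [h0, neg_zero] at h3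
          exact (hC'.hA b).1 hAb h3
      · have na : ¬ (a = x ∨ A a) := fun h => h.elim ha hAa
        have nb : ¬ (b = x ∨ A b) := fun h => h.elim hb hAb
        obtain ⟨p, rfl⟩ := (hC.e₁.range a).2 na
        obtain ⟨q, rfl⟩ := (hC.e₁.range b).2 nb
        exact (h₁.beta p q).symm.trans (h₁'.beta p q)
  -- `σ (τ x)` is in the face of `x`
  have hw : σ (R.τ x) ≠ x := by
    have h3 := (hC.e₁.range (σ (R.τ x))).1 ⟨σ₁ z₁, hC.e₁.last⟩
    exact fun h => h3 (Or.inl h)
  have rep : ∀ a : H, ∃ a' : H, a' ≠ x ∧ R.face a' = R.face a ∧ R'.face a' = R'.face a := by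
    intro a
    by_cases ha : a = x
    · subst ha
      refine ⟨σ (R.τ a), hw, face_phi R a, ?_⟩
      rw [hτ a]
      exact face_phi R' a
    · exact ⟨a, ha, rfl, rfl⟩
  intro a b
  obtain ⟨a', ha', h1, h2⟩ := rep a
  obtain ⟨b', hb', h3, h4⟩ := rep b
  rw [← h1, ← h2, ← h3, ← h4]
  exact main a' b' ha' hb'

end Pool.Agent.Helper91.MVC
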