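import Pool.Agent.Helper91.MVC.SplitF

/-!
MV-C1-12. Leaves of the rest lift to leaves of `R`.

`A = {μ ≠ 0}`, `y = R.τ x`, `μ y = 1`. Let `(x', μ')` be a leaf of `R₁`, `m₀ = μ' (σ₁ z₁)`; `R.face (j₁ (σ₁ z₁)) = R.face (σ y) = R.face x` (`Emb1.last`, `face_phi`). Define `μ̃ : H → ℤ`:
`μ̃ (j₁ p) = μ' p`, `μ̃ x = m₀`, `μ̃ h = - m₀ * μ h` for `h ∈ A`. Then `μ̃` is a leaf of `R` at `j₁ x'`:
 `face`: two half-edges in the same face are both in `A` (then `μ` is constant) or both outside; outside `A` replace `x` by `j₁ (σ₁ z₁)`, `μ' a = μ' b` if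
 `R.face (j₁ a) = R.face (j₁ b)` (`Pull.face`). `beta`: `R.β (R.face h) = R.face h'`: `μ h' = - μ h`, so `h ∈ A ↔ h' ∈ A`; in `A`: clear; outside: replace `x` by `j₁ (σ₁ z₁)` and use
 `Pull.beta`. `tau`, for `h ≠ j₁ x', R.τ (j₁ x') = j₁ (R₁.τ x')`: `h = j₁ p`: `R.τ h = j₁ (R₁.τ p)`. `h = x`: `R.τ x = y`, `μ̃ y = - m₀`. `h = y`: `R.τ y = x`, `μ̃ x = m₀`, `μ̃ y = - m₀`. `h ∈ A`,
 `h ≠ y`: `R.τ h ∈ A`, `μ (R.τ h) = - μ h`. `zero`, `one`: from `μ'`.
If `m₀ ≠ 0` the support of `μ̃` contains `A ∪ {x}`, so its cardinality is larger than that of `A`: contradiction to `hmax`. So `m₀ = 0`. If `f` is a leaf face of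
`R₁`, `f = R₁.face h`, `μ' h ≠ 0`: `iF (inr f) = R.face (j₁ h)`, `μ̃ (j₁ h) ≠ 0`; and `f = R₁.face (σ₁ z₁)` would give `μ' h = m₀ = 0` (`IsLeaf.face`).
-/

namespace Pool.Agent.Helper91.MVC

open Finset Pool.Agent.Helper60.MV

variable {H HT H₁ : Type} {σ : Equiv.Perm H}

theorem cut_leaf₁ [Finite H] {R : Conf σ} {x : H} {μ : H → ℤ} {A : H → Prop}
    {σT : Equiv.Perm HT} {jT : HT → H} {xT yT : HT} {σ₁ : Equiv.Perm H₁} {j₁ : H₁ → H} {z₁ : H₁}
    {T : Conf σT} {R₁ : Conf σ₁} {iF : T.Face ⊕ R₁.Face ≃ R.Face} {iE : T.Edge ⊕ R₁.Edge ≃ R.Edge}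
    (hC : Cut R x μ A σT jT xT yT σ₁ j₁ z₁) (hM : Maps R T R₁ x jT xT j₁ iF iE)
    (h₁ : Pull R₁ R j₁ (fun p => R.face (j₁ p)))
    (hmax : ∀ (x' : H) (μ' : H → ℤ), R.IsLeaf x' μ' →
      Nat.card {h // μ' h ≠ 0} ≤ Nat.card {h // μ h ≠ 0})
    (f : R₁.Face) (hf : R₁.LeafFace f) :
    R.LeafFace (iF (Sum.inr f)) ∧ f ≠ R₁.face (σ₁ z₁) := by
  classical
  obtain ⟨x', μ', hl', h0, hf0, hne⟩ := hf
  have hl := hC.leaf
  have hE := hC.e₁
  have hAx : ¬ A x := fun h => (hC.hA x).1 h hl.zero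
  have hAy : A (R.τ x) := (hC.hA _).2 (by rw [hl.one]; exact one_ne_zero)
  obtain ⟨m₀, hm₀⟩ : ∃ m : ℤ, m = μ' (σ₁ z₁) := ⟨_, rfl⟩
  obtain ⟨ν, hν⟩ : ∃ ν : H → ℤ, ν = fun h => if hp : ∃ p, j₁ p = h then μ' hp.choose
      else if h = x then m₀ else - m₀ * μ h := ⟨_, rfl⟩
  have F1 : ∀ p, ν (j₁ p) = μ' p := by
    intro p
    have hx : ∃ q, j₁ q = j₁ p := ⟨p, rfl⟩
    have h1 : hx.choose = p := hE.inj hx.choose_spec
    rw [hν]
    change (if hp : ∃ q, j₁ q = j₁ p then μ' hp.choose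
      else if j₁ p = x then m₀ else - m₀ * μ (j₁ p)) = μ' p
    rw [dif_pos hx, h1]
  have hxn : ¬ ∃ p, j₁ p = x := by
    rw [hE.range]
    intro h
    exact h (Or.inl rfl)
  have F2 : ν x = m₀ := by
    rw [hν]
    change (if hp : ∃ q, j₁ q = x then μ' hp.choose
      else if x = x then m₀ else - m₀ * μ x) = m₀
    rw [dif_neg hxn, if_pos rfl]
  have F3 : ∀ h, A h → ν h = - m₀ * μ h := by
    intro h hh
    have h1 : ¬ ∃ p, j₁ p = h := by
      rw [hE.range]
      intro h2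
      exact h2 (Or.inr hh)
    have h2 : h ≠ x := by
      rintro rfl
      exact hAx hh
    rw [hν]
    change (if hp : ∃ q, j₁ q = h then μ' hp.choose
      else if h = x then m₀ else - m₀ * μ h) = _
    rw [dif_neg h1, if_neg h2]
  have hfy : R.face (j₁ (σ₁ z₁)) = R.face x := by
    rw [hE.last]
    exact face_phi R x
  have hout : ∀ h, ¬ A h → ∃ p, R.face (j₁ p) = R.face h ∧ ν h = μ' p := by
    intro h hh
    by_cases hx : h = x
    · refine ⟨σ₁ z₁, ?_, ?_⟩
      · rw [hx, hfy]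
      · rw [hx, F2, hm₀]
    · have h1 : ∃ p, j₁ p = h := by
        rw [hE.range]
        rintro (h2 | h2)
        · exact hx h2
        · exact hh h2
      obtain ⟨p, rfl⟩ := h1
      exact ⟨p, rfl, F1 p⟩
  have hAiff : ∀ h h', (μ h = μ h' ∨ μ h' = - μ h) → (A h ↔ A h') := by
    intro h h' hh
    rw [hC.hA, hC.hA]
    rcases hh with hh | hh
    · rw [hh]
    · rw [hh, neg_ne_zero]
  have hleaf : R.IsLeaf (j₁ x') ν := by
    refine ⟨?_, ?_, ?_, ?_, ?_⟩
    · intro h h' hh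
      have h1 : μ h = μ h' := hl.face h h' hh
      by_cases ha : A h
      · have ha' : A h' := (hAiff h h' (Or.inl h1)).1 ha
        rw [F3 h ha, F3 h' ha', h1]
      · have ha' : ¬ A h' := fun h2 => ha ((hAiff h h' (Or.inl h1)).2 h2)
        obtain ⟨p, hp1, hp2⟩ := hout h ha
        obtain ⟨q, hq1, hq2⟩ := hout h' ha'
        rw [hp2, hq2]
        exact hl'.face p q ((h₁.face p q).2 (by
          change R.face (j₁ p) = R.face (j₁ q)
          rw [hp1, hq1, hh]))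
    · intro h h' hh
      have h1 : μ h' = - μ h := hl.beta h h' hh
      by_cases ha : A h
      · have ha' : A h' := (hAiff h h' (Or.inr h1)).1 ha
        rw [F3 h ha, F3 h' ha', h1]
        ring
      · have ha' : ¬ A h' := fun h2 => ha ((hAiff h h' (Or.inr h1)).2 h2)
        obtain ⟨p, hp1, hp2⟩ := hout h ha
        obtain ⟨q, hq1, hq2⟩ := hout h' ha'
        rw [hp2, hq2]
        exact hl'.beta p q ((h₁.beta p q).2 (by
          change R.β (R.face (j₁ p)) = R.face (j₁ q)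
          rw [hp1, hq1, hh]))
    · intro h hh1 hh2
      by_cases hx : h = x
      · rw [hx, F2, F3 _ hAy, hl.one, mul_one]
      · by_cases ha : A h
        · by_cases hy : h = R.τ x
          · rw [F3 h ha, hy, R.hτ.invol, F2, hl.one]
            ring
          · have h3 : μ (R.τ h) = - μ h := hl.tau h hx hy
            have ha' : A (R.τ h) := (hAiff h (R.τ h) (Or.inr h3)).1 ha
            rw [F3 h ha, F3 _ ha', h3]
            ring
        · have h1 : ∃ p, j₁ p = h := by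
            rw [hE.range]
            rintro (h2 | h2)
            · exact hx h2
            · exact ha h2
          obtain ⟨p, rfl⟩ := h1
          rw [← h₁.tau, F1, F1]
          refine hl'.tau p ?_ ?_
          · rintro rfl
            exact hh1 rfl
          · rintro rfl
            exact hh2 (h₁.tau x')
    · rw [F1]
      exact hl'.zero
    · rw [← h₁.tau, F1]
      exact hl'.one
  have hm0 : m₀ = 0 := by
    by_contra hm
    have hss : {h : H | μ h ≠ 0} ⊂ {h : H | ν h ≠ 0} := by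
      refine ⟨?_, ?_⟩
      · intro h hh
        have ha : A h := (hC.hA h).2 hh
        change ν h ≠ 0
        rw [F3 h ha]
        exact mul_ne_zero (neg_ne_zero.2 hm) hh
      · intro hsub
        have h1 : x ∈ {h : H | ν h ≠ 0} := by
          change ν x ≠ 0
          rw [F2]
          exact hm
        exact hsub h1 hl.zero
    have h2 := Set.ncard_lt_ncard hss (Set.toFinite _)
    rw [← Nat.card_coe_set_eq, ← Nat.card_coe_set_eq] at h2
    exact absurd (hmax (j₁ x') ν hleaf) (not_le.2 h2)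
  refine ⟨⟨j₁ x', ν, hleaf, j₁ h0, ?_, ?_⟩, ?_⟩
  · rw [← hf0, hM.f₁]
  · rw [F1]
    exact hne
  · intro hff
    apply hne
    rw [hl'.face h0 (σ₁ z₁) (hf0.trans hff), ← hm₀, hm0]

end Pool.Agent.Helper91.MVC
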