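import Pool.Agent.Helper91.MVC.Struct
import Pool.Agent.Helper91.MVC.EmbK

/-!
MV-C1-14. Maximal leaves for `rot K`.

`leaf_card`: by `leaf_struct` (`leafOn_int`, `rot_odd`, `rot_period`) the support of a leaf `μ` at `x` is `{σ^(k+1) x : k < 2 m + 1}` with `1 ≤ m`, `2 m + 2 < K x.1`, these elements are
distinct (`rot_pow`), so its cardinality is `2 m + 1`. The values are `(-1)^k`.
`exists_maxLeaf`: the cardinalities of supports of leaves are bounded by `card (HK K)`; take a leaf with the largest one.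
`maxLeaf_data`: if `MaxLeaf R x m` then its leaf has support `AK K x m`, `R.τ x = σ^(2m+1) x` and values `±1`, and it is maximal.
-/

namespace Pool.Agent.Helper91.MVC

open Finset Pool.Agent.Helper60.MV

theorem leaf_card {ρ : Type} [Fintype ρ] (K : ρ → ℕ) (hK : ∀ i, Odd (K i)) (R : Conf (rot K))
    {x : HK K} {μ : HK K → ℤ} (hl : R.IsLeaf x μ) :
    ∃ m, 1 ≤ m ∧ 2 * m + 2 < K x.1 ∧ Nat.card {h // μ h ≠ 0} = 2 * m + 1 ∧
      (∀ h, AK K x m h ↔ μ h ≠ 0) ∧ R.τ x = (rot K ^ (2 * m + 1)) x ∧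
      ∀ h, μ h ≠ 0 → μ h = 1 ∨ μ h = -1 := by
  obtain ⟨m, hm1, hm2, htau, hsupp, hval⟩ := leaf_struct R (rot_odd K hK) (leafOn_int hl)
  have hper := rot_period K x
  rw [hper] at hm2
  refine ⟨m, hm1, hm2, ?_, fun h => (hsupp h).symm, htau.symm, ?_⟩
  · have hinj : ∀ a b : ℕ, a < K x.1 → b < K x.1 → (rot K ^ a) x = (rot K ^ b) x → a = b := by
      intro a b ha hb hab
      refine Function.iterate_injOn_Iio_minimalPeriod (f := rot K) (x := x) ?_ ?_ ?_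
      · rw [hper]; exact ha
      · rw [hper]; exact hb
      · simpa only [Equiv.Perm.iterate_eq_pow] using hab
    have hbij : Function.Bijective
        (fun k : Fin (2 * m + 1) => (⟨(rot K ^ ((k : ℕ) + 1)) x,
          (hsupp _).2 ⟨k, k.2, rfl⟩⟩ : {h // μ h ≠ 0})) := by
      constructor
      · intro a b hab
        have h1 := congrArg Subtype.val hab
        have h2 := hinj _ _ (by have := a.2; omega) (by have := b.2; omega) h1
        exact Fin.ext (by omega)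
      · rintro ⟨h, hh⟩
        obtain ⟨k, hk, rfl⟩ := (hsupp h).1 hh
        exact ⟨⟨k, hk⟩, rfl⟩
    rw [← Nat.card_congr (Equiv.ofBijective _ hbij), Nat.card_fin]
  · intro h hh
    obtain ⟨k, hk, rfl⟩ := (hsupp h).1 hh
    rw [hval k hk]
    exact neg_one_pow_eq_or ℤ k

theorem exists_maxLeaf {ρ : Type} [Fintype ρ] (K : ρ → ℕ) (hK : ∀ i, Odd (K i))
    (R : Conf (rot K)) (h : ∃ x μ, R.IsLeaf x μ) :
    ∃ (x : HK K) (m : ℕ), 1 ≤ m ∧ 2 * m + 2 < K x.1 ∧ MaxLeaf R x m := by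
  classical
  let S : Set ℕ := {n | ∃ (x : HK K) (μ : HK K → ℤ), R.IsLeaf x μ ∧ Nat.card {h // μ h ≠ 0} = n}
  have hne : S.Nonempty := by
    obtain ⟨x, μ, hl⟩ := h
    exact ⟨_, x, μ, hl, rfl⟩
  have hbd : BddAbove S := by
    refine ⟨Nat.card (HK K), ?_⟩
    rintro n ⟨x, μ, _, rfl⟩
    exact Nat.card_le_card_of_injective Subtype.val Subtype.val_injective
  obtain ⟨x, μ, hl, hc⟩ := Nat.sSup_mem hne hbd
  obtain ⟨m, hm1, hm2, hcard, _⟩ := leaf_card K hK R hl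
  refine ⟨x, m, hm1, hm2, μ, hl, hcard, fun x' μ' hl' => ?_⟩
  rw [← hcard, hc]
  exact le_csSup hbd ⟨x', μ', hl', rfl⟩

theorem maxLeaf_data {ρ : Type} [Fintype ρ] (K : ρ → ℕ) (hK : ∀ i, Odd (K i)) (R : Conf (rot K))
    {x : HK K} {m : ℕ} (h : MaxLeaf R x m) :
    ∃ μ : HK K → ℤ, R.IsLeaf x μ ∧ (∀ h, AK K x m h ↔ μ h ≠ 0) ∧
      R.τ x = (rot K ^ (2 * m + 1)) x ∧ (∀ h, μ h ≠ 0 → μ h = 1 ∨ μ h = -1) ∧
      ∀ (x' : HK K) (μ' : HK K → ℤ), R.IsLeaf x' μ' →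
        Nat.card {h // μ' h ≠ 0} ≤ Nat.card {h // μ h ≠ 0} := by
  obtain ⟨μ, hl, hc, hmax⟩ := h
  obtain ⟨m', _, _, hcard, hA, htau, hval⟩ := leaf_card K hK R hl
  have hmm : m' = m := by omega
  subst hmm
  exact ⟨μ, hl, hA, htau, hval, fun x' μ' hl' => by rw [hc]; exact hmax x' μ' hl'⟩

end Pool.Agent.Helper91.MVC
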