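import Pool.Agent.Helper91.MVC.EmbK

/-!
MV-C1-16. Parity.

`sign_cyc`: `sign g = (-1)^(card H + card (Cyc g))` (e.g. `Equiv.Perm.sign_of_cycleType : sign f = (-1)^(f.cycleType.sum + card f.cycleType)`; the number of cycles, fixed points
included, is `card f.cycleType + (card H - f.cycleType.sum)`. Or by induction on `g` with `Equiv.Perm.swap_induction_on`: multiplication by a swap changes the number of cycles by one.)
`sign_rot`: `rot K` is the sigma-congruence of `finRotate (K i)`, `K i` odd; each has sign `(-1)^(K i - 1) = 1`. Or: `rot K ^ N = 1` with `N = ∏ K i` odd, so `sign ^ N = 1`, `sign = 1`.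
`conf_isEmpty`: let `R` be a configuration, `card H = ∑ K = 2 E`. `τ` has `E` cycles (all of length 2), so `sign τ = (-1)^(2E + E) = (-1)^E`. The number of faces is even, because `β` is a fixed
point free involution of the faces. So `sign (σ τ) = (-1)^(2E + F) = 1`. But `sign (σ τ) = sign σ * sign τ = (-1)^E`. So `E` is even.
-/

namespace Pool.Agent.Helper91.MVC

open Finset Pool.Agent.Helper60.MV

private theorem card_cyc_aux {H : Type} [Fintype H] [DecidableEq H] (g : Equiv.Perm H) :
    Fintype.card (Cyc g) = Multiset.card g.cycleType + (Fintype.card H - g.support.card) := by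
  classical
  let f : H → {c // c ∈ g.cycleFactorsFinset} ⊕ {h : H // h ∉ g.support} := fun h =>
    if hh : h ∈ g.support then
      Sum.inl ⟨g.cycleOf h, Equiv.Perm.cycleOf_mem_cycleFactorsFinset_iff.2 hh⟩
    else Sum.inr ⟨h, hh⟩
  have hf : ∀ a b, f a = f b ↔ g.SameCycle a b := by
    intro a b
    by_cases ha : a ∈ g.support
    · by_cases hb : b ∈ g.support
      · have e1 : f a = Sum.inl ⟨g.cycleOf a,
            Equiv.Perm.cycleOf_mem_cycleFactorsFinset_iff.2 ha⟩ := dif_pos ha
        have e2 : f b = Sum.inl ⟨g.cycleOf b,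
            Equiv.Perm.cycleOf_mem_cycleFactorsFinset_iff.2 hb⟩ := dif_pos hb
        rw [e1, e2, Equiv.Perm.sameCycle_iff_cycleOf_eq_of_mem_support ha hb]
        constructor
        · intro h
          exact congrArg Subtype.val (Sum.inl_injective h)
        · intro h
          exact congrArg Sum.inl (Subtype.ext h)
      · have e1 : f a = Sum.inl ⟨g.cycleOf a,
            Equiv.Perm.cycleOf_mem_cycleFactorsFinset_iff.2 ha⟩ := dif_pos ha
        have e2 : f b = Sum.inr ⟨b, hb⟩ := dif_neg hb
        rw [e1, e2]
        constructor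
        · intro h
          exact absurd h (by simp)
        · intro h
          exfalso
          rw [Equiv.Perm.mem_support] at ha hb
          exact ha (h.apply_eq_self_iff.2 (not_not.1 hb))
    · by_cases hb : b ∈ g.support
      · have e1 : f a = Sum.inr ⟨a, ha⟩ := dif_neg ha
        have e2 : f b = Sum.inl ⟨g.cycleOf b,
            Equiv.Perm.cycleOf_mem_cycleFactorsFinset_iff.2 hb⟩ := dif_pos hb
        rw [e1, e2]
        constructor
        · intro h
          exact absurd h (by simp)
        · intro h
          exfalso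
          rw [Equiv.Perm.mem_support] at ha hb
          exact hb (h.apply_eq_self_iff.1 (not_not.1 ha))
      · have e1 : f a = Sum.inr ⟨a, ha⟩ := dif_neg ha
        have e2 : f b = Sum.inr ⟨b, hb⟩ := dif_neg hb
        rw [e1, e2]
        constructor
        · intro h
          have h1 : a = b := congrArg Subtype.val (Sum.inr_injective h)
          rw [h1]
        · intro h
          rw [Equiv.Perm.mem_support, not_not] at ha
          have h1 : a = b := h.eq_of_left ha
          exact congrArg Sum.inr (Subtype.ext h1)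
  have hbij : Function.Bijective (fun c : Cyc g => f c.rep) := by
    constructor
    · intro c c' h
      have h1 := (hf _ _).1 h
      rw [← cyc_rep c, ← cyc_rep c', cyc_eq_iff]
      exact h1
    · rintro (⟨c, hc⟩ | ⟨h, hh⟩)
      · have hcyc := (Equiv.Perm.mem_cycleFactorsFinset_iff.1 hc).1
        obtain ⟨x, hx⟩ := hcyc.nonempty_support
        have h1 := Equiv.Perm.cycle_is_cycleOf hx hc
        have hxs : x ∈ g.support := Equiv.Perm.mem_cycleFactorsFinset_support_le hc hx
        refine ⟨cyc g x, ?_⟩
        have h2 : f (cyc g x).rep = f x := (hf _ _).2 (cyc_eq_iff.1 (cyc_rep (cyc g x)))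
        show f (cyc g x).rep = _
        rw [h2]
        have e1 : f x = Sum.inl ⟨g.cycleOf x,
            Equiv.Perm.cycleOf_mem_cycleFactorsFinset_iff.2 hxs⟩ := dif_pos hxs
        rw [e1]
        exact congrArg Sum.inl (Subtype.ext h1.symm)
      · refine ⟨cyc g h, ?_⟩
        have h2 : f (cyc g h).rep = f h := (hf _ _).2 (cyc_eq_iff.1 (cyc_rep (cyc g h)))
        show f (cyc g h).rep = _
        rw [h2]
        exact dif_neg hh
  rw [Fintype.card_of_bijective hbij, Fintype.card_sum, Fintype.card_coe,
    Fintype.card_subtype_compl (fun h => h ∈ g.support), Fintype.card_coe]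
  have h3 : g.cycleFactorsFinset.card = Multiset.card g.cycleType := by
    rw [Equiv.Perm.cycleType_def, Multiset.card_map]
    rfl
  rw [h3]

theorem sign_cyc {H : Type} [Fintype H] [DecidableEq H] (g : Equiv.Perm H) :
    Equiv.Perm.sign g = (-1) ^ (Fintype.card H + Fintype.card (Cyc g)) := by
  rw [Equiv.Perm.sign_of_cycleType, card_cyc_aux, Equiv.Perm.sum_cycleType]
  have h1 : g.support.card ≤ Fintype.card H := Finset.card_le_univ _
  have h2 : Fintype.card H + (Multiset.card g.cycleType + (Fintype.card H - g.support.card))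
      = (g.support.card + Multiset.card g.cycleType)
        + 2 * (Fintype.card H - g.support.card) := by omega
  rw [h2, pow_add _ (g.support.card + Multiset.card g.cycleType), pow_mul]
  simp

theorem sign_rot {ρ : Type} [Fintype ρ] [DecidableEq ρ] (K : ρ → ℕ) (hK : ∀ i, Odd (K i)) :
    Equiv.Perm.sign (rot K) = 1 := by
  have hc : Fintype.card (Cyc (rot K)) = Fintype.card ρ := by
    refine Fintype.card_of_bijective (f := fun c : Cyc (rot K) => c.rep.1) ⟨?_, ?_⟩
    · intro c c' h
      rw [← cyc_rep c, ← cyc_rep c', cyc_eq_iff, rot_sameCycle]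
      exact h
    · intro i
      refine ⟨cyc (rot K) ⟨i, ⟨0, (hK i).pos⟩⟩, ?_⟩
      show (cyc (rot K) ⟨i, ⟨0, (hK i).pos⟩⟩).rep.1 = i
      have h1 := cyc_rep (cyc (rot K) (⟨i, ⟨0, (hK i).pos⟩⟩ : HK K))
      rw [cyc_eq_iff, rot_sameCycle] at h1
      exact h1
  rw [sign_cyc, hc]
  have h2 : Fintype.card (HK K) + Fintype.card ρ = ∑ i, (K i + 1) := by
    rw [Finset.sum_add_distrib]
    simp
  rw [h2]
  have h3 : Even (∑ i, (K i + 1)) := Finset.even_sum _ fun i _ => (hK i).add_one
  exact h3.neg_one_pow

/-- a pairing has an even number of points, and half as many cycles -/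
theorem card_pairing {F : Type} [Fintype F] (β : Equiv.Perm F) (hβ : IsPairing β) :
    Fintype.card F = 2 * Fintype.card (Cyc β) := by
  classical
  have hpow : ∀ a b, β.SameCycle a b → b = a ∨ b = β a := by
    rintro a b ⟨i, hi⟩
    have h2 : β * β = 1 := Equiv.ext fun h => hβ.invol h
    have h3 : β ^ (2 : ℤ) = 1 := by
      rw [zpow_two]
      exact h2
    rcases Int.even_or_odd i with ⟨k, hk⟩ | ⟨k, hk⟩
    · left
      rw [hk, ← two_mul, zpow_mul, h3, one_zpow] at hi
      exact hi.symm
    · right
      rw [hk, zpow_add, zpow_mul, zpow_one, h3, one_zpow, one_mul] at hi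
      exact hi.symm
  let E : Cyc β × Bool → F := fun x => if x.2 then β x.1.rep else x.1.rep
  have hE : Function.Bijective E := by
    constructor
    · rintro ⟨c, b⟩ ⟨c', b'⟩ h
      have h1 : ∀ (c : Cyc β) (b : Bool), cyc β (E (c, b)) = c := by
        intro c b
        cases b
        · show cyc β c.rep = c
          exact cyc_rep c
        · show cyc β (β c.rep) = c
          rw [cyc_apply]
          exact cyc_rep c
      have h2 : c = c' := by
        rw [← h1 c b, h, h1 c' b']
      subst h2
      cases b
      · cases b'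
        · rfl
        · exact absurd (h.symm : β c.rep = c.rep) (hβ.fpf _)
      · cases b'
        · exact absurd (h : β c.rep = c.rep) (hβ.fpf _)
        · rfl
    · intro f
      have h1 := hpow (cyc β f).rep f (cyc_eq_iff.1 (cyc_rep (cyc β f)))
      rcases h1 with h1 | h1
      · exact ⟨(cyc β f, false), h1.symm⟩
      · exact ⟨(cyc β f, true), h1.symm⟩
  rw [← Fintype.card_of_bijective hE, Fintype.card_prod, Fintype.card_bool, mul_comm]

theorem conf_isEmpty {ρ : Type} [Fintype ρ] (K : ρ → ℕ) (hK : ∀ i, Odd (K i)) (E : ℕ)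
    (hE : ∑ i, K i = 2 * E) (hodd : Odd E) : IsEmpty (Conf (rot K)) := by
  classical
  refine ⟨fun R => ?_⟩
  have hH : Fintype.card (HK K) = 2 * E := by
    rw [← hE]
    simp
  have h1 := card_pairing R.τ R.hτ
  have h2 := card_pairing R.β R.hβ
  have hE1 : Fintype.card (Cyc R.τ) = E := by omega
  have s1 := sign_cyc R.τ
  rw [hH, hE1] at s1
  have s2 := sign_cyc (rot K * R.τ)
  rw [Equiv.Perm.sign_mul, sign_rot K hK, one_mul, s1, hH, h2, ← mul_add] at s2
  rw [pow_mul (-1 : ℤˣ) 2 (E + Fintype.card (Cyc R.β))] at s2
  have h3 : Odd (2 * E + E) := by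
    have h4 : 2 * E + E = E + 2 * E := by ring
    rw [h4]
    exact hodd.add_even (even_two_mul E)
  rw [h3.neg_one_pow] at s2
  simp at s2

end Pool.Agent.Helper91.MVC
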