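import Pool.Agent.Helper91.MVC.SplitP
import Pool.Agent.Helper91.MVC.Lift
import Pool.Agent.Helper91.MVC.Inj
import Pool.Agent.Helper91.MVC.MaxL
import Pool.Agent.Helper91.MVC.CutT
import Pool.Agent.Helper91.MVC.Cut1
import Pool.Agent.Helper91.MVC.Del
import Pool.Agent.Helper91.MVC.Cyl
import Pool.Agent.Helper91.MVC.Disc
import Pool.Agent.Helper91.MVC.Par

/-!
Project MV, block C1: cutting along a maximal leaf; the statements of `Spec.lean` are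
`good_no_leaf`, `good_not_AA` (Good), `deletion` (Del), `exists_maxLeaf` (MaxL), `split` (here),
`exists_closedIn`, `dsplit` (Disc), `prod_cyl`, `prod_cyl_sum` (Cyl), `conf_isEmpty` (Par).
-/

namespace Pool.Agent.Helper91.MVC

open Finset Pool.Agent.Helper60.MV

theorem split_of_cut {H HT H₁ : Type} [Fintype H] [Fintype HT] [Fintype H₁] {σ : Equiv.Perm H}
    {R : Conf σ} {x : H} {μ : H → ℤ} {A : H → Prop}
    {σT : Equiv.Perm HT} {jT : HT → H} {xT yT : HT} {σ₁ : Equiv.Perm H₁} {j₁ : H₁ → H} {z₁ : H₁}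
    (hC : Cut R x μ A σT jT xT yT σ₁ j₁ z₁) (T : Conf σT) (R₁ : Conf σ₁)
    (hT : Pull T R jT (gT R x jT xT)) (h₁ : Pull R₁ R j₁ (fun p => R.face (j₁ p)))
    (hmax : ∀ (x' : H) (μ' : H → ℤ), R.IsLeaf x' μ' →
      Nat.card {h // μ' h ≠ 0} ≤ Nat.card {h // μ h ≠ 0}) : Nonempty (Split R T R₁) := by
  obtain ⟨iF, iE, hM⟩ := cut_maps hC T R₁ hT h₁
  obtain ⟨ν, hν1, hν2, hν3⟩ := cut_nu hC hM
  exact ⟨{
    ιF := iF
    ιE := iE
    e₀ := T.edge xT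
    fy := T.face xT
    fx := R₁.face (σ₁ z₁)
    ν := ν
    beta := hM.beta
    perT := cut_perT hC hM
    per₁ := cut_per₁ hC hM
    leafT := cut_leafT hC hM
    leaf₁ := cut_leaf₁ hC hM h₁ hmax
    nu := hν1
    nubeta := hν2
    nuper := hν3 }⟩

theorem split {ρ : Type} [Fintype ρ] (K : ρ → ℕ) (hK : ∀ i, Odd (K i)) (x : HK K) (m : ℕ)
    (_hm : 1 ≤ m) (hm2 : 2 * m + 2 < K x.1) :
    ∃ F : {R : Conf (rot K) // R.Conn ∧ MaxLeaf R x m} →
        Conf (rot (leg m)) × Conf (rot (red K x.1 m)),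
      Function.Injective F ∧ ∀ R, (F R).2.Conn ∧ Nonempty (Split R.1 (F R).1 (F R).2) := by
  obtain ⟨xT, yT, hET⟩ := embT_rot K x m hm2
  obtain ⟨z₁, hE1⟩ := emb1_rot K x m hm2
  have key : ∀ R : {R : Conf (rot K) // R.Conn ∧ MaxLeaf R x m},
      ∃ (T : Conf (rot (leg m))) (R₁ : Conf (rot (red K x.1 m))) (μ : HK K → ℤ),
        Cut R.1 x μ (AK K x m) (rot (leg m)) (jTK K x m) xT yT (rot (red K x.1 m))
          (j₁K K x m) z₁ ∧
        (∀ (x' : HK K) (μ' : HK K → ℤ), R.1.IsLeaf x' μ' →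
          Nat.card {h // μ' h ≠ 0} ≤ Nat.card {h // μ h ≠ 0}) ∧
        Pull T R.1 (jTK K x m) (gT R.1 x (jTK K x m) xT) ∧
        Pull R₁ R.1 (j₁K K x m) (fun p => R.1.face (j₁K K x m p)) := by
    intro R
    obtain ⟨μ, hl, hA, hy, hv, hmax⟩ := maxLeaf_data K hK R.1 R.2.2
    have eT : EmbT (rot K) x (R.1.τ x) (AK K x m) (rot (leg m)) (jTK K x m) xT yT := by
      rw [hy]; exact hET
    have e1 : Emb1 (rot K) x (R.1.τ x) (AK K x m) (rot (red K x.1 m)) (j₁K K x m) z₁ := by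
      rw [hy]; exact hE1
    obtain ⟨T, hT⟩ := cutT R.1 hl hA eT
    obtain ⟨R₁, h₁⟩ := cut1 R.1 hl hA e1
    exact ⟨T, R₁, μ, ⟨hl, hA, hv, eT, e1⟩, hmax, hT, h₁⟩
  choose T R₁ μ hC hmax hT h₁ using key
  refine ⟨fun R => (T R, R₁ R), ?_, ?_⟩
  · intro R R' h
    have e1 : T R = T R' := congrArg Prod.fst h
    have e2 : R₁ R = R₁ R' := congrArg Prod.snd h
    have hT' := hT R'
    have h₁' := h₁ R'
    rw [← e1] at hT'
    rw [← e2] at h₁'
    exact Subtype.ext (cut_inj (hC R) (hC R') (hT R) (h₁ R) hT' h₁')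
  · intro R
    exact ⟨conn1 R.1 (hC R).leaf (hC R).hA (hC R).e₁ (R₁ R) (h₁ R) R.2.1,
      split_of_cut (hC R) (T R) (R₁ R) (hT R) (h₁ R) (hmax R)⟩

end Pool.Agent.Helper91.MVC
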