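import Pool.Agent.Helper91.MVC.Defs2
import Pool.Agent.Helper91.MVC.PullEx

/-!
MV-C1-10. Faces and edges of a cut.

Let `iT, i₁` be the maps of `pull_faceMap` for `T` and `R₁`. `A = {μ ≠ 0}`. The faces `iT f` are faces of half-edges in `A` (`gT xT = R.face (R.τ x)`, `R.τ x ∈ A`; `gT p =
R.face (jT p)`, `jT p ∈ A` for `p ≠ xT`), the faces `i₁ f` are faces of half-edges not in `A`; `μ` is constant on faces, so the ranges are disjoint. Every face of
`R` is hit: `f = R.face h`; `h ∈ A`: `h = jT p`, `p ≠ xT`; `h ∉ A`, `h ≠ x`: `h = j₁ p`; `h = x`: `R.face x = R.face (σ (R.τ x))` (`face_phi`) `= R.face (j₁ (σ₁ z₁))`.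
So `Sum.elim iT i₁` is bijective (`Equiv.ofBijective`), and it commutes with the pairings. Edges: `pull_edgeMap`, `edge_eq_iff`; the ranges of `jT` and `j₁`
are complementary and stable under `R.τ` (by `Pull.tau`).
-/

namespace Pool.Agent.Helper91.MVC

open Finset Pool.Agent.Helper60.MV

variable {H HT H₁ : Type} {σ : Equiv.Perm H}

/-- the maps of a cut -/
structure Maps {σT : Equiv.Perm HT} {σ₁ : Equiv.Perm H₁} (R : Conf σ) (T : Conf σT) (R₁ : Conf σ₁)
    (x : H) (jT : HT → H) (xT : HT) (j₁ : H₁ → H) (iF : T.Face ⊕ R₁.Face ≃ R.Face)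
    (iE : T.Edge ⊕ R₁.Edge ≃ R.Edge) : Prop where
  fT : ∀ p, iF (Sum.inl (T.face p)) = gT R x jT xT p
  f₁ : ∀ p, iF (Sum.inr (R₁.face p)) = R.face (j₁ p)
  eT : ∀ p, iE (Sum.inl (T.edge p)) = R.edge (jT p)
  e₁ : ∀ p, iE (Sum.inr (R₁.edge p)) = R.edge (j₁ p)
  beta : ∀ f, R.β (iF f) = iF (Sum.map T.β R₁.β f)

theorem cut_maps {R : Conf σ} {x : H} {μ : H → ℤ} {A : H → Prop} {σT : Equiv.Perm HT}
    {jT : HT → H} {xT yT : HT} {σ₁ : Equiv.Perm H₁} {j₁ : H₁ → H} {z₁ : H₁}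
    (hC : Cut R x μ A σT jT xT yT σ₁ j₁ z₁) (T : Conf σT) (R₁ : Conf σ₁)
    (hT : Pull T R jT (gT R x jT xT)) (h₁ : Pull R₁ R j₁ (fun p => R.face (j₁ p))) :
    ∃ iF iE, Maps R T R₁ x jT xT j₁ iF iE := by
  classical
  obtain ⟨iT, iTinj, iTf, iTb⟩ := pull_faceMap hT
  obtain ⟨i₁, i₁inj, i₁f, i₁b⟩ := pull_faceMap h₁
  obtain ⟨kT, kTinj, kTe⟩ := pull_edgeMap hT
  obtain ⟨k₁, k₁inj, k₁e⟩ := pull_edgeMap h₁
  have hleaf := hC.leaf
  have hyA : A (R.τ x) := by
    rw [hC.hA, hleaf.one]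
    exact one_ne_zero
  have hxA : ¬ A x := by
    rw [hC.hA, hleaf.zero]
    simp
  have hjT : ∀ p, jT p = x ∨ A (jT p) := fun p => (hC.eT.range _).1 ⟨p, rfl⟩
  have hj₁ : ∀ q, ¬ (j₁ q = x ∨ A (j₁ q)) := fun q => (hC.e₁.range _).1 ⟨q, rfl⟩
  have hjTx : ∀ p, jT p = x → p = xT := fun p hp => hC.eT.inj (hp.trans hC.eT.hx.symm)
  -- faces of the leaf come from half-edges of the leaf
  have hgT : ∀ p, ∃ h, A h ∧ gT R x jT xT p = R.face h := by
    intro p
    by_cases hp : p = xT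
    · exact ⟨R.τ x, hyA, by rw [hp, gT_x]⟩
    · refine ⟨jT p, (hjT p).resolve_left fun h => hp (hjTx p h), gT_of_ne R x jT xT p hp⟩
  have hsepF : ∀ f g, iT f ≠ i₁ g := by
    intro f g hfg
    obtain ⟨p, rfl⟩ := face_surj T f
    obtain ⟨q, rfl⟩ := face_surj R₁ g
    obtain ⟨h, hh, he⟩ := hgT p
    rw [iTf, i₁f, he] at hfg
    have h1 := hleaf.face _ _ hfg
    rw [hC.hA, h1] at hh
    exact hj₁ q (Or.inr ((hC.hA _).2 hh))
  have hsepE : ∀ e g, kT e ≠ k₁ g := by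
    intro e g heg
    obtain ⟨p, rfl⟩ := edge_surj T e
    obtain ⟨q, rfl⟩ := edge_surj R₁ g
    rw [kTe, k₁e, edge_eq_iff] at heg
    rcases heg with h | h
    · apply hj₁ q
      rw [← h]
      exact hjT p
    · apply hj₁ q
      rw [← h, ← hT.tau]
      exact hjT _
  have injF : Function.Injective (Sum.elim iT i₁) := by
    rintro (a | a) (b | b) h
    · exact congrArg Sum.inl (iTinj h)
    · exact absurd h (hsepF a b)
    · exact absurd h.symm (hsepF b a)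
    · exact congrArg Sum.inr (i₁inj h)
  have injE : Function.Injective (Sum.elim kT k₁) := by
    rintro (a | a) (b | b) h
    · exact congrArg Sum.inl (kTinj h)
    · exact absurd h (hsepE a b)
    · exact absurd h.symm (hsepE b a)
    · exact congrArg Sum.inr (k₁inj h)
  have surF : Function.Surjective (Sum.elim iT i₁) := by
    intro f
    obtain ⟨h, rfl⟩ := face_surj R f
    by_cases hh : A h
    · obtain ⟨p, rfl⟩ := (hC.eT.range h).2 (Or.inr hh)
      have hp : p ≠ xT := by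
        rintro rfl
        rw [hC.eT.hx] at hh
        exact hxA hh
      exact ⟨Sum.inl (T.face p), (iTf p).trans (gT_of_ne R x jT xT p hp)⟩
    · by_cases hx : h = x
      · refine ⟨Sum.inr (R₁.face (σ₁ z₁)), (i₁f _).trans ?_⟩
        show R.face (j₁ (σ₁ z₁)) = R.face h
        rw [hC.e₁.last, face_phi, hx]
      · obtain ⟨p, rfl⟩ := (hC.e₁.range h).2 (by rintro (h1 | h1); exacts [hx h1, hh h1])
        exact ⟨Sum.inr (R₁.face p), i₁f p⟩
  have surE : Function.Surjective (Sum.elim kT k₁) := by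
    intro e
    obtain ⟨h, rfl⟩ := edge_surj R e
    by_cases hh : h = x ∨ A h
    · obtain ⟨p, rfl⟩ := (hC.eT.range h).2 hh
      exact ⟨Sum.inl (T.edge p), kTe p⟩
    · obtain ⟨p, rfl⟩ := (hC.e₁.range h).2 hh
      exact ⟨Sum.inr (R₁.edge p), k₁e p⟩
  refine ⟨Equiv.ofBijective _ ⟨injF, surF⟩, Equiv.ofBijective _ ⟨injE, surE⟩, ?_, ?_, ?_, ?_, ?_⟩
  · intro p
    exact iTf p
  · intro p
    exact i₁f p
  · intro p
    exact kTe p
  · intro p
    exact k₁e p
  · rintro (f | f)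
    · exact iTb f
    · exact i₁b f

end Pool.Agent.Helper91.MVC
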