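import Pool.Agent.Helper91.MVC.SplitF
import Pool.Agent.Helper91.MVC.Good

/-!
MV-C1-11. Perimeters of a cut.

`jT` and `j₁` are injective with complementary ranges (`EmbT.range`, `Emb1.range`), so `∑_{h : H} w h = ∑_{p : HT} w (jT p) + ∑_{q : H₁} w (j₁ q)` (`sum_cut`). `A = {μ ≠ 0}`,
`x ∉ A`. `R.per x f = ∑_h if R.face h = f then x (R.edge h) else 0`.
`cut_perT`: `f = T.face _`. For `q : H₁`: `R.face (j₁ q) ≠ iF (inl f)` (`Maps.f₁`, injectivity of `iF`). For `p ≠ xT`: `R.face (jT p) = gT p = iF (inl (T.face p))`, so the term is the one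
of `T.per`. `p = xT`: `R.face x = R.face (σ (R.τ x)) = R.face (j₁ (σ₁ z₁)) = iF (inr _) ≠ iF (inl f)`, the term is `0`, while `T.per` has the term
`if T.face xT = f then x (R.edge x)`, and `iE (inl (T.edge xT)) = R.edge x`.
`cut_per₁`: for `p ≠ xT` the face of `jT p` is `iF (inl _)`, term `0`; for `p = xT` the face is `iF (inr (R₁.face (σ₁ z₁)))`; for `q` the term of `R₁.per`.
`cut_nu`: `ν f = μ (jT f.rep)` if `f.rep ≠ xT`, else `1`. So `ν (T.face p) = μ (jT p)` for `p ≠ xT` and `ν (T.face xT) = 1 = μ (R.τ x)` (`Maps.fT`, `T.face a = T.face b ↔ gT a = gT b`, `μ`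
constant on faces). Values `±1`: `Cut.val`. `ν (T.β f) = - ν f`: `IsLeaf.beta`. `∑_f ν f * R.per w (iF (inl f))`: exchange sums: `= ∑_h [R.face h = iF (inl f) for some f] ν f * w (R.edge h)
= ∑_h μ h * w (R.edge h)` (if the face of `h` is not of the form `iF (inl f)` then `h ∉ A`, `μ h = 0`; if `R.face h = iF (inl f)` then `ν f = μ h`)
`= (μ x + μ (R.τ x)) w (R.edge x) = w (R.edge x)` by `sum_edge_pair` of `Good.lean`.
`cut_leafT`: `f = T.face p` with `p ≠ xT` (`T.face xT = T.face yT` because `gT xT = R.face (R.τ x) = gT yT`), `iF (inl f) = R.face (jT p)`, `μ (jT p) ≠ 0`.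
-/

namespace Pool.Agent.Helper91.MVC

open Finset Pool.Agent.Helper60.MV

variable {H HT H₁ : Type} {σ : Equiv.Perm H}

theorem sum_cut [Fintype H] [Fintype HT] [Fintype H₁] {x y : H} {A : H → Prop}
    {σT : Equiv.Perm HT} {jT : HT → H} {xT yT : HT} {σ₁ : Equiv.Perm H₁} {j₁ : H₁ → H} {z₁ : H₁}
    (hT : EmbT σ x y A σT jT xT yT) (h₁ : Emb1 σ x y A σ₁ j₁ z₁) (w : H → ℝ) :
    ∑ h, w h = ∑ p, w (jT p) + ∑ q, w (j₁ q) := by
  classical
  have hbij : Function.Bijective (Sum.elim jT j₁) := by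
    constructor
    · rintro (a | a) (b | b) hab
      · exact congrArg Sum.inl (hT.inj hab)
      · exact absurd ((hT.range _).1 ⟨a, hab⟩) ((h₁.range _).1 ⟨b, rfl⟩)
      · exact absurd ((hT.range _).1 ⟨b, hab.symm⟩) ((h₁.range _).1 ⟨a, rfl⟩)
      · exact congrArg Sum.inr (h₁.inj hab)
    · intro h
      by_cases hh : h = x ∨ A h
      · obtain ⟨p, hp⟩ := (hT.range h).2 hh
        exact ⟨Sum.inl p, hp⟩
      · obtain ⟨q, hq⟩ := (h₁.range h).2 hh
        exact ⟨Sum.inr q, hq⟩
  rw [← hbij.sum_comp w, Fintype.sum_sum_type]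
  rfl

variable [Fintype H] [Fintype HT] [Fintype H₁] {R : Conf σ} {x : H} {μ : H → ℤ} {A : H → Prop}
  {σT : Equiv.Perm HT} {jT : HT → H} {xT yT : HT} {σ₁ : Equiv.Perm H₁} {j₁ : H₁ → H} {z₁ : H₁}
  {T : Conf σT} {R₁ : Conf σ₁} {iF : T.Face ⊕ R₁.Face ≃ R.Face} {iE : T.Edge ⊕ R₁.Edge ≃ R.Edge}

omit [Fintype H] [Fintype HT] [Fintype H₁] in
private theorem face_x (hC : Cut R x μ A σT jT xT yT σ₁ j₁ z₁)
    (hM : Maps R T R₁ x jT xT j₁ iF iE) : R.face x = iF (Sum.inr (R₁.face (σ₁ z₁))) := by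
  rw [hM.f₁, hC.e₁.last, face_phi]

omit [Fintype H] [Fintype HT] [Fintype H₁] in
private theorem face_jT (hM : Maps R T R₁ x jT xT j₁ iF iE) (p : HT) (hp : p ≠ xT) :
    R.face (jT p) = iF (Sum.inl (T.face p)) := by
  rw [hM.fT, gT_of_ne _ _ _ _ _ hp]

/-- the half-edge of the face of `p` -/
private noncomputable def kk (R : Conf σ) (x : H) (jT : HT → H) (xT : HT) (p : HT) : H := by
  classical
  exact if p = xT then R.τ x else jT p

omit [Fintype H] [Fintype HT] [Fintype H₁] in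
private theorem face_kk (hM : Maps R T R₁ x jT xT j₁ iF iE) (p : HT) :
    R.face (kk R x jT xT p) = iF (Sum.inl (T.face p)) := by
  classical
  unfold kk
  split_ifs with h
  · rw [hM.fT, h, gT_x]
  · exact face_jT hM p h

omit [Fintype H] [Fintype HT] [Fintype H₁] in
private theorem mu_jT (hC : Cut R x μ A σT jT xT yT σ₁ j₁ z₁) (p : HT) (hp : p ≠ xT) :
    μ (jT p) ≠ 0 := by
  rcases (hC.eT.range _).1 ⟨p, rfl⟩ with h | h
  · exact absurd (hC.eT.inj (h.trans hC.eT.hx.symm)) hp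
  · exact (hC.hA _).1 h

omit [Fintype H] [Fintype HT] [Fintype H₁] in
private theorem mu_kk (hC : Cut R x μ A σT jT xT yT σ₁ j₁ z₁) (p : HT) :
    μ (kk R x jT xT p) ≠ 0 := by
  classical
  unfold kk
  split_ifs with h
  · rw [hC.leaf.one]; exact one_ne_zero
  · exact mu_jT hC p h

theorem cut_perT (hC : Cut R x μ A σT jT xT yT σ₁ j₁ z₁)
    (hM : Maps R T R₁ x jT xT j₁ iF iE) (w : R.Edge → ℝ) (f : T.Face) :
    R.per w (iF (Sum.inl f)) + (if f = T.face xT then w (iE (Sum.inl (T.edge xT))) else 0) =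
      T.per (fun e => w (iE (Sum.inl e))) f := by
  classical
  unfold Conf.per
  rw [sum_cut hC.eT hC.e₁ (fun h => if R.face h = iF (Sum.inl f) then w (R.edge h) else 0)]
  have h2 : ∑ q, (if R.face (j₁ q) = iF (Sum.inl f) then w (R.edge (j₁ q)) else 0) = 0 := by
    refine Finset.sum_eq_zero fun q _ => if_neg ?_
    rw [← hM.f₁]
    intro h
    exact Sum.inr_ne_inl (iF.injective h)
  have h3 : (if f = T.face xT then w (iE (Sum.inl (T.edge xT))) else 0) =
      ∑ p, (if p = xT then (if f = T.face xT then w (iE (Sum.inl (T.edge xT))) else 0) else 0) := by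
    rw [Finset.sum_ite_eq' Finset.univ xT, if_pos (Finset.mem_univ _)]
  rw [h2, add_zero, h3, ← Finset.sum_add_distrib]
  refine Finset.sum_congr rfl fun p _ => ?_
  by_cases hp : p = xT
  · subst hp
    rw [if_pos rfl, hC.eT.hx, face_x hC hM, if_neg (fun h => Sum.inr_ne_inl (iF.injective h)),
      zero_add]
    by_cases hf : f = T.face p
    · rw [if_pos hf, if_pos hf.symm]
    · rw [if_neg hf, if_neg (fun h => hf h.symm)]
  · rw [if_neg hp, add_zero, face_jT hM p hp, ← hM.eT]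
    by_cases hf : T.face p = f
    · rw [if_pos (by rw [hf]), if_pos hf]
    · rw [if_neg (fun h => hf (Sum.inl_injective (iF.injective h))), if_neg hf]

theorem cut_per₁ (hC : Cut R x μ A σT jT xT yT σ₁ j₁ z₁)
    (hM : Maps R T R₁ x jT xT j₁ iF iE) (w : R.Edge → ℝ) (f : R₁.Face) :
    R.per w (iF (Sum.inr f)) = R₁.per (fun e => w (iE (Sum.inr e))) f +
      (if f = R₁.face (σ₁ z₁) then w (iE (Sum.inl (T.edge xT))) else 0) := by
  classical
  unfold Conf.per
  rw [sum_cut hC.eT hC.e₁ (fun h => if R.face h = iF (Sum.inr f) then w (R.edge h) else 0),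
    add_comm]
  congr 1
  · refine Finset.sum_congr rfl fun q _ => ?_
    rw [← hM.f₁, ← hM.e₁]
    by_cases hf : R₁.face q = f
    · rw [if_pos (by rw [hf]), if_pos hf]
    · rw [if_neg (fun h => hf (Sum.inr_injective (iF.injective h))), if_neg hf]
  · rw [Finset.sum_eq_single_of_mem xT (Finset.mem_univ _)]
    · rw [hM.eT, hC.eT.hx, face_x hC hM]
      by_cases hf : f = R₁.face (σ₁ z₁)
      · rw [if_pos (by rw [hf]), if_pos hf]
      · rw [if_neg (fun h => hf (Sum.inr_injective (iF.injective h)).symm), if_neg hf]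
    · intro p _ hp
      rw [face_jT hM p hp]
      exact if_neg (fun h => Sum.inl_ne_inr (iF.injective h))

theorem cut_nu (hC : Cut R x μ A σT jT xT yT σ₁ j₁ z₁)
    (hM : Maps R T R₁ x jT xT j₁ iF iE) :
    ∃ ν : T.Face → ℤ, (∀ f, ν f = 1 ∨ ν f = -1) ∧ (∀ f, ν (T.β f) = - ν f) ∧
      ∀ w : R.Edge → ℝ, ∑ f : T.Face, (ν f : ℝ) * R.per w (iF (Sum.inl f)) =
        w (iE (Sum.inl (T.edge xT))) := by
  classical
  have hν : ∀ (p : HT) (h : H), R.face h = iF (Sum.inl (T.face p)) →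
      μ h = μ (kk R x jT xT p) := fun p h hh =>
    hC.leaf.face _ _ (hh.trans (face_kk hM p).symm)
  have hval : ∀ p, μ (kk R x jT xT (T.face p).rep) = μ (kk R x jT xT p) := fun p =>
    hν p _ (by rw [face_kk hM]; congr 2; exact cyc_rep _)
  refine ⟨fun f => μ (kk R x jT xT f.rep), fun f => hC.val _ (mu_kk hC _), fun f => ?_,
    fun w => ?_⟩
  · obtain ⟨p, rfl⟩ := face_surj T f
    obtain ⟨p', hp'⟩ := face_surj T (T.β (T.face p))
    rw [← hp']
    show μ (kk R x jT xT (T.face p').rep) = - μ (kk R x jT xT (T.face p).rep)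
    rw [hval, hval]
    refine hC.leaf.beta _ _ ?_
    rw [face_kk hM, face_kk hM, hM.beta, hp']
    rfl
  · have e1 : ∑ f : T.Face, (μ (kk R x jT xT f.rep) : ℝ) * R.per w (iF (Sum.inl f)) =
        ∑ h : H, ∑ f : T.Face, (if R.face h = iF (Sum.inl f) then
          (μ (kk R x jT xT f.rep) : ℝ) * w (R.edge h) else 0) := by
      rw [Finset.sum_comm]
      refine Finset.sum_congr rfl fun f _ => ?_
      unfold Conf.per
      rw [Finset.mul_sum]
      refine Finset.sum_congr rfl fun h _ => ?_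
      rw [mul_ite, mul_zero]
    have e2 : ∀ h : H, ∑ f : T.Face, (if R.face h = iF (Sum.inl f) then
          (μ (kk R x jT xT f.rep) : ℝ) * w (R.edge h) else 0) = (μ h : ℝ) * w (R.edge h) := by
      intro h
      obtain ⟨g, hg⟩ := iF.surjective (R.face h)
      rcases g with f0 | f1
      · obtain ⟨p, rfl⟩ := face_surj T f0
        rw [Finset.sum_eq_single_of_mem (T.face p) (Finset.mem_univ _), if_pos hg.symm, hval,
          hν p h hg.symm]
        intro f _ hf
        rw [if_neg]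
        intro hh
        rw [← hg] at hh
        exact hf (Sum.inl_injective (iF.injective hh)).symm
      · have hμ : μ h = 0 := by
          by_contra hne
          obtain ⟨p, hp⟩ := (hC.eT.range h).2 (Or.inr ((hC.hA h).2 hne))
          have hpx : p ≠ xT := by
            rintro rfl
            rw [hC.eT.hx] at hp
            rw [← hp] at hne
            exact hne hC.leaf.zero
          have h1 := face_jT hM p hpx
          rw [hp, ← hg] at h1
          exact Sum.inr_ne_inl (iF.injective h1)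
        rw [hμ, Int.cast_zero, zero_mul]
        refine Finset.sum_eq_zero fun f _ => if_neg ?_
        rw [← hg]
        exact fun hh => Sum.inr_ne_inl (iF.injective hh)
    rw [e1, Finset.sum_congr rfl fun h _ => e2 h, sum_edge_pair R x μ hC.leaf.tau w, hM.eT,
      hC.eT.hx, hC.leaf.zero, hC.leaf.one]
    push_cast
    ring

theorem cut_leafT (hC : Cut R x μ A σT jT xT yT σ₁ j₁ z₁)
    (hM : Maps R T R₁ x jT xT j₁ iF iE) (f : T.Face) : R.LeafFace (iF (Sum.inl f)) := by
  obtain ⟨p, rfl⟩ := face_surj T f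
  exact ⟨x, μ, hC.leaf, kk R x jT xT p, face_kk hM p, mu_kk hC p⟩

end Pool.Agent.Helper91.MVC
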