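import Pool.Agent.Helper91.MVC.Basic

/-!
MV-C1-1. Structure of leaves.

`alt_zero`: along the `σ`-cycle of `h`, of odd length `n = minimalPeriod σ h`, `μ` changes sign at each step, so
`μ h = μ (σ^n h) = (-1)^n μ h = - μ h`, hence `μ h = 0` (characteristic 0, domain).

`leaf_struct`. Write `y = R.τ x`. From `face` and `face_tau_eq`: `μ (σ h) = μ (R.τ h)` for all `h`. So
 (1) `μ (σ h) = - μ h` for `h ≠ x, y`;  `μ (σ x) = μ y = 1`;  `μ (σ y) = μ x = 0` (`R.τ y = x`).
Let `n = minimalPeriod σ x` (odd, so positive). Consider the sequence `v k = μ (σ^(k+1) x)`, `v 0 = 1`. Let `a` be the least `k ≥ 1`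
with `σ^k x = y` or `σ^k x = x` (exists: `k = n`). For `k < a`, `k ≥ 1`, `σ^k x ≠ x, y`, so by (1) `v k = (-1)^k` for `k < a`.
If `σ^a x = x`: then `v (a-1) = μ x = 0`, but `v (a-1) = (-1)^(a-1) ≠ 0`. So `σ^a x = y`, `a < n` (`y ≠ x`), and
`1 = μ y = v (a-1) = (-1)^(a-1)`, so `a` is odd (`char 0`). After `y`: `v a = μ (σ y) = 0` and by (1) `v k = 0` for `a ≤ k ≤ n-1`
(the points `σ^k x`, `a < k < n`, are different from `x` and `y` because `k < n`).
So on the cycle of `x` the support is `{σ^(k+1) x : k < a}`. If `h` is not in the cycle of `x` (then it is not in the cycle of `y` either),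
all `σ^k h ≠ x, y`, so `μ h = 0` by `alt_zero`.
`a ≠ 1`: otherwise `σ x = y` and the support is `{y}`; take `h'` with `R.β (R.face y) = R.face h'`: `μ h' = -1 ≠ 0`, so `h' = y`, `μ y = 1 = -1`,
false. So `a = 2 m + 1` with `m ≥ 1`. `a < n`, both odd, so `a + 1 = 2 m + 2 < n` (`a + 1` is even and `n` is odd, `a + 1 ≤ n`).
-/

namespace Pool.Agent.Helper91.MVC

open Finset Pool.Agent.Helper60.MV

variable {H : Type} {σ : Equiv.Perm H}

theorem alt_zero {α : Type} [CommRing α] [IsDomain α] [CharZero α] {h : H}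
    (hodd : Odd (Function.minimalPeriod σ h)) (μ : H → α)
    (hμ : ∀ k : ℕ, μ (σ ((σ ^ k) h)) = - μ ((σ ^ k) h)) : μ h = 0 := by
  have h1 : ∀ k : ℕ, μ ((σ ^ k) h) = (-1) ^ k * μ h := by
    intro k
    induction k with
    | zero => simp
    | succ k ih =>
      rw [pow_succ', Equiv.Perm.mul_apply, hμ, ih, pow_succ]
      ring
  have h2 : (σ ^ (Function.minimalPeriod σ h)) h = h := by
    rw [← Equiv.Perm.iterate_eq_pow]
    exact Function.iterate_minimalPeriod
  have h3 := h1 (Function.minimalPeriod σ h)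
  rw [h2, hodd.neg_one_pow] at h3
  have h4 : (2 : α) * μ h = 0 := by linear_combination h3
  rcases mul_eq_zero.1 h4 with h5 | h5
  · exact absurd h5 two_ne_zero
  · exact h5

theorem leaf_struct {α : Type} [CommRing α] [IsDomain α] [CharZero α] (R : Conf σ)
    (hσ : AllOdd σ) {x : H} {μ : H → α} (hl : LeafOn R x μ) :
    ∃ m : ℕ, 1 ≤ m ∧ 2 * m + 2 < Function.minimalPeriod σ x ∧ (σ ^ (2 * m + 1)) x = R.τ x ∧
      (∀ h, μ h ≠ 0 ↔ ∃ k, k < 2 * m + 1 ∧ h = (σ ^ (k + 1)) x) ∧
      ∀ k, k < 2 * m + 1 → μ ((σ ^ (k + 1)) x) = (-1) ^ k := by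
  classical
  have step : ∀ h, μ (σ h) = μ (R.τ h) := fun h => hl.face _ _ (face_tau_eq R h).symm
  have hyx : R.τ x ≠ x := R.hτ.fpf x
  have s1 : ∀ h, h ≠ x → h ≠ R.τ x → μ (σ h) = - μ h := by
    intro h h1 h2
    rw [step, hl.tau h h1 h2]
  have sx : μ (σ x) = 1 := by rw [step, hl.one]
  have sy : μ (σ (R.τ x)) = 0 := by rw [step, R.hτ.invol, hl.zero]
  set n := Function.minimalPeriod σ x with hn
  have hnodd : Odd n := hσ x
  have hnpos : 0 < n := hnodd.pos
  have hnx : (σ ^ n) x = x := by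
    rw [← Equiv.Perm.iterate_eq_pow]
    exact Function.iterate_minimalPeriod
  have succ_ap : ∀ (k : ℕ) (h : H), (σ ^ (k + 1)) h = σ ((σ ^ k) h) := by
    intro k h
    rw [pow_succ', Equiv.Perm.mul_apply]
  have hex : ∃ k, 1 ≤ k ∧ ((σ ^ k) x = R.τ x ∨ (σ ^ k) x = x) := ⟨n, hnpos, Or.inr hnx⟩
  obtain ⟨a, ha1, ha2, ha3⟩ : ∃ a, 1 ≤ a ∧ ((σ ^ a) x = R.τ x ∨ (σ ^ a) x = x) ∧
      ∀ k, 1 ≤ k → ((σ ^ k) x = R.τ x ∨ (σ ^ k) x = x) → a ≤ k :=
    ⟨Nat.find hex, (Nat.find_spec hex).1, (Nat.find_spec hex).2,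
      fun k h1 h2 => Nat.find_min' hex ⟨h1, h2⟩⟩
  have v1 : ∀ k, k < a → μ ((σ ^ (k + 1)) x) = (-1) ^ k := by
    intro k
    induction k with
    | zero =>
      intro _
      rw [succ_ap]
      simpa using sx
    | succ k ih =>
      intro hk
      have h1 := ih (by omega)
      have h2 : (σ ^ (k + 1)) x ≠ x := fun h3 => by
        have := ha3 (k + 1) (by omega) (Or.inr h3)
        omega
      have h3 : (σ ^ (k + 1)) x ≠ R.τ x := fun h4 => by
        have := ha3 (k + 1) (by omega) (Or.inl h4)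
        omega
      rw [succ_ap (k + 1), s1 _ h2 h3, h1, pow_succ]
      ring
  have hneg : ∀ k : ℕ, ((-1 : α)) ^ k ≠ 0 := fun k => pow_ne_zero k (neg_ne_zero.2 one_ne_zero)
  have hay : (σ ^ a) x = R.τ x := by
    rcases ha2 with h1 | h1
    · exact h1
    · exfalso
      have h2 := v1 (a - 1) (by omega)
      have h3 : a - 1 + 1 = a := by omega
      rw [h3, h1, hl.zero] at h2
      exact hneg _ h2.symm
  have han : a < n := by
    have h1 : a ≤ n := ha3 n hnpos (Or.inr hnx)
    have h2 : a ≠ n := by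
      intro h3
      rw [h3, hnx] at hay
      exact hyx hay.symm
    omega
  have haeven : Even (a - 1) := by
    by_contra h1
    rw [Nat.not_even_iff_odd] at h1
    have h2 := v1 (a - 1) (by omega)
    have h3 : a - 1 + 1 = a := by omega
    rw [h3, hay, hl.one, h1.neg_one_pow] at h2
    have h4 : (2 : α) = 0 := by linear_combination h2
    exact two_ne_zero h4
  have hinj : ∀ i j : ℕ, i < n → j < n → (σ ^ i) x = (σ ^ j) x → i = j := by
    intro i j hi hj hij
    rw [← Equiv.Perm.iterate_eq_pow, ← Equiv.Perm.iterate_eq_pow] at hij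
    exact Function.iterate_injOn_Iio_minimalPeriod (Set.mem_Iio.2 hi) (Set.mem_Iio.2 hj) hij
  have v0 : ∀ d, a + d < n → μ ((σ ^ (a + d + 1)) x) = 0 := by
    intro d
    induction d with
    | zero =>
      intro _
      rw [Nat.add_zero, succ_ap, hay, sy]
    | succ d ih =>
      intro hd
      have h1 := ih (by omega)
      have h2 : (σ ^ (a + d + 1)) x ≠ x := fun h3 => by
        have := hinj (a + d + 1) 0 (by omega) hnpos (by simpa using h3)
        omega
      have h3 : (σ ^ (a + d + 1)) x ≠ R.τ x := fun h4 => by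
        rw [← hay] at h4
        have := hinj (a + d + 1) a (by omega) han h4
        omega
      have h4 : a + (d + 1) + 1 = (a + d + 1) + 1 := by ring
      rw [h4, succ_ap (a + d + 1), s1 _ h2 h3, h1, neg_zero]
  have supp : ∀ h, μ h ≠ 0 → ∃ k, k < a ∧ h = (σ ^ (k + 1)) x := by
    intro h hh
    by_cases hc : σ.SameCycle x h
    · obtain ⟨i, hi⟩ := hc
      have hn' : (n : ℤ) ≠ 0 := by exact_mod_cast hnpos.ne'
      obtain ⟨j, hj⟩ := Int.eq_ofNat_of_zero_le (Int.emod_nonneg i hn')
      have hjn : j < n := by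
        have h1 : i % (n : ℤ) < n := Int.emod_lt_of_pos i (by exact_mod_cast hnpos)
        rw [hj] at h1
        exact_mod_cast h1
      have h2 : (σ ^ i) x = (σ ^ j) x := by
        have h3 : i = (j : ℤ) + (n : ℤ) * (i / n) := by
          have := Int.emod_add_mul_ediv i n
          rw [hj] at this
          linarith
        have h4 : (((σ ^ n) ^ (i / (n : ℤ))) : Equiv.Perm H) x = x :=
          Equiv.Perm.zpow_apply_eq_self_of_apply_eq_self hnx _
        calc (σ ^ i) x = (σ ^ ((j : ℤ) + (n : ℤ) * (i / n))) x := by rw [← h3]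
          _ = (σ ^ (j : ℤ)) ((σ ^ ((n : ℤ) * (i / n))) x) := by
            rw [zpow_add, Equiv.Perm.mul_apply]
          _ = (σ ^ (j : ℤ)) x := by
            have h5 : σ ^ ((n : ℤ) * (i / n)) = (σ ^ n) ^ (i / (n : ℤ)) := by
              rw [zpow_mul, zpow_natCast]
            rw [h5, h4]
          _ = (σ ^ j) x := by rw [zpow_natCast]
      have h3 : h = (σ ^ j) x := by rw [← h2, hi]
      rcases Nat.eq_zero_or_pos j with hj0 | hj0
      · exfalso
        apply hh
        rw [h3, hj0]
        simpa using hl.zero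
      · refine ⟨j - 1, ?_, ?_⟩
        · by_contra h4
          apply hh
          have h5 := v0 (j - 1 - a) (by omega)
          have h6 : a + (j - 1 - a) + 1 = j := by omega
          rw [h6] at h5
          rw [h3, h5]
        · rw [h3]
          congr 2
          omega
    · exfalso
      apply hh
      refine alt_zero (hσ h) μ ?_
      intro k
      apply s1
      · intro h1
        apply hc
        rw [← h1]
        exact (Equiv.Perm.sameCycle_pow_left (n := k)).2 (Equiv.Perm.SameCycle.refl _ _)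
      · intro h1
        apply hc
        have h2 : σ.SameCycle ((σ ^ k) h) ((σ ^ a) x) := by
          rw [h1, hay]
        rw [Equiv.Perm.sameCycle_pow_left, Equiv.Perm.sameCycle_pow_right] at h2
        exact h2.symm
  obtain ⟨m, hm⟩ := haeven
  have ham : a = 2 * m + 1 := by omega
  subst ham
  have hm1 : 1 ≤ m := by
    by_contra h1
    have hm0 : m = 0 := by omega
    subst hm0
    have h1' : R.τ x = σ x := by
      rw [← hay]
      simp
    obtain ⟨h', hh'⟩ := face_surj R (R.β (R.face (R.τ x)))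
    have h2 := hl.beta (R.τ x) h' hh'.symm
    rw [hl.one] at h2
    obtain ⟨k, hk, hk2⟩ := supp h' (by rw [h2]; exact neg_ne_zero.2 one_ne_zero)
    have hk0 : k = 0 := by omega
    rw [hk0] at hk2
    have h3 : h' = R.τ x := by
      rw [hk2, h1']
      simp
    rw [h3, hl.one] at h2
    have h4 : (2 : α) = 0 := by linear_combination h2
    exact two_ne_zero h4
  refine ⟨m, hm1, ?_, hay, ?_, v1⟩
  · obtain ⟨r, hr⟩ := hnodd
    omega
  · intro h
    constructor
    · exact supp h
    · rintro ⟨k, hk, rfl⟩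
      rw [v1 k hk]
      exact hneg k

end Pool.Agent.Helper91.MVC
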